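import Pool.Agent.CYL.A.ComDef

/-!
# CYL, part A, commutation: the transfer matrix of `BEX` on a larger label type
-/

namespace Pool.Agent.CYL.Com

open Complex Pool.Agent.BEX

section Phi

variable {α κ : Type*} [DecidableEq α] [DecidableEq κ] {f : α → κ} (hf : Function.Injective f)

theorem capK_Phi (p q : α) (G : St κ → ℂ) (ν : St α) :
    capK (f p) (f q) G (Phi f hf St.emp (stab_emp f) ν) =
      capK p q (fun μ => G (Phi f hf St.emp (stab_emp f) μ)) ν := by
  unfold capK
  simp only [Phi_apply, hf.eq_iff, ← Phi_cp]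

theorem cupK_Phi (p q : α) (G : St κ → ℂ) (ν : St α) :
    cupK (f p) (f q) G (Phi f hf St.emp (stab_emp f) ν) =
      cupK p q (fun μ => G (Phi f hf St.emp (stab_emp f) μ)) ν := by
  unfold cupK
  rw [← Phi_jn]

theorem FoK_Phi {ι : Type*} (s : ι → α) (p : α) (l : List ι) (v : ℂ) (U : ι → ℂ) (G : St κ → ℂ) (ν : St α) :
    FoK (f ∘ s) (f p) l v U G (Phi f hf St.emp (stab_emp f) ν) =
      FoK s p l v U (fun μ => G (Phi f hf St.emp (stab_emp f) μ)) ν := by
  induction l generalizing ν with
  | nil => rfl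
  | cons i l ih =>
    rw [FoK_cons, FoK_cons, Function.comp_apply, Rt_Phi]
    congr 1
    funext μ
    exact ih μ

theorem TK_Phi {ι : Type*} (s : ι → α) (p q : α) (l : List ι) (v : ℂ) (U : ι → ℂ) (G : St κ → ℂ) (ν : St α) :
    TK (f ∘ s) (f p) (f q) l v U G (Phi f hf St.emp (stab_emp f) ν) =
      TK s p q l v U (fun μ => G (Phi f hf St.emp (stab_emp f) μ)) ν := by
  unfold TK
  rw [cupK_Phi hf]
  congr 1
  funext μ
  rw [FoK_Phi hf]
  congr 1
  funext μ'
  rw [capK_Phi hf]

theorem capK_congr {p q : α} {G G' : St α → ℂ} (h : ∀ n, Em p q n → G n = G' n) :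
    capK p q G = capK p q G' := by
  funext m
  unfold capK
  by_cases hp : m p = p
  · by_cases hq : m q = q
    · rw [if_pos hp, if_pos hq, if_pos hp, if_pos hq, h m ⟨hp, hq⟩]
    · rw [if_pos hp, if_neg hq, if_pos hp, if_neg hq]
  · by_cases hq : m q = q
    · rw [if_neg hp, if_pos hq, if_neg hp, if_pos hq]
    · by_cases hpq : m p = q
      · rw [if_neg hp, if_neg hq, if_pos hpq, if_neg hp, if_neg hq, if_pos hpq]
      · rw [if_neg hp, if_neg hq, if_neg hpq, if_neg hp, if_neg hq, if_neg hpq]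
        refine h _ ⟨?_, ?_⟩
        · rw [m.cp_apply _ _ _ hp hq, if_pos rfl]
        · rw [m.cp_apply _ _ _ hp hq]
          by_cases h1 : q = p
          · rw [if_pos h1, h1]
          · rw [if_neg h1, if_pos rfl]

end Phi

section Emb

variable {ι : Type*} [DecidableEq ι] [Fintype ι]

/-- the transfer matrix of `BEX` in the present notation -/
theorem Tt_TK (l : List ι) (v : ℂ) (U : ι → ℂ) (F : St ι → ℂ) (m : St ι) :
    Tt l v U F m = TK lb ax ax' l v U (fun n => F (res n)) (ext0 m) := rfl

/-- the first embedding -/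
def em1 : Option (Option ι) → ι ⊕ Fin 4
  | none => Sum.inr 0
  | some none => Sum.inr 1
  | some (some i) => Sum.inl i

/-- the second embedding -/
def em2 : Option (Option ι) → ι ⊕ Fin 4
  | none => Sum.inr 2
  | some none => Sum.inr 3
  | some (some i) => Sum.inl i

omit [DecidableEq ι] [Fintype ι] in
theorem em1_inj : Function.Injective (em1 : Option (Option ι) → ι ⊕ Fin 4) := by
  intro x y h
  rcases x with _ | _ | x <;> rcases y with _ | _ | y <;> simp [em1] at h ⊢
  exact h

omit [DecidableEq ι] [Fintype ι] in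
theorem em2_inj : Function.Injective (em2 : Option (Option ι) → ι ⊕ Fin 4) := by
  intro x y h
  rcases x with _ | _ | x <;> rcases y with _ | _ | y <;> simp [em2] at h ⊢
  exact h

/-- the state `m` with four empty additional labels -/
noncomputable def e4 (m : St ι) : St (ι ⊕ Fin 4) := Phi Sum.inl Sum.inl_injective St.emp (stab_emp _) m

omit [DecidableEq ι] [Fintype ι] in
theorem e4_inl (m : St ι) (i : ι) : e4 m (Sum.inl i) = Sum.inl (m i) := Phi_apply _ _ m i

omit [DecidableEq ι] [Fintype ι] in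
theorem e4_inr (m : St ι) (k : Fin 4) : e4 m (Sum.inr k) = Sum.inr k := by
  unfold e4
  rw [Phi_out]
  · rfl
  · rintro ⟨a, ha⟩
    simp at ha

omit [DecidableEq ι] [Fintype ι] in
theorem e4_inj : Function.Injective (e4 : St ι → St (ι ⊕ Fin 4)) := by
  intro m n h
  refine St.ext' fun i => ?_
  have h1 := e4_inl m i
  rw [h, e4_inl] at h1
  exact (Sum.inl_injective h1).symm

omit [DecidableEq ι] [Fintype ι] in
theorem Phi_em1 (m : St ι) : Phi em1 em1_inj St.emp (stab_emp _) (ext0 m) = e4 m := by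
  refine St.ext' fun x => ?_
  rcases x with i | k
  · have h := Phi_apply em1_inj (stab_emp em1) (ext0 m) (lb i)
    rw [ext0_lb] at h
    exact h.trans (e4_inl m i).symm
  · rw [e4_inr]
    fin_cases k
    · exact Phi_apply em1_inj (stab_emp em1) (ext0 m) ax
    · exact Phi_apply em1_inj (stab_emp em1) (ext0 m) ax'
    · rw [Phi_out]
      · rfl
      · rintro ⟨a, ha⟩
        rcases a with _ | _ | a <;> simp [em1] at ha
    · rw [Phi_out]
      · rfl
      · rintro ⟨a, ha⟩
        rcases a with _ | _ | a <;> simp [em1] at ha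

omit [DecidableEq ι] [Fintype ι] in
theorem Phi_em2 (m : St ι) : Phi em2 em2_inj St.emp (stab_emp _) (ext0 m) = e4 m := by
  refine St.ext' fun x => ?_
  rcases x with i | k
  · have h := Phi_apply em2_inj (stab_emp em2) (ext0 m) (lb i)
    rw [ext0_lb] at h
    exact h.trans (e4_inl m i).symm
  · rw [e4_inr]
    fin_cases k
    · rw [Phi_out]
      · rfl
      · rintro ⟨a, ha⟩
        rcases a with _ | _ | a <;> simp [em2] at ha
    · rw [Phi_out]
      · rfl
      · rintro ⟨a, ha⟩
        rcases a with _ | _ | a <;> simp [em2] at ha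
    · exact Phi_apply em2_inj (stab_emp em2) (ext0 m) ax
    · exact Phi_apply em2_inj (stab_emp em2) (ext0 m) ax'

theorem TK_e4 {f : Option (Option ι) → ι ⊕ Fin 4} (hf : Function.Injective f)
    (h : ∀ m : St ι, Phi f hf St.emp (stab_emp _) (ext0 m) = e4 m) (hs : f ∘ lb = Sum.inl) (l : List ι) (v : ℂ)
    (U : ι → ℂ) (G : St (ι ⊕ Fin 4) → ℂ) (m : St ι) :
    TK Sum.inl (f ax) (f ax') l v U G (e4 m) = Tt l v U (fun n => G (e4 n)) m := by
  rw [← h, ← hs, TK_Phi hf, Tt_TK]
  unfold TK
  congr 2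
  refine capK_congr fun n hn => ?_
  have h1 := ext0_res n hn.1 hn.2
  show G (Phi f hf St.emp (stab_emp _) n) = G (e4 (res n))
  rw [← h, h1]

end Emb

end Pool.Agent.CYL.Com
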