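import Pool.Agent.CYL.A.ComDef

/-!
# CYL, part A, commutation: the cup commutes with operators on other lines; operators see only states with `p`, `q` empty

PROOFS.
* `Rt_em`: `Rt a b x G m` is a combination of the values of `G` at `m`, `m.jn a b`, `m.sw a b`, `m.cp a b`, `(m.cp a b).jn a b`, and all of these have the lines `p`, `q ∉ {a, b}` empty if `m` has.  `capK_em` the same with `m`, `m.cp a b`;
  `cupK_em` with `m`, `m.jn a b`.
* `cupK_Rt`: `m` has `p`, `q` empty; `a, b ∉ {p, q}`: `(m.jn p q) a = m a`, `(m.jn p q).sw a b = (m.sw a b).jn p q`, the same for `jn`, `cp` (`St.sw_jn`, `jn_jn`, `St.jn_cp` of `BEX/ACapRt`, `BEX/AFar`), so all the branches agree (as in `cupF_Rt`).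
* `cupK_comm`: `(m.jn p q).jn r s = (m.jn r s).jn p q` (`jn_jn`).
-/

namespace Pool.Agent.CYL.Com

open Complex Pool.Agent.BEX

variable {κ : Type*} [DecidableEq κ]

private theorem ComCup_jn_jn (m : St κ) {p q a b : κ} (hpa : p ≠ a) (hpb : p ≠ b) (hqa : q ≠ a)
    (hqb : q ≠ b) : (m.jn p q).jn a b = (m.jn a b).jn p q := by
  by_cases h : m p = p ∧ m q = q
  · by_cases h' : m a = a ∧ m b = b
    · exact Far.jn_jn hpa hpb hqa hqb h.1 h.2 h'.1 h'.2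
    · rw [m.jn_junk a b h', St.jn_junk]
      rw [m.jn_fix hpa hqa, m.jn_fix hpb hqb]
      exact h'
  · rw [m.jn_junk p q h, (m.jn a b).jn_junk p q]
    rw [m.jn_fix hpa.symm hpb.symm, m.jn_fix hqa.symm hqb.symm]
    exact h

private theorem ComCup_em_jn {m : St κ} {p q a b : κ} (hpa : p ≠ a) (hpb : p ≠ b) (hqa : q ≠ a)
    (hqb : q ≠ b) (hm : Em p q m) : Em p q (m.jn a b) := by
  refine ⟨?_, ?_⟩
  · rw [m.jn_fix hpa.symm hpb.symm]
    exact hm.1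
  · rw [m.jn_fix hqa.symm hqb.symm]
    exact hm.2

private theorem ComCup_em_sw {m : St κ} {p q a b : κ} (hpa : p ≠ a) (hpb : p ≠ b) (hqa : q ≠ a)
    (hqb : q ≠ b) (hm : Em p q m) : Em p q (m.sw a b) :=
  ⟨(m.sw_fix hpa.symm hpb.symm hpa.symm hpb.symm).2 hm.1,
    (m.sw_fix hqa.symm hqb.symm hqa.symm hqb.symm).2 hm.2⟩

private theorem ComCup_em_cp {m : St κ} {p q a b : κ} (hpa : p ≠ a) (hpb : p ≠ b) (hqa : q ≠ a)
    (hqb : q ≠ b) (hab : a ≠ b) (hm : Em p q m) : Em p q (m.cp a b) :=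
  ⟨(m.cp_fix hab hpa.symm hpb.symm).2 hm.1, (m.cp_fix hab hqa.symm hqb.symm).2 hm.2⟩

theorem Rt_em {p q a b : κ} (hpa : p ≠ a) (hpb : p ≠ b) (hqa : q ≠ a) (hqb : q ≠ b) (hab : a ≠ b) (x : ℂ) {G G' : St κ → ℂ}
    (h : ∀ m, Em p q m → G m = G' m) (m : St κ) (hm : Em p q m) : Rt a b x G m = Rt a b x G' m := by
  unfold Rt
  rw [h m hm, h _ (ComCup_em_jn hpa hpb hqa hqb hm), h _ (ComCup_em_sw hpa hpb hqa hqb hm),
    h _ (ComCup_em_cp hpa hpb hqa hqb hab hm),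
    h _ (ComCup_em_jn hpa hpb hqa hqb (ComCup_em_cp hpa hpb hqa hqb hab hm))]

theorem capK_em {p q a b : κ} (hpa : p ≠ a) (hpb : p ≠ b) (hqa : q ≠ a) (hqb : q ≠ b) (hab : a ≠ b) {G G' : St κ → ℂ}
    (h : ∀ m, Em p q m → G m = G' m) (m : St κ) (hm : Em p q m) : capK a b G m = capK a b G' m := by
  unfold capK
  rw [h m hm, h _ (ComCup_em_cp hpa hpb hqa hqb hab hm)]

theorem cupK_em {p q a b : κ} (hpa : p ≠ a) (hpb : p ≠ b) (hqa : q ≠ a) (hqb : q ≠ b) (hab : a ≠ b) {G G' : St κ → ℂ}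
    (h : ∀ m, Em p q m → G m = G' m) (m : St κ) (hm : Em p q m) : cupK a b G m = cupK a b G' m := by
  unfold cupK
  rw [h m hm, h _ (ComCup_em_jn hpa hpb hqa hqb hm)]

theorem cupK_Rt {p q a b : κ} (hpq : p ≠ q) (hpa : p ≠ a) (hpb : p ≠ b) (hqa : q ≠ a) (hqb : q ≠ b) (hab : a ≠ b) (x : ℂ)
    (G : St κ → ℂ) {m : St κ} (hm : Em p q m) : cupK p q (Rt a b x G) m = Rt a b x (cupK p q G) m := by
  have e1 : (m.jn p q) a = m a := m.jn_fix hpa hqa
  have e2 : (m.jn p q) b = m b := m.jn_fix hpb hqb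
  have e3 : (m.jn p q).jn a b = (m.jn a b).jn p q := ComCup_jn_jn m hpa hpb hqa hqb
  have e4 : (m.jn p q).sw a b = (m.sw a b).jn p q :=
    (m.sw_jn hpa.symm hqa.symm hpb.symm hqb.symm).symm
  have e5 : (m.jn p q).cp a b = (m.cp a b).jn p q := m.jn_cp hpa hpb hqa hqb hab
  have e6 : ((m.cp a b).jn p q).jn a b = ((m.cp a b).jn a b).jn p q :=
    ComCup_jn_jn _ hpa hpb hqa hqb
  unfold cupK Rt
  rw [e1, e2, e5, e6, e3, e4]
  split_ifs <;> ring

theorem cupK_comm {p q r s : κ} (hpq : p ≠ q) (hpr : p ≠ r) (hps : p ≠ s) (hqr : q ≠ r) (hqs : q ≠ s) (hrs : r ≠ s)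
    (G : St κ → ℂ) {m : St κ} (h1 : Em p q m) (h2 : Em r s m) : cupK p q (cupK r s G) m = cupK r s (cupK p q G) m := by
  unfold cupK
  rw [ComCup_jn_jn m hpr hps hqr hqs]
  ring

end Pool.Agent.CYL.Com
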