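import Pool.Agent.CYL.A.ComDef
import Pool.Agent.BEX.AProp

/-!
# CYL, part A, commutation: unitarity of the R-matrix

PROOF.  Unfold `Rt` and distinguish the states of `p`, `q` (all identities are trigonometric identities in `sin x`, `cos x`, `sin lam`, `cos lam` with the relations `AOm_rel` of `Pool/Agent/BEX/AProp.lean`; `kk (-x) = sin (2λ-x) sin (3λ-x)
= w8 x`, `w8 (-x) = kk x`, `w4 (-x) = - w4 x`):
* both empty: `kk x (kk (-x) F m + w4 (-x) F (jn)) + w4 x (w8 (-x) F (jn))`; in `m.jn p q` the lines are joined.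
* one empty: `w6 x w6 (-x) + w2 x w2 (-x) = kk x kk (-x)` (`sin² 2λ - sin² x = sin (2λ-x) sin (2λ+x)`) and `w6 x w2 (-x) + w2 x w6 (-x) = 0`; `(m.sw p q).sw p q = m`.
* joined: `w8 x w8 (-x)`.
* two arcs: with `m' = m.sw p q`, `e = (m.cp p q).jn p q`, `c = m.cp p q`: `m'.cp p q = c`, `c` has both lines empty with `c.jn p q = e`, `e` has `p`, `q` joined.  Coefficient of `F m`: `w8 x w8 (-x)`; of `F e`:
  `w8 x w9 (-x) + w9 x w8 (-x) + w4 x w4 (-x) = 0`; of `F c`: `w8 x w4 (-x) + w4 x kk (-x) = 0`; of `F m'`: none (`Rt (-x)` at `m'` gives `w8 (-x) F m`), the term `w9 x` acts on `e` and `w4 x` on `c`.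
-/

namespace Pool.Agent.CYL.Com

open Complex Pool.Agent.BEX

variable {κ : Type*} [DecidableEq κ]

private theorem ComUnit_rel (x : ℂ) : ∃ a b h c s : ℂ, cos lam = b ∧ sin lam = a ∧ sin (2 * lam) = h ∧
    cos (2 * lam) = h ∧ cos x = c ∧ sin x = s ∧ h ^ 2 = 1 / 2 ∧ 2 * a * b = h ∧ b ^ 2 - a ^ 2 = h ∧
    s ^ 2 + c ^ 2 = 1 := by
  refine ⟨_, _, _, _, _, rfl, rfl, rfl, ?_, rfl, rfl, ?_, ?_, ?_, sin_sq_add_cos_sq x⟩
  · rw [sin_2lam, cos_2lam]
  · rw [sin_2lam, ← ofReal_pow, div_pow, Real.sq_sqrt (by norm_num)]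
    push_cast
    norm_num
  · rw [sin_two_mul]
  · rw [sin_2lam, ← cos_2lam, cos_two_mul]
    linear_combination (-1 : ℂ) * sin_sq_add_cos_sq lam

private theorem ComUnit_8k (x : ℂ) : w8 (-x) = kk x := by
  unfold w8 kk
  rw [sub_neg_eq_add, sub_neg_eq_add]

private theorem ComUnit_k8 (x : ℂ) : kk (-x) = w8 x := by
  unfold w8 kk
  rw [← sub_eq_add_neg, ← sub_eq_add_neg]

private theorem ComUnit_4 (x : ℂ) : w4 (-x) = - w4 x := by
  unfold w4
  rw [sin_neg, mul_neg]

private theorem ComUnit_id1 (x : ℂ) : w6 x * w6 (-x) + w2 x * w2 (-x) = kk x * kk (-x) := by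
  obtain ⟨a, b, h, c, s, hb, ha, hh, hh', hc, hs, r1, r2, r3, r5⟩ := ComUnit_rel x
  unfold w6 w2 kk
  rw [← sub_eq_add_neg, ← sub_eq_add_neg, sub_neg_eq_add, sin_neg, sin_add, sin_add, sin_sub, sin_sub,
    sin_3lam, cos_3lam, hb, ha, hh, hh', hc, hs]
  linear_combination (b * c - a * s) * (b * c + a * s) * (2 * s ^ 2 * r1 - h ^ 2 * r5)

private theorem ComUnit_id2 (x : ℂ) : w6 x * w2 (-x) + w2 x * w6 (-x) = 0 := by
  unfold w6 w2
  rw [sub_neg_eq_add, sin_neg]
  ring

private theorem ComUnit_id3 (x : ℂ) : w8 x * w9 (-x) + w9 x * w8 (-x) + w4 x * w4 (-x) = 0 := by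
  obtain ⟨a, b, h, c, s, hb, ha, hh, hh', hc, hs, r1, r2, r3, r5⟩ := ComUnit_rel x
  unfold w8 w9 w4
  rw [sub_neg_eq_add, sub_neg_eq_add, sub_neg_eq_add, sin_neg, sin_add, sin_add, sin_add, sin_sub, sin_sub,
    sin_sub, sin_3lam, cos_3lam, hb, ha, hh, hh', hc, hs]
  linear_combination (-h * s ^ 2 * (c ^ 2 - s ^ 2)) * r2 + (2 * h * c ^ 2 * s ^ 2) * r3 + (s ^ 2 * h ^ 2) * r5

private theorem ComUnit_swsw (p q : κ) (m : St κ) : (m.sw p q).sw p q = m := by
  refine St.ext' fun i => ?_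
  rw [BEX.sw_apply, BEX.sw_apply, Equiv.swap_apply_self, Equiv.swap_apply_self]

private theorem ComUnit_swcp {p q : κ} (hpq : p ≠ q) {m : St κ} (hp : m p ≠ p) (hq : m q ≠ q) :
    (m.sw p q).cp p q = m.cp p q := by
  by_cases h3 : m p = q
  · have h4 : m.sw p q = m := by
      have h5 : m q = p := by rw [← h3]; simp
      refine St.ext' fun i => ?_
      rw [BEX.sw_apply]
      by_cases h1 : i = p
      · rw [h1, Equiv.swap_apply_left, h5, Equiv.swap_apply_left, h3]
      · by_cases h2 : i = q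
        · rw [h2, Equiv.swap_apply_right, h3, Equiv.swap_apply_right, h5]
        · rw [Equiv.swap_apply_of_ne_of_ne h1 h2, Equiv.swap_apply_of_ne_of_ne]
          · intro h
            exact h2 (m.inj (h.trans h5.symm))
          · intro h
            exact h1 (m.inj (h.trans h3.symm))
    rw [h4]
  have h5 : m q ≠ p := fun h => h3 (by rw [← h]; simp)
  have e1 : m.sw p q p = m q := by
    rw [BEX.sw_apply, Equiv.swap_apply_left, Equiv.swap_apply_of_ne_of_ne h5 hq]
  have e2 : m.sw p q q = m p := by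
    rw [BEX.sw_apply, Equiv.swap_apply_right, Equiv.swap_apply_of_ne_of_ne hp h3]
  have f1 : m.sw p q p ≠ p := by rw [e1]; exact h5
  have f2 : m.sw p q q ≠ q := by rw [e2]; exact h3
  refine St.ext' fun i => ?_
  rw [BEX.cp_apply f1 f2, BEX.cp_apply hp hq, e1, e2]
  by_cases h1 : i = p
  · rw [if_pos h1, if_pos h1]
  by_cases h2 : i = q
  · rw [if_neg h1, if_neg h1, if_pos h2, if_pos h2]
  rw [if_neg h1, if_neg h1, if_neg h2, if_neg h2]
  by_cases h6 : i = m p
  · by_cases h7 : i = m q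
    · exact absurd (m.inj (h6.symm.trans h7)) hpq
    · rw [if_neg h7, if_pos h6, if_pos h6]
  · by_cases h7 : i = m q
    · rw [if_pos h7, if_neg h6, if_pos h7]
    · rw [if_neg h7, if_neg h6, if_neg h6, if_neg h7, BEX.sw_apply, Equiv.swap_apply_of_ne_of_ne h1 h2,
        Equiv.swap_apply_of_ne_of_ne]
      · intro h
        exact h6 (by rw [← h]; simp)
      · intro h
        exact h7 (by rw [← h]; simp)

theorem Rt_unit {p q : κ} (hpq : p ≠ q) (x : ℂ) (F : St κ → ℂ) (m : St κ) :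
    Rt p q x (Rt p q (-x) F) m = kk x * kk (-x) * F m := by
  have em : ∀ (y : ℂ) (G : St κ → ℂ) (n : St κ), n p = p → n q = q →
      Rt p q y G n = kk y * G n + w4 y * G (n.jn p q) := by
    intro y G n h1 h2
    unfold Rt
    rw [if_pos h1, if_pos h2]
  have half : ∀ (y : ℂ) (G : St κ → ℂ) (n : St κ), ¬ (n p = p ↔ n q = q) →
      Rt p q y G n = w6 y * G n + w2 y * G (n.sw p q) := by
    intro y G n h
    unfold Rt
    by_cases h1 : n p = p
    · rw [if_pos h1, if_neg (fun h2 => h ⟨fun _ => h2, fun _ => h1⟩)]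
    · rw [if_neg h1, if_pos]
      by_contra h2
      exact h ⟨fun h3 => absurd h3 h1, fun h3 => absurd h3 h2⟩
  have jo : ∀ (y : ℂ) (G : St κ → ℂ) (n : St κ), n p = q →
      Rt p q y G n = w8 y * G n := by
    intro y G n h
    have h1 : n p ≠ p := by rw [h]; exact hpq.symm
    have h2 : n q ≠ q := by
      intro h3
      exact hpq (n.inj (h.trans h3.symm))
    unfold Rt
    rw [if_neg h1, if_neg h2, if_pos h]
  have tw : ∀ (y : ℂ) (G : St κ → ℂ) (n : St κ), n p ≠ p → n q ≠ q → n p ≠ q →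
      Rt p q y G n = w8 y * G (n.sw p q) + w9 y * G ((n.cp p q).jn p q) + w4 y * G (n.cp p q) := by
    intro y G n h1 h2 h3
    unfold Rt
    rw [if_neg h1, if_neg h2, if_neg h3]
  by_cases hh : m p = p ↔ m q = q
  · by_cases h1 : m p = p
    · have h2 := hh.1 h1
      have h3 : m.jn p q p = q := by rw [BEX.jn_apply h1 h2, if_pos rfl]
      rw [em x _ m h1 h2, em (-x) F m h1 h2, jo (-x) F _ h3, ComUnit_8k, ComUnit_4]
      ring
    · have h2 : m q ≠ q := fun h => h1 (hh.2 h)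
      by_cases h3 : m p = q
      · rw [jo x _ m h3, jo (-x) F m h3, ComUnit_8k, ComUnit_k8]
        ring
      · have h4 : m q ≠ p := fun h => h3 (by rw [← h]; simp)
        have e1 : m.sw p q p = m q := by
          rw [BEX.sw_apply, Equiv.swap_apply_left, Equiv.swap_apply_of_ne_of_ne h4 h2]
        have e2 : m.sw p q q = m p := by
          rw [BEX.sw_apply, Equiv.swap_apply_right, Equiv.swap_apply_of_ne_of_ne h1 h3]
        have c1 : m.cp p q p = p := cp_left h1 h2
        have c2 : m.cp p q q = q := cp_right h1 h2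
        have j1 : (m.cp p q).jn p q p = q := by rw [BEX.jn_apply c1 c2, if_pos rfl]
        rw [tw x _ m h1 h2 h3, tw (-x) F (m.sw p q) (by rw [e1]; exact h4) (by rw [e2]; exact h3)
          (by rw [e1]; exact h2), jo (-x) F _ j1, em (-x) F _ c1 c2, ComUnit_swsw,
          ComUnit_swcp hpq h1 h2, ComUnit_k8]
        have i3 := ComUnit_id3 x
        rw [ComUnit_8k, ComUnit_4] at *
        linear_combination F ((m.cp p q).jn p q) * i3
  · have h5 : ¬ (m.sw p q p = p ↔ m.sw p q q = q) := by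
      rw [sw_left, sw_right]
      exact fun h => hh h.symm
    rw [half x _ m hh, half (-x) F m hh, half (-x) F _ h5, ComUnit_swsw]
    linear_combination F m * ComUnit_id1 x + F (m.sw p q) * ComUnit_id2 x

end Pool.Agent.CYL.Com
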