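import Pool.Agent.CYL.A.ComCap
import Pool.Agent.CYL.A.ComUnit
import Pool.Agent.CYL.A.ComCup

/-!
# CYL, part A, commutation: the double row
-/

namespace Pool.Agent.CYL.Com

open Complex Pool.Agent.BEX

variable {κ : Type*} [DecidableEq κ] {ι : Type*}

theorem cap_cross1 {p q j : κ} (hpq : p ≠ q) (hpj : p ≠ j) (hqj : q ≠ j) (G : St κ → ℂ) (x : ℂ) :
    Rt p j x (capK p q G) = Rt q j (3 * lam - x) (capK p q G) := by
  refine cross_cap hpq hpj hqj _ ?_ ?_ ?_ x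
  · intro M h1 h2
    unfold capK
    by_cases hp : M p = p
    · rw [if_pos hp, if_neg fun hq => h2 ⟨hp, hq⟩]
    · rw [if_neg hp, if_pos (h1.resolve_left hp)]
  · intro M h
    unfold capK
    have h1 : M p ≠ p := by rw [h]; exact hpq.symm
    have h2 : M q ≠ q := by
      have : M q = p := by rw [← h]; simp
      rw [this]
      exact hpq
    rw [if_neg h1, if_neg h2, if_pos h]
  · intro M h1 h2 h3
    unfold capK
    rw [if_neg h1, if_neg h2, if_neg h3]
    have e1 : (M.cp p q) p = p := by rw [M.cp_apply _ _ _ h1 h2, if_pos rfl]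
    have e2 : (M.cp p q) q = q := by rw [M.cp_apply _ _ _ h1 h2, if_neg hpq.symm, if_pos rfl]
    rw [if_pos e1, if_pos e2]

theorem cap_cross {p q r t : κ} (hpq : p ≠ q) (hpr : p ≠ r) (hpt : p ≠ t) (hqr : q ≠ r) (hqt : q ≠ t) (hrt : r ≠ t)
    (y : ℂ) (G : St κ → ℂ) :
    Rt p r y (capK p q (capK r t G)) = Rt q t y (capK p q (capK r t G)) := by
  rw [cap_cross1 hpq hpr hqr, Far.Rt_comm' q r, capK_comm hpq hpr hpt hqr hqt hrt, cap_cross1 hrt hqr.symm hqt.symm,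
    Far.Rt_comm' t q, sub_sub_cancel]

theorem cup_cross1 {p q j : κ} (hpq : p ≠ q) (hpj : p ≠ j) (hqj : q ≠ j) (G : St κ → ℂ) {m : St κ}
    (hm : Em p q m) (x : ℂ) : cupK p q (Rt p j x G) m = cupK p q (Rt q j (3 * lam - x) G) m :=
  cross_cup hpq hpj hqj G m hm.1 hm.2 x

theorem Em_jn {p q r t : κ} (hpr : p ≠ r) (hpt : p ≠ t) (hqr : q ≠ r) (hqt : q ≠ t) {m : St κ} (hm : Em p q m) :
    Em p q (m.jn r t) :=
  ⟨(St.jn_fix m hpr.symm hpt.symm).trans hm.1, (St.jn_fix m hqr.symm hqt.symm).trans hm.2⟩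

theorem cup_cross {p q r t : κ} (hpq : p ≠ q) (hpr : p ≠ r) (hpt : p ≠ t) (hqr : q ≠ r) (hqt : q ≠ t) (hrt : r ≠ t)
    (y : ℂ) (K : St κ → ℂ) {m : St κ} (h1 : Em p q m) (h2 : Em r t m) :
    cupK p q (cupK r t (Rt p r y K)) m = cupK p q (cupK r t (Rt q t y K)) m := by
  have e1 : cupK r t (cupK p q (Rt p r y K)) m = cupK r t (cupK p q (Rt q r (3 * lam - y) K)) m := by
    show cupK p q (Rt p r y K) m + cupK p q (Rt p r y K) (m.jn r t) = _
    rw [cup_cross1 hpq hpr hqr K h1, cup_cross1 hpq hpr hqr K (Em_jn hpr hpt hqr hqt h1)]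
    rfl
  have e2 : cupK p q (cupK r t (Rt r q (3 * lam - y) K)) m = cupK p q (cupK r t (Rt t q y K)) m := by
    show cupK r t (Rt r q (3 * lam - y) K) m + cupK r t (Rt r q (3 * lam - y) K) (m.jn p q) = _
    rw [cup_cross1 hrt hqr.symm hqt.symm K h2,
      cup_cross1 hrt hqr.symm hqt.symm K (Em_jn hpr.symm hqr.symm hpt.symm hqt.symm h2), sub_sub_cancel]
    rfl
  rw [cupK_comm hpq hpr hpt hqr hqt hrt _ h1 h2, e1,
    ← cupK_comm hpq hpr hpt hqr hqt hrt _ h1 h2, Far.Rt_comm' q r, e2, Far.Rt_comm' t q]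

/-- the lines `a`, `b` are not touched by the crossings -/
theorem FoK_far {s : ι → κ} {p a b : κ} (l : List ι) (hp : ∀ i ∈ l, p ≠ s i) (hap : p ≠ a) (hbp : p ≠ b)
    (ha : ∀ i ∈ l, a ≠ s i) (hb : ∀ i ∈ l, b ≠ s i) (hab : a ≠ b) (v : ℂ) (U : ι → ℂ) (x : ℂ) (G : St κ → ℂ) :
    FoK s p l v U (Rt a b x G) = Rt a b x (FoK s p l v U G) := by
  induction l with
  | nil => rfl
  | cons i l ih =>
    have hi : i ∈ i :: l := List.mem_cons_self
    rw [FoK_cons, FoK_cons, ih (fun j hj => hp j (List.mem_cons_of_mem i hj))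
      (fun j hj => ha j (List.mem_cons_of_mem i hj)) fun j hj => hb j (List.mem_cons_of_mem i hj)]
    exact rt_far (hp i hi) hap hbp (ha i hi).symm (hb i hi).symm hab _ _ _

theorem DK_ybe {s : ι → κ} (hs : Function.Injective s) {p r : κ} (hpr : p ≠ r) (hp : ∀ i, p ≠ s i) (hr : ∀ i, r ≠ s i)
    (l : List ι) (hl : l.Nodup) (v v' : ℂ) (U : ι → ℂ) (G : St κ → ℂ) :
    Rt p r (v - v') (FoK s p l v U (FoK s r l v' U G)) = FoK s r l v' U (FoK s p l v U (Rt p r (v - v') G)) := by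
  induction l with
  | nil => rfl
  | cons i l ih =>
    rw [List.nodup_cons] at hl
    have hi : ∀ j ∈ l, s i ≠ s j := fun j hj h => hl.1 (hs h ▸ hj)
    rw [FoK_cons, FoK_cons, FoK_cons, FoK_cons,
      FoK_far l (fun j _ => hp j) hpr (hp i) (fun j _ => hr j) hi (hr i),
      FoK_far l (fun j _ => hr j) hpr.symm (hr i) (fun j _ => hp j) hi (hp i)]
    have h := rt_ybe hpr (hp i) (hr i) (v - v') (v' - U i) (FoK s p l v U (FoK s r l v' U G))
    rw [sub_add_sub_cancel] at h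
    rw [h, ih hl.2]

theorem FoK_em {s : ι → κ} {p a b : κ} (l : List ι) (hp : ∀ i ∈ l, p ≠ s i) (hap : a ≠ p) (hbp : b ≠ p)
    (ha : ∀ i ∈ l, a ≠ s i) (hb : ∀ i ∈ l, b ≠ s i) (v : ℂ) (U : ι → ℂ) {G G' : St κ → ℂ}
    (h : ∀ m, Em a b m → G m = G' m) : ∀ m, Em a b m → FoK s p l v U G m = FoK s p l v U G' m := by
  induction l with
  | nil => exact h
  | cons i l ih =>
    have hi : i ∈ i :: l := List.mem_cons_self
    intro m hm
    rw [FoK_cons, FoK_cons]
    exact Rt_em hap (ha i hi) hbp (hb i hi) (hp i hi) _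
      (ih (fun j hj => hp j (List.mem_cons_of_mem i hj))
      (fun j hj => ha j (List.mem_cons_of_mem i hj)) fun j hj => hb j (List.mem_cons_of_mem i hj)) m hm

theorem FoK_cap {s : ι → κ} {p a b : κ} (l : List ι) (hp : ∀ i ∈ l, p ≠ s i) (hap : a ≠ p) (hbp : b ≠ p)
    (ha : ∀ i ∈ l, a ≠ s i) (hb : ∀ i ∈ l, b ≠ s i) (hab : a ≠ b) (v : ℂ) (U : ι → ℂ) (G : St κ → ℂ) :
    capK a b (FoK s p l v U G) = FoK s p l v U (capK a b G) := by
  induction l with
  | nil => rfl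
  | cons i l ih =>
    have hi : i ∈ i :: l := List.mem_cons_self
    rw [FoK_cons, FoK_cons, ← ih (fun j hj => hp j (List.mem_cons_of_mem i hj))
      (fun j hj => ha j (List.mem_cons_of_mem i hj)) fun j hj => hb j (List.mem_cons_of_mem i hj)]
    exact capK_Rt hab hap (ha i hi) hbp (hb i hi) (hp i hi) _ _

theorem FoK_cup {s : ι → κ} {p a b : κ} (l : List ι) (hp : ∀ i ∈ l, p ≠ s i) (hap : a ≠ p) (hbp : b ≠ p)
    (ha : ∀ i ∈ l, a ≠ s i) (hb : ∀ i ∈ l, b ≠ s i) (hab : a ≠ b) (v : ℂ) (U : ι → ℂ) (G : St κ → ℂ) :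
    ∀ m, Em a b m → FoK s p l v U (cupK a b G) m = cupK a b (FoK s p l v U G) m := by
  induction l with
  | nil => exact fun m _ => rfl
  | cons i l ih =>
    have hi : i ∈ i :: l := List.mem_cons_self
    intro m hm
    rw [FoK_cons, FoK_cons, cupK_Rt hab hap (ha i hi) hbp (hb i hi) (hp i hi) _ _ hm]
    exact Rt_em hap (ha i hi) hbp (hb i hi) (hp i hi) _
      (ih (fun j hj => hp j (List.mem_cons_of_mem i hj))
      (fun j hj => ha j (List.mem_cons_of_mem i hj)) fun j hj => hb j (List.mem_cons_of_mem i hj)) m hm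

/-- four different auxiliary ends, different from the lines `s i` -/
structure Aux (s : ι → κ) (p q r t : κ) : Prop where
  inj : Function.Injective s
  pq : p ≠ q
  pr : p ≠ r
  pt : p ≠ t
  qr : q ≠ r
  qt : q ≠ t
  rt : r ≠ t
  p' : ∀ i, p ≠ s i
  q' : ∀ i, q ≠ s i
  r' : ∀ i, r ≠ s i
  t' : ∀ i, t ≠ s i

theorem Aux.symm {s : ι → κ} {p q r t : κ} (h : Aux s p q r t) : Aux s r t p q :=
  ⟨h.inj, h.rt, h.pr.symm, h.qr.symm, h.pt.symm, h.qt.symm, h.pq, h.r', h.t', h.p', h.q'⟩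

theorem TK_TK {s : ι → κ} {p q r t : κ} (h : Aux s p q r t) (l : List ι) (v v' : ℂ) (U : ι → ℂ) (G : St κ → ℂ)
    {m : St κ} (h2 : Em r t m) :
    TK s p q l v U (TK s r t l v' U G) m =
      cupK p q (cupK r t (FoK s p l v U (FoK s r l v' U (capK p q (capK r t G))))) m := by
  have h3 := h.pr.symm
  have h4 := h.pt.symm
  have h5 := h.qr.symm
  have h6 := h.qt.symm
  unfold TK
  refine cupK_em h3 h5 h4 h6 h.pq (fun n hn => ?_) m h2
  rw [FoK_em l (fun i _ => h.p' i) h3 h4 (fun i _ => h.r' i) (fun i _ => h.t' i) v U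
    (fun n hn => (cupK_capK h.pq h.pr h.pt h.qr h.qt h.rt _ hn).symm) n hn,
    FoK_cup l (fun i _ => h.p' i) h3 h4 (fun i _ => h.r' i) (fun i _ => h.t' i) h.rt v U _ n hn,
    FoK_cap l (fun i _ => h.r' i) h.pr h.qr (fun i _ => h.p' i) (fun i _ => h.q' i) h.pq]

theorem cupK_mul (p q : κ) (c : ℂ) (G : St κ → ℂ) : cupK p q (fun m => c * G m) = fun m => c * cupK p q G m := by
  funext m
  unfold cupK
  ring

/-- commutation on one label type, up to a factor -/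
theorem TK_comm {s : ι → κ} {p q r t : κ} (h : Aux s p q r t) (l : List ι) (hl : l.Nodup) (v v' : ℂ) (U : ι → ℂ)
    (G : St κ → ℂ) {m : St κ} (h1 : Em p q m) (h2 : Em r t m) :
    kk (v - v') * kk (v' - v) * TK s p q l v U (TK s r t l v' U G) m =
      kk (v - v') * kk (v' - v) * TK s r t l v' U (TK s p q l v U G) m := by
  rw [TK_TK h l v v' U G h2, TK_TK h.symm l v' v U G h1, capK_comm h.rt h.pr.symm h.qr.symm h.pt.symm h.qt.symm h.pq,
    ← cupK_comm h.pq h.pr h.pt h.qr h.qt h.rt _ h1 h2]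
  set C := capK p q (capK r t G) with hC
  set x := v - v' with hx
  have hx' : v' - v = -x := by rw [hx]; ring
  rw [hx']
  have u1 : ∀ K : St κ → ℂ, (fun n => kk x * kk (-x) * K n) = Rt p r x (Rt p r (-x) K) := fun K =>
    (funext fun n => Rt_unit h.pr x K n).symm
  have u2 : ∀ K : St κ → ℂ, (fun n => kk x * kk (-x) * K n) = Rt p r (-x) (Rt p r x K) := fun K => by
    funext n
    have := Rt_unit h.pr (-x) K n
    rw [neg_neg] at this
    rw [this]
    ring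
  have c1 : ∀ K : St κ → ℂ, kk x * kk (-x) * cupK p q (cupK r t K) m =
      cupK p q (cupK r t (fun n => kk x * kk (-x) * K n)) m := fun K => by
    rw [cupK_mul, cupK_mul]
  rw [c1, c1, u2]
  rw [hx, DK_ybe h.inj h.pr h.p' h.r' l hl, ← hx, hC, cap_cross h.pq h.pr h.pt h.qr h.qt h.rt, ← hC]
  rw [FoK_far l (fun i _ => h.p' i) h.pq h.pt (fun i _ => h.q' i) (fun i _ => h.t' i) h.qt,
    FoK_far l (fun i _ => h.r' i) h.qr.symm h.rt (fun i _ => h.q' i) (fun i _ => h.t' i) h.qt,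
    rt_far h.pr h.pq h.pt h.qr.symm h.rt h.qt, ← cup_cross h.pq h.pr h.pt h.qr h.qt h.rt _ _ h1 h2, ← u1]

end Pool.Agent.CYL.Com
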