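import Pool.Agent.CYL.A.RS

/-!
# CYL, part A: the local trigonometric identities (note 3178)

`X = r + 2λ`, `α = sin (λ + r)` on the left, `X' = r + λ`, `α' = sin (λ - r)` on the right.
All checked numerically. (Compare the private relations `AOm_rel` in BEX/AProp.)
-/

namespace Pool.Agent.CYL

open Pool.Agent.BEX Complex

set_option linter.unusedSimpArgs false

/-! ### values -/

private theorem Trig_c2 : cos (2 * lam) = sin (2 * lam) := by rw [sin_2lam, cos_2lam]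

private theorem Trig_e1 : sin (2 * lam) ^ 2 = 1 / 2 := by
  rw [sin_2lam, ← ofReal_pow, div_pow, Real.sq_sqrt (by norm_num)]
  push_cast
  norm_num

private theorem Trig_e2 : cos lam ^ 2 = (1 + sin (2 * lam)) / 2 := by
  rw [← Trig_c2, cos_two_mul]
  ring

private theorem Trig_e3 : sin lam ^ 2 = (1 - sin (2 * lam)) / 2 := by
  have h := sin_sq_add_cos_sq lam
  rw [Trig_e2] at h
  linear_combination h

private theorem Trig_e4 : sin lam * cos lam = sin (2 * lam) / 2 := by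
  rw [sin_two_mul]
  ring

private theorem Trig_e5 : sin (2 * lam) * cos lam = (cos lam + sin lam) / 2 := by
  have h1 : sin (2 * lam) * cos lam = sin lam * (2 * cos lam ^ 2) := by
    rw [sin_two_mul]
    ring
  have h2 : sin (2 * lam) * sin lam = cos lam * (2 * sin lam ^ 2) := by
    rw [sin_two_mul]
    ring
  rw [Trig_e2] at h1
  rw [Trig_e3] at h2
  linear_combination (1 / 2 : ℂ) * h1 + (1 / 2 : ℂ) * h2

private theorem Trig_e6 : sin (2 * lam) * sin lam = (cos lam - sin lam) / 2 := by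
  have h1 : sin (2 * lam) * cos lam = sin lam * (2 * cos lam ^ 2) := by
    rw [sin_two_mul]
    ring
  have h2 : sin (2 * lam) * sin lam = cos lam * (2 * sin lam ^ 2) := by
    rw [sin_two_mul]
    ring
  rw [Trig_e2] at h1
  rw [Trig_e3] at h2
  linear_combination (1 / 2 : ℂ) * h2 - (1 / 2 : ℂ) * h1

private theorem Trig_s4 : sin (4 * lam) = 1 := by
  rw [show (4 : ℂ) * lam = (Real.pi : ℂ) / 2 by unfold lam; ring]
  exact sin_pi_div_two

private theorem Trig_c4 : cos (4 * lam) = 0 := by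
  rw [show (4 : ℂ) * lam = (Real.pi : ℂ) / 2 by unfold lam; ring]
  exact cos_pi_div_two

private theorem Trig_a (r : ℂ) : sin (lam + r) = sin lam * cos r + cos lam * sin r := sin_add _ _

private theorem Trig_b (r : ℂ) : sin (lam - r) = sin lam * cos r - cos lam * sin r := sin_sub _ _

private theorem Trig_p2 (r : ℂ) : sin (2 * lam + r) = sin (2 * lam) * cos r + sin (2 * lam) * sin r := by
  rw [sin_add, Trig_c2]

private theorem Trig_m2 (r : ℂ) : sin (2 * lam - r) = sin (2 * lam) * cos r - sin (2 * lam) * sin r := by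
  rw [sin_sub, Trig_c2]

private theorem Trig_p3 (r : ℂ) : sin (3 * lam + r) = cos lam * cos r + sin lam * sin r := by
  rw [sin_add, sin_3lam, cos_3lam]

private theorem Trig_r3 (r : ℂ) : sin (r - 3 * lam) = sin r * sin lam - cos r * cos lam := by
  rw [sin_sub, sin_3lam, cos_3lam]

private theorem Trig_p4 (r : ℂ) : sin (4 * lam + r) = cos r := by
  rw [sin_add, Trig_s4, Trig_c4]
  ring

private theorem Trig_p5 (r : ℂ) : sin (5 * lam + r) = cos lam * cos r - sin lam * sin r := by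
  rw [show 5 * lam + r = 4 * lam + (lam + r) by ring, sin_add, Trig_s4, Trig_c4, cos_add]
  ring

private theorem Trig_kk2 (r : ℂ) : kk (r + 2 * lam) =
    cos r * (cos lam * cos r - sin lam * sin r) := by
  unfold kk
  rw [show 2 * lam + (r + 2 * lam) = 4 * lam + r by ring,
    show 3 * lam + (r + 2 * lam) = 5 * lam + r by ring, Trig_p4, Trig_p5]

private theorem Trig_kk1 (r : ℂ) : kk (r + lam) =
    (cos lam * cos r + sin lam * sin r) * cos r := by
  unfold kk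
  rw [show 2 * lam + (r + lam) = 3 * lam + r by ring,
    show 3 * lam + (r + lam) = 4 * lam + r by ring, Trig_p3, Trig_p4]

private theorem Trig_w22 (r : ℂ) : w2 (r + 2 * lam) =
    sin (2 * lam) * (sin lam * cos r - cos lam * sin r) := by
  unfold w2
  rw [show 3 * lam - (r + 2 * lam) = lam - r by ring, Trig_b]

private theorem Trig_w21 (r : ℂ) : w2 (r + lam) =
    sin (2 * lam) * (sin (2 * lam) * cos r - sin (2 * lam) * sin r) := by
  unfold w2
  rw [show 3 * lam - (r + lam) = 2 * lam - r by ring, Trig_m2]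

private theorem Trig_w42 (r : ℂ) : w4 (r + 2 * lam) =
    sin (2 * lam) * (sin (2 * lam) * cos r + sin (2 * lam) * sin r) := by
  unfold w4
  rw [show r + 2 * lam = 2 * lam + r by ring, Trig_p2]

private theorem Trig_w41 (r : ℂ) : w4 (r + lam) =
    sin (2 * lam) * (sin lam * cos r + cos lam * sin r) := by
  unfold w4
  rw [show r + lam = lam + r by ring, Trig_a]

private theorem Trig_w62 (r : ℂ) : w6 (r + 2 * lam) =
    (sin (2 * lam) * cos r + sin (2 * lam) * sin r) * (sin lam * cos r - cos lam * sin r) := by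
  unfold w6
  rw [show 3 * lam - (r + 2 * lam) = lam - r by ring, show r + 2 * lam = 2 * lam + r by ring,
    Trig_p2, Trig_b]

private theorem Trig_w61 (r : ℂ) : w6 (r + lam) =
    (sin lam * cos r + cos lam * sin r) * (sin (2 * lam) * cos r - sin (2 * lam) * sin r) := by
  unfold w6
  rw [show 3 * lam - (r + lam) = 2 * lam - r by ring, show r + lam = lam + r by ring,
    Trig_a, Trig_m2]

private theorem Trig_w82 (r : ℂ) : w8 (r + 2 * lam) =
    -sin r * (sin lam * cos r - cos lam * sin r) := by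
  unfold w8
  rw [show 3 * lam - (r + 2 * lam) = lam - r by ring, show 2 * lam - (r + 2 * lam) = -r by ring,
    sin_neg, Trig_b]

private theorem Trig_w81 (r : ℂ) : w8 (r + lam) =
    (sin lam * cos r - cos lam * sin r) * (sin (2 * lam) * cos r - sin (2 * lam) * sin r) := by
  unfold w8
  rw [show 3 * lam - (r + lam) = 2 * lam - r by ring, show 2 * lam - (r + lam) = lam - r by ring,
    Trig_b, Trig_m2]

private theorem Trig_w92 (r : ℂ) : w9 (r + 2 * lam) =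
    (sin (2 * lam) * cos r + sin (2 * lam) * sin r) * (sin lam * cos r + cos lam * sin r) := by
  unfold w9
  rw [show lam - (r + 2 * lam) = -(lam + r) by ring, show r + 2 * lam = 2 * lam + r by ring,
    sin_neg, Trig_p2, Trig_a]
  ring

private theorem Trig_w91 (r : ℂ) : w9 (r + lam) =
    (sin lam * cos r + cos lam * sin r) * sin r := by
  unfold w9
  rw [show lam - (r + lam) = -r by ring, show r + lam = lam + r by ring, sin_neg, Trig_a]
  ring

/-! ### intertwining -/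

theorem ti1 (r : ℂ) : sin (2 * lam - r) * (2 * cos lam * kk (r + 2 * lam) * sin (lam + r) + sin (2 * lam) * w2 (r + 2 * lam)) =
    sin (2 * lam + r) * (2 * cos lam * kk (r + lam) * sin (lam - r) + sin (2 * lam) * w4 (r + lam)) := by
  simp only [Trig_kk2, Trig_kk1, Trig_w22, Trig_w21, Trig_w42, Trig_w41, Trig_w62, Trig_w61, Trig_w82, Trig_w81, Trig_w92, Trig_w91, Trig_a, Trig_b, Trig_p2, Trig_m2, Trig_p3, Trig_r3, sin_neg]
  linear_combination ((-2) * cos lam * sin (2 * lam) * cos r * sin r + 4 * cos lam * cos r ^ 3 * sin r + (-2) * sin lam * sin (2 * lam) * cos r * sin r + (-2) * sin lam * cos r ^ 3 * sin r + 2 * sin lam * cos r * sin r ^ 3) * Trig_e1 + (4 * cos lam * sin (2 * lam) * cos r ^ 3 * sin r + (-4) * sin lam * sin (2 * lam) * cos r ^ 3 * sin r + 4 * sin lam * sin (2 * lam) * cos r * sin r ^ 3) * Trig_e2 + ((-4) * cos lam * sin (2 * lam) * cos r ^ 3 * sin r) * Trig_e3 + ((-1) * cos r * sin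 r) * Trig_e5 + ((-2) * cos r ^ 3 * sin r + 2 * cos r * sin r ^ 3 + (-1) * cos r * sin r) * Trig_e6 + (cos lam * cos r * sin r) * sin_sq_add_cos_sq r

theorem ti2 (r : ℂ) : sin (2 * lam - r) * (sin (2 * lam) * w4 (r + 2 * lam) + w6 (r + 2 * lam) * sin (lam + r)) =
    sin (2 * lam + r) * (kk (r + lam) * sin (lam - r) + sin lam * w4 (r + lam)) := by
  simp only [Trig_kk2, Trig_kk1, Trig_w22, Trig_w21, Trig_w42, Trig_w41, Trig_w62, Trig_w61, Trig_w82, Trig_w81, Trig_w92, Trig_w91, Trig_a, Trig_b, Trig_p2, Trig_m2, Trig_p3, Trig_r3, sin_neg]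
  linear_combination ((-1) * cos lam ^ 2 * cos r ^ 2 * sin r ^ 2 + cos lam ^ 2 * sin r ^ 4 + (-1) * cos lam * sin lam * cos r * sin r + (-1) * cos lam * sin lam * sin r ^ 2 + sin lam ^ 2 * cos r ^ 4 + (-1) * sin lam ^ 2 * cos r ^ 2 * sin r ^ 2 + (-1) * sin lam ^ 2 * cos r ^ 2 + (-1) * sin lam ^ 2 * cos r * sin r + sin (2 * lam) ^ 2 * cos r ^ 2 + (-1) * sin (2 * lam) ^ 2 * sin r ^ 2 + (-1/2) * cos r ^ 4 + (1/2) * cos r ^ 3 * sin r + (3/2) * cos r ^ 2 * sin r ^ 2 + (1/2) * cos r ^ 2 + (1/2) * cos r * sin r ^ 3 + (-1/2) * sin r ^ 2) * Trig_e1 + (sin (2 * lam) * cos r ^ 3 * sin r + sin (2 * lam) * cos r ^ 2 * sin r ^ 2 + (-1/2) * cos r ^ 2 * sin r ^ 2 + (1/2) * sin r ^ 4) * Trig_e2 + ((-1) * sin (2 * lam) * cos r ^ 3 * sin r + (-1) * sin (2 * lam) * cos r ^ 2 * sin r ^ 2 + (1/2) * cos r ^ 4 + (-1/2) * cos r ^ 2 * sin r ^ 2 + (-1/2) * cos r ^ 2 + (-1/2) * cos r * sin r) * Trig_e3 + ((-1) * sin (2 * lam) *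 cos r ^ 4 + (-1) * sin (2 * lam) * cos r ^ 3 * sin r + sin (2 * lam) * cos r ^ 2 * sin r ^ 2 + sin (2 * lam) * cos r * sin r ^ 3 + (-1/2) * cos r * sin r + (-1/2) * sin r ^ 2) * Trig_e4 + ((-1/4) * sin (2 * lam) * cos r ^ 2 + (1/4) * sin (2 * lam) * sin r ^ 2 + (1/4) * cos r * sin r + (1/4) * sin r ^ 2) * sin_sq_add_cos_sq r

theorem ti3 (r : ℂ) : sin (2 * lam - r) * (sin (2 * lam) * w6 (r + 2 * lam) + w4 (r + 2 * lam) * sin (lam + r)) =
    sin (2 * lam + r) * (w2 (r + lam) * sin (lam - r) + sin (2 * lam) * w6 (r + lam)) := by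
  simp only [Trig_kk2, Trig_kk1, Trig_w22, Trig_w21, Trig_w42, Trig_w41, Trig_w62, Trig_w61, Trig_w82, Trig_w81, Trig_w92, Trig_w91, Trig_a, Trig_b, Trig_p2, Trig_m2, Trig_p3, Trig_r3, sin_neg]
  ring

theorem ti4 (r : ℂ) : sin (2 * lam - r) * (2 * cos lam * w2 (r + 2 * lam) * sin (lam + r) + sin (2 * lam) * w8 (r + 2 * lam)) =
    sin (2 * lam + r) * (w2 (r + lam) * sin (lam - r)) := by
  simp only [Trig_kk2, Trig_kk1, Trig_w22, Trig_w21, Trig_w42, Trig_w41, Trig_w62, Trig_w61, Trig_w82, Trig_w81, Trig_w92, Trig_w91, Trig_a, Trig_b, Trig_p2, Trig_m2, Trig_p3, Trig_r3, sin_neg]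
  linear_combination ((-2) * cos lam ^ 3 * cos r * sin r ^ 2 + 2 * cos lam ^ 3 * sin r ^ 3 + 2 * cos lam * sin lam ^ 2 * cos r ^ 3 + (-2) * cos lam * sin lam ^ 2 * cos r ^ 2 * sin r + cos lam * sin (2 * lam) * cos r ^ 2 * sin r + (-1) * cos lam * sin (2 * lam) * sin r ^ 3 + cos lam * cos r * sin r ^ 2 + (-1) * cos lam * sin r ^ 3 + (-1) * sin lam * sin (2 * lam) * cos r ^ 3 + sin lam * sin (2 * lam) * cos r * sin r ^ 2 + (-1) * sin lam * cos r ^ 2 * sin r + sin lam * cos r * sin r ^ 2) * Trig_e1 + ((-1) * cos lam * cos r * sin r ^ 2 + cos lam * sin r ^ 3) * Trig_e2 + (cos lam * cos r ^ 3 + (-1) * cos lam * cos r ^ 2 * sin r) * Trig_e3 + ((-1/2) * cos r ^ 3 + cos r ^ 2 * sin r + (-1/2) * cos r * sin r ^ 2) * Trig_e5 + ((-1/2) * cos r ^ 3 + (1/2) * cos r * sin r ^ 2) * Trig_e6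

theorem ti5 (r : ℂ) : sin (2 * lam - r) * w9 (r + 2 * lam) = sin (2 * lam + r) * w6 (r + lam) := by
  simp only [Trig_kk2, Trig_kk1, Trig_w22, Trig_w21, Trig_w42, Trig_w41, Trig_w62, Trig_w61, Trig_w82, Trig_w81, Trig_w92, Trig_w91, Trig_a, Trig_b, Trig_p2, Trig_m2, Trig_p3, Trig_r3, sin_neg]
  ring

theorem ti6 (r : ℂ) : sin (2 * lam - r) * (sin lam * w2 (r + 2 * lam) + kk (r + 2 * lam) * sin (lam + r)) =
    sin (2 * lam + r) * (sin (2 * lam) * w2 (r + lam) + w6 (r + lam) * sin (lam - r)) := by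
  simp only [Trig_kk2, Trig_kk1, Trig_w22, Trig_w21, Trig_w42, Trig_w41, Trig_w62, Trig_w61, Trig_w82, Trig_w81, Trig_w92, Trig_w91, Trig_a, Trig_b, Trig_p2, Trig_m2, Trig_p3, Trig_r3, sin_neg]
  linear_combination (cos lam ^ 2 * cos r ^ 2 * sin r ^ 2 + (-1) * cos lam ^ 2 * sin r ^ 4 + (-1) * cos lam * sin lam * cos r * sin r + cos lam * sin lam * sin r ^ 2 + (-1) * sin lam ^ 2 * cos r ^ 4 + sin lam ^ 2 * cos r ^ 2 * sin r ^ 2 + sin lam ^ 2 * cos r ^ 2 + (-1) * sin lam ^ 2 * cos r * sin r + (-1) * sin (2 * lam) ^ 2 * cos r ^ 2 + sin (2 * lam) ^ 2 * sin r ^ 2 + (1/2) * cos r ^ 4 + (1/2) * cos r ^ 3 * sin r + (-3/2) * cos r ^ 2 * sin r ^ 2 + (-1/2) * cos r ^ 2 + (1/2) * cos r * sin r ^ 3 + (1/2) * sin r ^ 2) * Trig_e1 + (sin (2 * lam) * cos r ^ 3 * sin r + (-1) * sin (2 * lam) * cos r ^ 2 * sin r ^ 2 + (1/2) * cos r ^ 2 * sin r ^ 2 + (-1/2) * sin r ^ 4) * Trig_e2 + ((-1) * sin (2 * lam) * cos r ^ 3 * sin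 r + sin (2 * lam) * cos r ^ 2 * sin r ^ 2 + (-1/2) * cos r ^ 4 + (1/2) * cos r ^ 2 * sin r ^ 2 + (1/2) * cos r ^ 2 + (-1/2) * cos r * sin r) * Trig_e3 + (sin (2 * lam) * cos r ^ 4 + (-1) * sin (2 * lam) * cos r ^ 3 * sin r + (-1) * sin (2 * lam) * cos r ^ 2 * sin r ^ 2 + sin (2 * lam) * cos r * sin r ^ 3 + (-1/2) * cos r * sin r + (1/2) * sin r ^ 2) * Trig_e4 + ((1/4) * sin (2 * lam) * cos r ^ 2 + (-1/4) * sin (2 * lam) * sin r ^ 2 + (1/4) * cos r * sin r + (-1/4) * sin r ^ 2) * sin_sq_add_cos_sq r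

theorem ti7 (r : ℂ) : sin (2 * lam - r) * (w6 (r + 2 * lam) * sin (lam + r)) =
    sin (2 * lam + r) * (w6 (r + lam) * sin (lam - r)) := by
  simp only [Trig_kk2, Trig_kk1, Trig_w22, Trig_w21, Trig_w42, Trig_w41, Trig_w62, Trig_w61, Trig_w82, Trig_w81, Trig_w92, Trig_w91, Trig_a, Trig_b, Trig_p2, Trig_m2, Trig_p3, Trig_r3, sin_neg]
  ring

theorem ti8 (r : ℂ) : sin (2 * lam - r) * w4 (r + 2 * lam) = sin (2 * lam + r) * w2 (r + lam) := by
  simp only [Trig_kk2, Trig_kk1, Trig_w22, Trig_w21, Trig_w42, Trig_w41, Trig_w62, Trig_w61, Trig_w82, Trig_w81, Trig_w92, Trig_w91, Trig_a, Trig_b, Trig_p2, Trig_m2, Trig_p3, Trig_r3, sin_neg]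
  ring

theorem ti9 (r : ℂ) : sin (2 * lam - r) * (w4 (r + 2 * lam) * sin (lam + r)) =
    sin (2 * lam + r) * (2 * cos lam * w4 (r + lam) * sin (lam - r) + sin (2 * lam) * w9 (r + lam)) := by
  simp only [Trig_kk2, Trig_kk1, Trig_w22, Trig_w21, Trig_w42, Trig_w41, Trig_w62, Trig_w61, Trig_w82, Trig_w81, Trig_w92, Trig_w91, Trig_a, Trig_b, Trig_p2, Trig_m2, Trig_p3, Trig_r3, sin_neg]
  linear_combination (2 * cos lam ^ 3 * cos r * sin r ^ 2 + 2 * cos lam ^ 3 * sin r ^ 3 + (-2) * cos lam * sin lam ^ 2 * cos r ^ 3 + (-2) * cos lam * sin lam ^ 2 * cos r ^ 2 * sin r + cos lam * sin (2 * lam) * cos r ^ 2 * sin r + (-1) * cos lam * sin (2 * lam) * sin r ^ 3 + (-1) * cos lam * cos r * sin r ^ 2 + (-1) * cos lam * sin r ^ 3 + sin lam * sin (2 * lam) * cos r ^ 3 + (-1) * sin lam * sin (2 * lam) * cos r * sin r ^ 2 + (-1) * sin lam * cos r ^ 2 * sin r + (-1) * sin lam * cos r * sin r ^ 2) * Trig_e1 + (cos lam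 * cos r * sin r ^ 2 + cos lam * sin r ^ 3) * Trig_e2 + ((-1) * cos lam * cos r ^ 3 + (-1) * cos lam * cos r ^ 2 * sin r) * Trig_e3 + ((1/2) * cos r ^ 3 + cos r ^ 2 * sin r + (1/2) * cos r * sin r ^ 2) * Trig_e5 + ((1/2) * cos r ^ 3 + (-1/2) * cos r * sin r ^ 2) * Trig_e6

theorem ti10 (r : ℂ) : sin (2 * lam - r) * w6 (r + 2 * lam) = sin (2 * lam + r) * w8 (r + lam) := by
  simp only [Trig_kk2, Trig_kk1, Trig_w22, Trig_w21, Trig_w42, Trig_w41, Trig_w62, Trig_w61, Trig_w82, Trig_w81, Trig_w92, Trig_w91, Trig_a, Trig_b, Trig_p2, Trig_m2, Trig_p3, Trig_r3, sin_neg]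
  ring

theorem ti11 (r : ℂ) : sin (2 * lam - r) * (sin lam * w8 (r + 2 * lam) + w2 (r + 2 * lam) * sin (lam + r)) =
    sin (2 * lam + r) * (sin lam * w8 (r + lam)) := by
  simp only [Trig_kk2, Trig_kk1, Trig_w22, Trig_w21, Trig_w42, Trig_w41, Trig_w62, Trig_w61, Trig_w82, Trig_w81, Trig_w92, Trig_w91, Trig_a, Trig_b, Trig_p2, Trig_m2, Trig_p3, Trig_r3, sin_neg]
  linear_combination ((-1) * cos lam ^ 2 * cos r * sin r ^ 2 + cos lam ^ 2 * sin r ^ 3 + cos lam * sin lam * cos r ^ 2 * sin r + (-1) * cos lam * sin lam * sin r ^ 3 + (-1) * sin lam ^ 2 * cos r ^ 2 * sin r + sin lam ^ 2 * cos r * sin r ^ 2 + (1/2) * cos r ^ 2 * sin r + (-1/2) * sin r ^ 3) * Trig_e1 + ((-1/2) * cos r * sin r ^ 2 + (1/2) * sin r ^ 3) * Trig_e2 + ((-1) * sin (2 * lam) * cos r ^ 2 * sin r + sin (2 * lam) * cos r * sin r ^ 2 + (-1/2) * cos r ^ 2 * sin r + (1/2) * cos r * sin r ^ 2) * Trig_e3 + (sin (2 * lam) * cos r * sin r ^ 2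 + (-1) * sin (2 * lam) * sin r ^ 3 + (1/2) * cos r ^ 2 * sin r + (-1/2) * sin r ^ 3) * Trig_e4

theorem ti12 (r : ℂ) : sin (2 * lam - r) * (sin lam * w9 (r + 2 * lam)) =
    sin (2 * lam + r) * (sin lam * w9 (r + lam) + w4 (r + lam) * sin (lam - r)) := by
  simp only [Trig_kk2, Trig_kk1, Trig_w22, Trig_w21, Trig_w42, Trig_w41, Trig_w62, Trig_w61, Trig_w82, Trig_w81, Trig_w92, Trig_w91, Trig_a, Trig_b, Trig_p2, Trig_m2, Trig_p3, Trig_r3, sin_neg]
  linear_combination (cos lam ^ 2 * cos r * sin r ^ 2 + cos lam ^ 2 * sin r ^ 3 + cos lam * sin lam * cos r ^ 2 * sin r + (-1) * cos lam * sin lam * sin r ^ 3 + (-1) * sin lam ^ 2 * cos r ^ 2 * sin r + (-1) * sin lam ^ 2 * cos r * sin r ^ 2 + (1/2) * cos r ^ 2 * sin r + (-1/2) * sin r ^ 3) * Trig_e1 + ((1/2) * cos r * sin r ^ 2 + (1/2) * sin r ^ 3) * Trig_e2 + ((-1) * sin (2 * lam) * cos r ^ 2 * sin r + (-1) * sin (2 * lam) * cos r * sin r ^ 2 + (-1/2) * cos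 r ^ 2 * sin r + (-1/2) * cos r * sin r ^ 2) * Trig_e3 + ((-1) * sin (2 * lam) * cos r * sin r ^ 2 + (-1) * sin (2 * lam) * sin r ^ 3 + (1/2) * cos r ^ 2 * sin r + (-1/2) * sin r ^ 3) * Trig_e4

/-! ### left -/

theorem tl1 (r : ℂ) : kk (r + 2 * lam) * sin (lam + r) - sin (2 * lam) * w4 (r + 2 * lam) =
    sin (-r) * sin (lam - r) * (- sin (3 * lam + r)) := by
  simp only [Trig_kk2, Trig_kk1, Trig_w22, Trig_w21, Trig_w42, Trig_w41, Trig_w62, Trig_w61, Trig_w82, Trig_w81, Trig_w92, Trig_w91, Trig_a, Trig_b, Trig_p2, Trig_m2, Trig_p3, Trig_r3, sin_neg]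
  linear_combination ((-1) * sin (2 * lam) * cos r + (-1) * sin (2 * lam) * sin r) * Trig_e1 + (cos r ^ 2 * sin r + cos r * sin r ^ 2) * Trig_e2 + ((-1) * cos r ^ 2 * sin r + (-1) * cos r * sin r ^ 2) * Trig_e3 + (cos r ^ 3 + (-1) * cos r ^ 2 * sin r + (-1) * cos r * sin r ^ 2 + sin r ^ 3) * Trig_e4 + ((1/2) * sin (2 * lam) * cos r + (1/2) * sin (2 * lam) * sin r) * sin_sq_add_cos_sq r

theorem tl2 (r : ℂ) : sin lam * w6 (r + 2 * lam) - w2 (r + 2 * lam) * sin (lam + r) =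
    sin lam * (sin (-r) * sin (lam - r)) := by
  simp only [Trig_kk2, Trig_kk1, Trig_w22, Trig_w21, Trig_w42, Trig_w41, Trig_w62, Trig_w61, Trig_w82, Trig_w81, Trig_w92, Trig_w91, Trig_a, Trig_b, Trig_p2, Trig_m2, Trig_p3, Trig_r3, sin_neg]
  linear_combination ((-1) * cos r * sin r) * Trig_e1 + (sin (2 * lam) * sin r ^ 2) * Trig_e2 + (sin (2 * lam) * cos r * sin r + cos r * sin r) * Trig_e3 + ((-1) * sin (2 * lam) * cos r * sin r + (-1) * sin (2 * lam) * sin r ^ 2 + (-1) * sin r ^ 2) * Trig_e4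

theorem tl3 (r : ℂ) : w6 (r + 2 * lam) * sin (lam + r) - sin lam * w2 (r + 2 * lam) =
    sin (-r) * sin (lam - r) * (- sin (3 * lam + r)) := by
  simp only [Trig_kk2, Trig_kk1, Trig_w22, Trig_w21, Trig_w42, Trig_w41, Trig_w62, Trig_w61, Trig_w82, Trig_w81, Trig_w92, Trig_w91, Trig_a, Trig_b, Trig_p2, Trig_m2, Trig_p3, Trig_r3, sin_neg]
  linear_combination ((-1/2) * cos r ^ 3 + (-1/2) * cos r ^ 2 * sin r + (-1/2) * cos r * sin r ^ 2 + (1/2) * cos r + (-1/2) * sin r ^ 3 + (1/2) * sin r) * Trig_e1 + ((-1) * sin (2 * lam) * cos r * sin r ^ 2 + (-1) * sin (2 * lam) * sin r ^ 3 + cos r * sin r ^ 2) * Trig_e2 + (sin (2 * lam) * cos r ^ 3 + sin (2 * lam) * cos r ^ 2 * sin r + (-1) * sin (2 * lam) * cos r + (-1) * cos r * sin r ^ 2) * Trig_e3 + (sin (2 * lam) * sin r + (-1) * cos r ^ 2 * sin r + sin r ^ 3) * Trig_e4 + ((1/2) * sin (2 * lam) * cos r + (-1/4) * cos r + (-1/4) * sin r) * sin_sq_add_cos_sq r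

theorem tl4 (r : ℂ) : w8 (r + 2 * lam) = sin (-r) * sin (lam - r) := by
  simp only [Trig_kk2, Trig_kk1, Trig_w22, Trig_w21, Trig_w42, Trig_w41, Trig_w62, Trig_w61, Trig_w82, Trig_w81, Trig_w92, Trig_w91, Trig_a, Trig_b, Trig_p2, Trig_m2, Trig_p3, Trig_r3, sin_neg]

theorem tl5 (r : ℂ) : w4 (r + 2 * lam) * sin (lam + r) = sin (2 * lam) * w9 (r + 2 * lam) := by
  simp only [Trig_kk2, Trig_kk1, Trig_w22, Trig_w21, Trig_w42, Trig_w41, Trig_w62, Trig_w61, Trig_w82, Trig_w81, Trig_w92, Trig_w91, Trig_a, Trig_b, Trig_p2, Trig_m2, Trig_p3, Trig_r3, sin_neg]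
  ring

/-! ### right -/

theorem tr1 (r : ℂ) : kk (r + lam) * sin (lam - r) - sin (2 * lam) * w2 (r + lam) =
    sin r * sin (lam + r) * sin (r - 3 * lam) := by
  simp only [Trig_kk2, Trig_kk1, Trig_w22, Trig_w21, Trig_w42, Trig_w41, Trig_w62, Trig_w61, Trig_w82, Trig_w81, Trig_w92, Trig_w91, Trig_a, Trig_b, Trig_p2, Trig_m2, Trig_p3, Trig_r3, sin_neg]
  linear_combination ((-1) * sin (2 * lam) * cos r + sin (2 * lam) * sin r) * Trig_e1 + ((-1) * cos r ^ 2 * sin r + cos r * sin r ^ 2) * Trig_e2 + (cos r ^ 2 * sin r + (-1) * cos r * sin r ^ 2) * Trig_e3 + (cos r ^ 3 + cos r ^ 2 * sin r + (-1) * cos r * sin r ^ 2 + (-1) * sin r ^ 3) * Trig_e4 + ((1/2) * sin (2 * lam) * cos r + (-1/2) * sin (2 * lam) * sin r) * sin_sq_add_cos_sq r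

theorem tr2 (r : ℂ) : sin lam * w4 (r + lam) - w6 (r + lam) * sin (lam - r) =
    - (sin r * sin (lam + r) * sin (r - 3 * lam)) := by
  simp only [Trig_kk2, Trig_kk1, Trig_w22, Trig_w21, Trig_w42, Trig_w41, Trig_w62, Trig_w61, Trig_w82, Trig_w81, Trig_w92, Trig_w91, Trig_a, Trig_b, Trig_p2, Trig_m2, Trig_p3, Trig_r3, sin_neg]
  linear_combination ((1/2) * cos r ^ 3 + (-1/2) * cos r ^ 2 * sin r + (1/2) * cos r * sin r ^ 2 + (-1/2) * cos r + (-1/2) * sin r ^ 3 + (1/2) * sin r) * Trig_e1 + (sin (2 * lam) * cos r * sin r ^ 2 + (-1) * sin (2 * lam) * sin r ^ 3 + (-1) * cos r * sin r ^ 2) * Trig_e2 + ((-1) * sin (2 * lam) * cos r ^ 3 + sin (2 * lam) * cos r ^ 2 * sin r + sin (2 * lam) * cos r + cos r * sin r ^ 2) * Trig_e3 + (sin (2 * lam) * sin r + (-1) * cos r ^ 2 * sin r + sin r ^ 3) * Trig_e4 + ((-1/2) * sin (2 * lam) * cos r + (1/4) * cos r + (-1/4) * sin r) * sin_sq_add_cos_sq r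

theorem tr3 (r : ℂ) : sin lam * w6 (r + lam) - w4 (r + lam) * sin (lam - r) =
    sin lam * (sin r * sin (lam + r)) := by
  simp only [Trig_kk2, Trig_kk1, Trig_w22, Trig_w21, Trig_w42, Trig_w41, Trig_w62, Trig_w61, Trig_w82, Trig_w81, Trig_w92, Trig_w91, Trig_a, Trig_b, Trig_p2, Trig_m2, Trig_p3, Trig_r3, sin_neg]
  linear_combination (cos r * sin r) * Trig_e1 + (sin (2 * lam) * sin r ^ 2) * Trig_e2 + ((-1) * sin (2 * lam) * cos r * sin r + (-1) * cos r * sin r) * Trig_e3 + (sin (2 * lam) * cos r * sin r + (-1) * sin (2 * lam) * sin r ^ 2 + (-1) * sin r ^ 2) * Trig_e4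

theorem tr4 (r : ℂ) : w2 (r + lam) * sin (lam - r) - sin (2 * lam) * w8 (r + lam) = 0 := by
  simp only [Trig_kk2, Trig_kk1, Trig_w22, Trig_w21, Trig_w42, Trig_w41, Trig_w62, Trig_w61, Trig_w82, Trig_w81, Trig_w92, Trig_w91, Trig_a, Trig_b, Trig_p2, Trig_m2, Trig_p3, Trig_r3, sin_neg]
  ring

theorem tr5 (r : ℂ) : w9 (r + lam) = sin r * sin (lam + r) := by
  simp only [Trig_kk2, Trig_kk1, Trig_w22, Trig_w21, Trig_w42, Trig_w41, Trig_w62, Trig_w61, Trig_w82, Trig_w81, Trig_w92, Trig_w91, Trig_a, Trig_b, Trig_p2, Trig_m2, Trig_p3, Trig_r3, sin_neg]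
  ring

/-! ### constants -/

theorem sin_lam_ne : sin lam ≠ 0 := by
  intro h
  have h1 := Trig_e4
  have h2 := Trig_e1
  rw [h, zero_mul] at h1
  have h3 : sin (2 * lam) = 0 := by linear_combination (-2 : ℂ) * h1
  rw [h3] at h2
  norm_num at h2

/-- `γ b = b / sin λ`, `b (γ b) = sin 2λ` -/
theorem bb_ga : bb * (bb / sin lam) = sin (2 * lam) := by
  rw [← mul_div_assoc, ← pow_two, bb_sq, mul_div_assoc, div_self sin_lam_ne, mul_one]

theorem bb_ne : bb ≠ 0 := by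
  intro h
  have h1 := bb_sq
  rw [h, zero_pow two_ne_zero] at h1
  rcases mul_eq_zero.1 h1.symm with h2 | h2
  · have h3 := Trig_e1
    rw [h2] at h3
    norm_num at h3
  · exact sin_lam_ne h2

end Pool.Agent.CYL
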