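import Pool.Agent.CYL.A.Alg
import Pool.Agent.CYL.A.Trig

/-!
# CYL, part A: the left part (lemma A3 of note 3178)

`eps f = 1` if `a` is empty, `- b / sin λ` if `a` is a leg. Step: if `g` is a function of the
reduced state with `g (kil i f)`, `g (swp a i f)`, `g (kil a f)` .. all equal to `g' f`, then
`Nr a i (r+2λ) (sin (λ+r)) (eps g) f = sin (-r) sin (λ-r) (weight of i: - sin (3λ+r) or b) eps f g' f`
(five cases, `tl1 .. tl5`). Row: induction on the list, with `chT P (ax :: ax' :: l)` and `wt`
as the function `g`.
-/

namespace Pool.Agent.CYL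

open Pool.Agent.BEX Complex RS

set_option linter.unusedSectionVars false
set_option linter.unusedVariables false

variable {ι : Type*} [DecidableEq ι]

theorem lb_ne_ax (i : ι) : BEX.lb i ≠ ax := by
  unfold BEX.lb ax
  simp

theorem lb_ne_ax' (i : ι) : BEX.lb i ≠ ax' := by
  unfold BEX.lb ax'
  simp

theorem lb_inj {i j : ι} (h : BEX.lb i = BEX.lb j) : i = j := by
  unfold BEX.lb at h
  exact Option.some.inj (Option.some.inj h)

theorem ax_ne_ax' : (ax : Option (Option ι)) ≠ ax' := by
  unfold ax ax'
  simp

theorem chT_congr {P : ι → Prop} {T T' : List (Option (Option ι))} {f g : RS (Option (Option ι))}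
    (h : ∀ j, P j → ((f (BEX.lb j) = none ∨ ∃ y ∈ T, f (BEX.lb j) = some y) ↔
      (g (BEX.lb j) = none ∨ ∃ y ∈ T', g (BEX.lb j) = some y))) :
    chT P T f = chT P T' g := by
  unfold chT
  have h1 : (∀ j, P j → f (BEX.lb j) = none ∨ ∃ y ∈ T, f (BEX.lb j) = some y) ↔
      ∀ j, P j → g (BEX.lb j) = none ∨ ∃ y ∈ T', g (BEX.lb j) = some y :=
    forall_congr' fun j => imp_congr_right (h j)
  classical
  by_cases h2 : ∀ j, P j → f (BEX.lb j) = none ∨ ∃ y ∈ T, f (BEX.lb j) = some y
  · rw [if_pos h2, if_pos (h1.1 h2)]
  · rw [if_neg h2, if_neg (fun h3 => h2 (h1.2 h3))]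

theorem wt_congr {l : List ι} {h : ι → ℂ} {f g : RS (Option (Option ι))}
    (hfg : ∀ k ∈ l, (f (BEX.lb k) = some (BEX.lb k) ↔ g (BEX.lb k) = some (BEX.lb k))) :
    wt l h f = wt l h g := by
  unfold wt
  congr 1
  refine List.map_congr_left fun k hk => ?_
  simp only [hfg k hk]

/-- the start of the induction -/
theorem E0_chT (P : ι → Prop) (f : RS (Option (Option ι))) :
    E0 P f = (if f ax = some ax then 1 else - (bb / sin lam)) * chT P [ax, ax'] f := by
  unfold E0
  congr 1
  unfold ch chT
  have h1 : (∀ j, P j → ((f.kil ax').kil ax) (BEX.lb j) = none) ↔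
      ∀ j, P j → f (BEX.lb j) = none ∨ ∃ y ∈ [ax, ax'], f (BEX.lb j) = some y := by
    refine forall_congr' fun j => imp_congr_right fun _ => ?_
    rw [kil_apply, if_neg (lb_ne_ax j), kil_apply, if_neg (lb_ne_ax' j)]
    rcases h : f (BEX.lb j) with _ | z
    · simp
    · by_cases h1 : z = ax'
      · subst h1; simp
      · by_cases h2 : z = ax
        · subst h2; simp [ax_ne_ax']
        · simp [h1, h2]
  by_cases h2 : ∀ j, P j → ((f.kil ax').kil ax) (BEX.lb j) = none
  · rw [if_pos h2, if_pos (h1.1 h2)]
  · rw [if_neg h2, if_neg (fun h3 => h2 (h1.2 h3))]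

/-- membership form of the condition of `chT` -/
def okT (T : List (Option (Option ι))) (z : Option (Option (Option ι))) : Prop :=
  z = none ∨ ∃ y ∈ T, z = some y

theorem chT_okT {P : ι → Prop} {T T' : List (Option (Option ι))} {f g : RS (Option (Option ι))}
    (h : ∀ j, P j → (okT T (f (BEX.lb j)) ↔ okT T' (g (BEX.lb j)))) :
    chT P T f = chT P T' g := chT_congr h

@[simp] theorem okT_none (T : List (Option (Option ι))) : okT T none ↔ True := by simp [okT]

@[simp] theorem okT_some (T : List (Option (Option ι))) (y : Option (Option ι)) :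
    okT T (some y) ↔ y ∈ T := by simp [okT]

/-- one crossing -/
theorem left_step (P : ι → Prop) (i : ι) (l : List ι) (hi : ¬ P i) (hl : ∀ j ∈ l, ¬ P j) (hil : i ∉ l)
    (r : ℂ) (h : ι → ℂ) (f : RS (Option (Option ι))) :
    Nr ax (BEX.lb i) (r + 2 * lam) (sin (lam + r))
        (fun g => (if g ax = some ax then 1 else - (bb / sin lam)) *
          (chT P (ax :: ax' :: l.map BEX.lb) g * wt l h g)) f =
      sin (-r) * sin (lam - r) * (if f (BEX.lb i) = some (BEX.lb i) then - sin (3 * lam + r) else bb) *
        ((if f ax = some ax then 1 else - (bb / sin lam)) *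
          (chT P (ax :: ax' :: (i :: l).map BEX.lb) f * wt l h f)) := by
  have hai : (ax : Option (Option ι)) ≠ BEX.lb i := (lb_ne_ax i).symm
  have hia : BEX.lb i ≠ (ax : Option (Option ι)) := lb_ne_ax i
  have hne : ∀ k ∈ l, BEX.lb k ≠ BEX.lb i := fun k hk h => hil (lb_inj h ▸ hk)
  have hnP : ∀ j, P j → BEX.lb j ≠ BEX.lb i := fun j hj h => hi (lb_inj h ▸ hj)
  -- the weights do not change
  have w1 : wt l h (f.ctl ax) = wt l h f :=
    wt_congr fun k _ => ctl_emp (lb_ne_ax k) f
  have w2' : wt l h (f.swp ax (BEX.lb i)) = wt l h f :=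
    wt_congr fun k hk => swp_emp (lb_ne_ax k) (hne k hk) f
  have w3 : wt l h (f.kil (BEX.lb i)) = wt l h f :=
    wt_congr fun k hk => kil_emp (hne k hk) f
  have w4' : wt l h (f.kil ax) = wt l h f :=
    wt_congr fun k _ => kil_emp (lb_ne_ax k) f
  have w5 : wt l h ((f.kil ax).swp ax (BEX.lb i)) = wt l h f :=
    wt_congr fun k hk => (swp_emp (lb_ne_ax k) (hne k hk) _).trans (kil_emp (lb_ne_ax k) f)
  have w6' : wt l h (f.cap ax (BEX.lb i)) = wt l h f :=
    wt_congr fun k hk => cap_emp hai (lb_ne_ax k) (hne k hk) f
  have w7 : wt l h ((f.cap ax (BEX.lb i)).ctl ax) = wt l h f :=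
    wt_congr fun k hk => (ctl_emp (lb_ne_ax k) _).trans (cap_emp hai (lb_ne_ax k) (hne k hk) f)
  have hmem : ∀ z : Option (Option ι), z ∈ (ax :: ax' :: (i :: l).map BEX.lb) ↔
      z = BEX.lb i ∨ z ∈ (ax :: ax' :: l.map BEX.lb) := by
    intro z
    simp only [List.map_cons, List.mem_cons]
    tauto
  by_cases ha : f ax = some ax
  · -- no label is joined to `ax`
    have hna : ∀ j, P j → f (BEX.lb j) ≠ some ax := by
      intro j _ h1
      have h2 := f.symm h1
      rw [ha] at h2
      exact lb_ne_ax j (Option.some.inj h2).symm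
    by_cases hb : f (BEX.lb i) = some (BEX.lb i)
    · have hnb : ∀ j, P j → f (BEX.lb j) ≠ some (BEX.lb i) := by
        intro j hj h1
        have h2 := f.symm h1
        rw [hb] at h2
        exact hnP j hj (Option.some.inj h2).symm
      have c1 : chT P (ax :: ax' :: (i :: l).map BEX.lb) f = chT P (ax :: ax' :: l.map BEX.lb) f := by
        refine chT_okT fun j hj => ?_
        rcases hz : f (BEX.lb j) with _ | z
        · simp
        · rw [okT_some, okT_some, hmem]
          have : z ≠ BEX.lb i := fun h1 => hnb j hj (by rw [hz, h1])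
          simp [this]
      have c2 : chT P (ax :: ax' :: l.map BEX.lb) (f.ctl ax) =
          chT P (ax :: ax' :: l.map BEX.lb) f := by
        refine chT_okT fun j hj => ?_
        rw [ctl_apply, if_neg (lb_ne_ax j), if_neg (hna j hj)]
      unfold Nr
      simp only [if_pos ha, if_pos hb, ctl_self, if_neg (by simp : (none : Option (Option (Option ι))) ≠ some ax)]
      rw [w1, c1, c2]
      have t1 := tl1 r
      have t2 := bb_ga
      linear_combination (chT P (ax :: ax' :: l.map BEX.lb) f * wt l h f) * t1 -
        w4 (r + 2 * lam) * (chT P (ax :: ax' :: l.map BEX.lb) f * wt l h f) * t2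
    · have c1 : chT P (ax :: ax' :: l.map BEX.lb) (f.swp ax (BEX.lb i)) =
          chT P (ax :: ax' :: (i :: l).map BEX.lb) f := by
        refine chT_okT fun j hj => ?_
        rw [swp_apply, Equiv.swap_apply_of_ne_of_ne (lb_ne_ax j) (hnP j hj)]
        rcases hz : f (BEX.lb j) with _ | z
        · simp
        · rw [Option.map_some, okT_some, okT_some, hmem]
          by_cases h1 : z = BEX.lb i
          · subst h1
            simp
          · have h2 : z ≠ ax := fun h3 => hna j hj (by rw [hz, h3])
            rw [Equiv.swap_apply_of_ne_of_ne h2 h1]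
            simp [h1]
      have c2 : chT P (ax :: ax' :: l.map BEX.lb) (f.kil (BEX.lb i)) =
          chT P (ax :: ax' :: (i :: l).map BEX.lb) f := by
        refine chT_okT fun j hj => ?_
        rw [kil_apply, if_neg (hnP j hj)]
        rcases hz : f (BEX.lb j) with _ | z
        · simp
        · rw [okT_some, hmem]
          by_cases h1 : z = BEX.lb i
          · subst h1
            simp
          · rw [if_neg (fun h3 => h1 (Option.some.inj h3)), okT_some]
            simp [h1]
      have e1 : ¬ (f.swp ax (BEX.lb i)) ax = some ax := by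
        rw [swp_emp_left]
        exact hb
      have e2 : (f.kil (BEX.lb i)) ax = some ax := by
        rw [kil_emp hai]
        exact ha
      unfold Nr
      simp only [if_pos ha, if_neg hb, if_neg e1, if_pos e2]
      rw [w2', w3, c1, c2]
      have t1 := tl2 r
      have t2 : bb / sin lam * sin lam = bb := div_mul_cancel₀ _ sin_lam_ne
      linear_combination (bb / sin lam) * (chT P (ax :: ax' :: (i :: l).map BEX.lb) f * wt l h f) * t1 +
        (chT P (ax :: ax' :: (i :: l).map BEX.lb) f * wt l h f) *
          (sin (-r) * sin (lam - r) - w6 (r + 2 * lam)) * t2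
  · by_cases hb : f (BEX.lb i) = some (BEX.lb i)
    · have hnb : ∀ j, P j → f (BEX.lb j) ≠ some (BEX.lb i) := by
        intro j hj h1
        have h2 := f.symm h1
        rw [hb] at h2
        exact hnP j hj (Option.some.inj h2).symm
      have c1 : chT P (ax :: ax' :: (i :: l).map BEX.lb) f = chT P (ax :: ax' :: l.map BEX.lb) f := by
        refine chT_okT fun j hj => ?_
        rcases hz : f (BEX.lb j) with _ | z
        · simp
        · rw [okT_some, okT_some, hmem]
          have : z ≠ BEX.lb i := fun h1 => hnb j hj (by rw [hz, h1])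
          simp [this]
      have c2 : chT P (ax :: ax' :: l.map BEX.lb) (f.kil ax) =
          chT P (ax :: ax' :: l.map BEX.lb) f := by
        refine chT_okT fun j hj => ?_
        rw [kil_apply, if_neg (lb_ne_ax j)]
        rcases hz : f (BEX.lb j) with _ | z
        · simp
        · by_cases h1 : z = ax
          · subst h1
            simp
          · rw [if_neg (fun h3 => h1 (Option.some.inj h3))]
      unfold Nr
      simp only [if_neg ha, if_pos hb, kil_self, if_true]
      rw [w4', c1, c2]
      have t1 := tl3 r
      have t2 : bb / sin lam * sin lam = bb := div_mul_cancel₀ _ sin_lam_ne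
      linear_combination (-(bb / sin lam)) * (chT P (ax :: ax' :: l.map BEX.lb) f * wt l h f) * t1 -
        (chT P (ax :: ax' :: l.map BEX.lb) f * wt l h f) * w2 (r + 2 * lam) * t2
    · -- `((f.kil a).swp a i)`
      have hk : (f.kil ax) (BEX.lb i) ≠ some (BEX.lb i) := by
        rw [Ne, kil_emp hia]
        exact hb
      have e1 : ¬ ((f.kil ax).swp ax (BEX.lb i)) ax = some ax := by
        rw [swp_emp_left]
        exact hk
      have c1 : chT P (ax :: ax' :: l.map BEX.lb) ((f.kil ax).swp ax (BEX.lb i)) =
          chT P (ax :: ax' :: (i :: l).map BEX.lb) f := by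
        refine chT_okT fun j hj => ?_
        rw [swp_apply, Equiv.swap_apply_of_ne_of_ne (lb_ne_ax j) (hnP j hj), kil_apply,
          if_neg (lb_ne_ax j)]
        rcases hz : f (BEX.lb j) with _ | z
        · simp
        · rw [okT_some, hmem]
          by_cases h1 : z = ax
          · subst h1
            simp
          · rw [if_neg (fun h3 => h1 (Option.some.inj h3)), Option.map_some, okT_some]
            by_cases h2 : z = BEX.lb i
            · subst h2
              simp
            · rw [Equiv.swap_apply_of_ne_of_ne h1 h2]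
              simp [h2]
      by_cases hc : f ax = some (BEX.lb i)
      · unfold Nr
        simp only [if_neg ha, if_neg hb, if_pos hc, if_neg e1]
        rw [w5, c1]
        have t1 := tl4 r
        linear_combination (-(bb * (bb / sin lam))) *
          (chT P (ax :: ax' :: (i :: l).map BEX.lb) f * wt l h f) * t1
      · have e2 : (f.cap ax (BEX.lb i)) ax = some ax := cap_left _ _ _
        have c2 : chT P (ax :: ax' :: l.map BEX.lb) ((f.cap ax (BEX.lb i)).ctl ax) =
            chT P (ax :: ax' :: l.map BEX.lb) (f.cap ax (BEX.lb i)) := by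
          refine chT_okT fun j hj => ?_
          rw [ctl_apply, if_neg (lb_ne_ax j), if_neg]
          intro h1
          have h2 := (f.cap ax (BEX.lb i)).symm h1
          rw [e2] at h2
          exact lb_ne_ax j (Option.some.inj h2).symm
        unfold Nr
        simp only [if_neg ha, if_neg hb, if_neg hc, if_neg e1, if_pos e2, ctl_self,
          if_neg (by simp : (none : Option (Option (Option ι))) ≠ some ax)]
        rw [w5, w6', w7, c1, c2]
        have t1 := tl4 r
        have t2 := bb_ga
        have t3 := tl5 r
        linear_combination (-(bb * (bb / sin lam))) *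
          (chT P (ax :: ax' :: (i :: l).map BEX.lb) f * wt l h f) * t1 +
          (chT P (ax :: ax' :: l.map BEX.lb) (f.cap ax (BEX.lb i)) * wt l h f) * t3 -
          w9 (r + 2 * lam) * (chT P (ax :: ax' :: l.map BEX.lb) (f.cap ax (BEX.lb i)) *
            wt l h f) * t2

/-- the row -/
theorem left_row (P : ι → Prop) (l : List ι) (hl : ∀ j ∈ l, ¬ P j) (hn : l.Nodup) (r : ι → ℂ)
    (f : RS (Option (Option ι))) :
    NL l (fun i => r i + 2 * lam) (fun i => sin (lam + r i)) (E0 P) f =
      (l.map (fun i => sin (- r i) * sin (lam - r i))).prod *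
        ((if f ax = some ax then 1 else - (bb / sin lam)) *
          (chT P (ax :: ax' :: l.map BEX.lb) f * wt l (fun i => - sin (3 * lam + r i)) f)) := by
  induction l generalizing f with
  | nil =>
    rw [NL_nil, E0_chT]
    simp [wt]
  | cons i l ih =>
    have hl' : ∀ j ∈ l, ¬ P j := fun j hj => hl j (List.mem_cons_of_mem _ hj)
    have hi : ¬ P i := hl i List.mem_cons_self
    obtain ⟨hil, hn'⟩ := List.nodup_cons.1 hn
    have h1 : NL l (fun i => r i + 2 * lam) (fun i => sin (lam + r i)) (E0 P) =
        fun g => (l.map (fun i => sin (- r i) * sin (lam - r i))).prod *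
          ((if g ax = some ax then 1 else - (bb / sin lam)) *
            (chT P (ax :: ax' :: l.map BEX.lb) g * wt l (fun i => - sin (3 * lam + r i)) g)) := by
      funext g
      exact ih hl' hn' g
    rw [NL_cons, h1, Nr_smul, left_step P i l hi hl' hil]
    have h2 : wt (i :: l) (fun i => - sin (3 * lam + r i)) f =
        (if f (BEX.lb i) = some (BEX.lb i) then - sin (3 * lam + r i) else bb) *
          wt l (fun i => - sin (3 * lam + r i)) f := by
      simp [wt]
    rw [h2]
    simp only [List.map_cons, List.prod_cons]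
    ring

end Pool.Agent.CYL
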