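import Pool.Agent.CYL.A.Alg

/-!
# CYL, part A: from the transfer matrix of BEX to reduced states (lemma A1 of note 3178)

The sites which have been crossed are only evaluated (weight `α` if empty, `b` if occupied).
-/

namespace Pool.Agent.CYL

open Pool.Agent.BEX Complex RS

section one

variable {Y : Type*} [DecidableEq Y]

/-- product of the weights of the crossed sites -/
noncomputable def WS (S : Finset Y) (α : Y → ℂ) (M : St Y) : ℂ := ∏ j ∈ S, if M j = j then α j else bb

theorem red_empty (M : St Y) : red ∅ M = emb M := by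
  ext1 x
  simp [red_apply]

theorem red_insert {S : Finset Y} {i : Y} (hi : i ∉ S) (M : St Y) : red (insert i S) M = (red S M).kil i := by
  ext1 x
  grind [red_apply, kil_apply]

theorem red_sw {S : Finset Y} {a i : Y} (ha : a ∉ S) (hi : i ∉ S) (M : St Y) :
    red S (M.sw a i) = (red S M).swp a i := by
  ext1 x
  have hsw : ∀ y : Y, Equiv.swap a i y ∈ S ↔ y ∈ S := by
    intro y
    rw [Equiv.swap_apply_def]
    split_ifs with h1 h2
    · subst h1; exact ⟨fun h => absurd h hi, fun h => absurd h ha⟩
    · subst h2; exact ⟨fun h => absurd h ha, fun h => absurd h hi⟩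
    · exact Iff.rfl
  rw [swp_apply, red_apply, red_apply, sw_apply]
  simp only [hsw]
  by_cases h1 : x ∈ S
  · rw [if_pos h1, if_pos h1, Option.map_some, Equiv.swap_apply_self]
  · rw [if_neg h1, if_neg h1]
    split_ifs <;> simp

/-- junction, then the site `i` is cut -/
theorem red_jn_kil {S : Finset Y} {a i : Y} (hai : a ≠ i) (ha : a ∉ S) (hi : i ∉ S) (M : St Y) (h1 : M a = a)
    (h2 : M i = i) : (red S (M.jn a i)).kil i = (red S M).ctl a := by
  ext1 x
  have h3 : M x = i ↔ x = i := ⟨fun h => M.inj (h.trans h2.symm), fun h => by rw [h, h2]⟩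
  have h4 : M x = a ↔ x = a := ⟨fun h => M.inj (h.trans h1.symm), fun h => by rw [h, h1]⟩
  rw [kil_apply, ctl_apply, red_apply, red_apply, jn_apply h1 h2]
  grind

/-- cap; `a`, `i` are legs, not joined to each other -/
theorem red_cp {S : Finset Y} {a i : Y} (hai : a ≠ i) (ha : a ∉ S) (hi : i ∉ S) (M : St Y) (h1 : M a ≠ a)
    (h2 : M i ≠ i) (h3 : M a ≠ i) : red S (M.cp a i) = (red S M).cap a i := by
  ext1 x
  have h4 : M x = a ↔ x = M a := ⟨fun h => by rw [← h, M.inv], fun h => by rw [h, M.inv]⟩
  have h5 : M x = i ↔ x = M i := ⟨fun h => by rw [← h, M.inv], fun h => by rw [h, M.inv]⟩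
  rw [cap_apply, red_apply, red_apply, cp_apply h1 h2, leg, leg, red_apply, red_apply]
  grind

theorem WS_insert {S : Finset Y} {i : Y} (hi : i ∉ S) (α : Y → ℂ) (M : St Y) :
    WS (insert i S) α M = (if M i = i then α i else bb) * WS S α M := by
  unfold WS
  rw [Finset.prod_insert hi]

theorem WS_congr {S : Finset Y} (α : Y → ℂ) {M M' : St Y} (h : ∀ j ∈ S, (M' j = j ↔ M j = j)) :
    WS S α M' = WS S α M := by
  unfold WS
  refine Finset.prod_congr rfl fun j hj => ?_
  simp only [h j hj]

/-- one crossing -/
theorem Rt_red {S : Finset Y} {a i : Y} (hai : a ≠ i) (ha : a ∉ S) (hi : i ∉ S) (X : ℂ) (α : Y → ℂ)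
    (H : RS Y → ℂ) (M : St Y) :
    Rt a i X (fun M => WS (insert i S) α M * H (red (insert i S) M)) M =
      WS S α M * Nr a i X (α i) H (red S M) := by
  have hne : ∀ j ∈ S, j ≠ a ∧ j ≠ i := fun j hj => ⟨fun h => ha (h ▸ hj), fun h => hi (h ▸ hj)⟩
  have hfa : red S M a = some a ↔ M a = a := by
    rw [red_apply, if_neg ha]
    constructor
    · intro h
      split_ifs at h
      exact Option.some.inj h
    · intro h
      rw [h, if_neg ha]
  have hfi : red S M i = some i ↔ M i = i := by
    rw [red_apply, if_neg hi]
    constructor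
    · intro h
      split_ifs at h
      exact Option.some.inj h
    · intro h
      rw [h, if_neg hi]
  have hfai : red S M a = some i ↔ M a = i := by
    rw [red_apply, if_neg ha]
    constructor
    · intro h
      split_ifs at h
      exact Option.some.inj h
    · intro h
      rw [h, if_neg hi]
  have hWsw : WS S α (M.sw a i) = WS S α M := WS_congr α fun j hj => sw_other (hne j hj).1 (hne j hj).2
  unfold Rt Nr
  simp only [WS_insert hi, red_insert hi, hfa, hfi, hfai]
  by_cases h1 : M a = a
  · rw [if_pos h1, if_pos h1]
    by_cases h2 : M i = i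
    · rw [if_pos h2, if_pos h2, if_pos h2, if_neg (jn_right hai h1 h2), kil_of_emp (hfi.2 h2),
        red_jn_kil hai ha hi M h1 h2,
        WS_congr α (M' := M.jn a i) (M := M) fun j hj => jn_other h1 h2 (hne j hj).1 (hne j hj).2]
      ring
    · rw [if_neg h2, if_neg h2, if_neg h2, if_pos ((sw_right a i M).2 h1), hWsw, red_sw ha hi,
        kil_of_emp ((swp_emp_right a i _).2 (hfa.2 h1))]
      ring
  · rw [if_neg h1, if_neg h1]
    by_cases h2 : M i = i
    · rw [if_pos h2, if_pos h2, if_pos h2, if_neg (fun h => h1 ((sw_right a i M).1 h)), hWsw, red_sw ha hi,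
        kil_of_emp (hfi.2 h2), swp_kil_right,
        swp_of_emp (kil_self a _) ((kil_emp hai.symm _).2 (hfi.2 h2))]
      ring
    · rw [if_neg h2, if_neg h2]
      by_cases h3 : M a = i
      · rw [if_pos h3, if_pos h3, if_neg h2]
        have h4 : (red S M).kil i = ((red S M).kil a).swp a i := by
          rw [← swp_kil_right]
          ext1 x
          have h5 : red S M a = some i := hfai.2 h3
          have h6 : red S M i = some a := (red S M).symm h5
          have h7 : red S M x = some a ↔ x = i := by
            constructor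
            · intro h
              have := (red S M).symm h
              rw [h5] at this
              exact (Option.some.inj this).symm
            · intro h; rw [h, h6]
          have h8 : red S M x = some i ↔ x = a := by
            constructor
            · intro h
              have := (red S M).symm h
              rw [h6] at this
              exact (Option.some.inj this).symm
            · intro h; rw [h, h5]
          rw [kil_apply, kil_apply, swp_apply]
          by_cases hx : x = i
          · rw [if_pos hx, if_pos hx]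
          · rw [if_neg hx, if_neg hx]
            by_cases hx2 : x = a
            · subst hx2
              rw [if_pos h5, Equiv.swap_apply_left, h6, Option.map_some, Equiv.swap_apply_left, if_pos rfl]
            · rw [if_neg (fun h => hx2 (h8.1 h)), Equiv.swap_apply_of_ne_of_ne hx2 hx]
              have h9 : Option.map (Equiv.swap a i) (red S M x) = red S M x := by
                rcases hr : red S M x with _ | y
                · rfl
                · rw [Option.map_some, Equiv.swap_apply_of_ne_of_ne]
                  · intro hy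
                    exact hx (h7.1 (by rw [hr, hy]))
                  · intro hy
                    exact hx2 (h8.1 (by rw [hr, hy]))
              rw [h9, if_neg (fun h => hx2 (h8.1 h))]
        rw [h4]
        ring
      · rw [if_neg h3, if_neg h3, if_neg (fun h => h1 ((sw_right a i M).1 h)), hWsw, red_sw ha hi,
          swp_kil_right]
        simp only [if_neg h2]
        have hcpa : M.cp a i a = a := cp_left h1 h2
        have hcpi : M.cp a i i = i := cp_right h1 h2
        have hWcp : WS S α (M.cp a i) = WS S α M :=
          WS_congr α fun j hj => cp_other hai h1 h2 (hne j hj).1 (hne j hj).2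
        have hWjn : WS S α ((M.cp a i).jn a i) = WS S α M := by
          rw [WS_congr α (M' := (M.cp a i).jn a i) (M := M.cp a i) fun j hj =>
            jn_other hcpa hcpi (hne j hj).1 (hne j hj).2, hWcp]
        rw [if_neg (jn_right hai hcpa hcpi), if_pos hcpi, hWcp, hWjn, red_jn_kil hai ha hi _ hcpa hcpi,
          red_cp hai ha hi M h1 h2 h3, kil_of_emp (cap_right a i _)]
        ring

end one

variable {ι : Type*} [DecidableEq ι] [Fintype ι]

omit [DecidableEq ι] [Fintype ι] in
theorem Red_lb_inj {i j : ι} (h : (BEX.lb i : Option (Option ι)) = BEX.lb j) : i = j := by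
  simpa [BEX.lb] using h

omit [Fintype ι] in
theorem Red_mem (l : List ι) (i : ι) : BEX.lb i ∈ (l.map BEX.lb).toFinset ↔ i ∈ l := by
  rw [List.mem_toFinset, List.mem_map]
  constructor
  · rintro ⟨j, hj, h⟩
    rwa [← Red_lb_inj h]
  · intro h
    exact ⟨i, h, rfl⟩

omit [Fintype ι] in
theorem Red_ax (l : List ι) : (ax : Option (Option ι)) ∉ (l.map BEX.lb).toFinset := by
  rw [List.mem_toFinset, List.mem_map]
  rintro ⟨j, _, h⟩
  simp [ax, BEX.lb] at h

omit [Fintype ι] in
theorem Red_ax' (l : List ι) : (ax' : Option (Option ι)) ∉ (l.map BEX.lb).toFinset := by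
  rw [List.mem_toFinset, List.mem_map]
  rintro ⟨j, _, h⟩
  simp [ax', BEX.lb] at h

/-- both ends of the auxiliary line are empty -/
theorem Ome_res (l : List ι) (α : ι → ℂ) (M : St (Option (Option ι))) (h1 : M ax = ax) (h2 : M ax' = ax') :
    Ome l α (res M) = (l.map (fun i => if M (BEX.lb i) = BEX.lb i then α i else bb)).prod *
      ch (fun j => j ∉ l) (red (l.map BEX.lb).toFinset M) := by
  have hlb : ∀ i, M (BEX.lb i) = BEX.lb (resf M i) := by
    intro i
    rcases hm : M (BEX.lb i) with _ | _ | j
    · exfalso
      have : M (BEX.lb i) = M ax := by rw [h1, hm]; rfl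
      have := M.inj this
      simp [ax, BEX.lb] at this
    · exfalso
      have : M (BEX.lb i) = M ax' := by rw [h2, hm]; rfl
      have := M.inj this
      simp [ax', BEX.lb] at this
    · unfold resf
      rw [hm]
      rfl
  have hinv : ∀ i, resf M (resf M i) = i := by
    intro i
    apply Red_lb_inj
    rw [← hlb, ← hlb, M.inv]
  have hres : ∀ i, res M i = resf M i := by
    intro i
    have h : res M = ⟨resf M, hinv⟩ := dif_pos hinv
    rw [h]
  have hfix : ∀ i, res M i = i ↔ M (BEX.lb i) = BEX.lb i := by
    intro i
    rw [hlb, hres]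
    exact ⟨fun h => by rw [h], fun h => Red_lb_inj h⟩
  have hch : (∀ j, j ∉ l → res M j ∈ l) ↔
      ∀ j, j ∉ l → red (l.map BEX.lb).toFinset M (BEX.lb j) = none := by
    refine forall_congr' fun j => forall_congr' fun hj => ?_
    rw [red_apply, if_neg (fun h => hj ((Red_mem l j).1 h)), hlb, hres, ← Red_mem l (resf M j)]
    constructor
    · intro h; rw [if_pos h]
    · intro h
      by_contra hn
      rw [if_neg hn] at h
      simp at h
  unfold Ome ch
  simp only [hfix]
  by_cases hc : ∀ j, j ∉ l → res M j ∈ l
  · rw [if_pos hc, if_pos (hch.1 hc), mul_one]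
  · rw [if_neg hc, if_neg (fun h => hc (hch.2 h)), mul_zero]

/-- closing the auxiliary line, all sites crossed; `l` is the list of all sites, the other labels
are the points at infinity -/
theorem capF_Ome (l : List ι) (hn : l.Nodup) (α : ι → ℂ) (M : St (Option (Option ι))) :
    capF (Ome l α) M =
      (l.map (fun i => if M (BEX.lb i) = BEX.lb i then α i else bb)).prod *
        (if red (l.map BEX.lb).toFinset M ax' = some ax' then J0 (fun j => j ∉ l) (red (l.map BEX.lb).toFinset M)
          else K1 (fun j => j ∉ l) (red (l.map BEX.lb).toFinset M)) := by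
  have hxx : (ax : Option (Option ι)) ≠ ax' := by simp [ax, ax']
  have hred : ∀ x y : Option (Option ι), x ∉ (l.map BEX.lb).toFinset → y ∉ (l.map BEX.lb).toFinset →
      (red (l.map BEX.lb).toFinset M x = some y ↔ M x = y) := by
    intro x y hx hy
    rw [red_apply, if_neg hx]
    constructor
    · intro h
      split_ifs at h
      exact Option.some.inj h
    · intro h
      rw [h, if_neg hy]
  have e1 := hred ax' ax' (Red_ax' l) (Red_ax' l)
  have e2 := hred ax ax (Red_ax l) (Red_ax l)
  have e3 := hred ax ax' (Red_ax l) (Red_ax' l)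
  unfold capF J0 K1
  simp only [e1, e2, e3]
  by_cases h1 : M ax = ax
  · by_cases h2 : M ax' = ax'
    · rw [if_pos h1, if_pos h2, if_pos h2, if_pos h1, Ome_res l α M h1 h2, kil_of_emp (e1.2 h2)]
    · rw [if_pos h1, if_neg h2, if_neg h2, if_pos h1, mul_zero]
  · by_cases h2 : M ax' = ax'
    · rw [if_neg h1, if_pos h2, if_pos h2, if_neg h1, mul_zero]
    · by_cases h3 : M ax = ax'
      · rw [if_neg h1, if_neg h2, if_pos h3, if_neg h2, if_neg h1, if_pos h3, mul_zero]
      · rw [if_neg h1, if_neg h2, if_neg h3, if_neg h2, if_neg h1, if_neg h3,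
          Ome_res l α _ (cp_left h1 h2) (cp_right h1 h2), red_cp hxx (Red_ax l) (Red_ax' l) M h1 h2 h3]
        congr 2
        refine List.map_congr_left fun i _ => ?_
        have hi1 : (BEX.lb i : Option (Option ι)) ≠ ax := by simp [ax, BEX.lb]
        have hi2 : (BEX.lb i : Option (Option ι)) ≠ ax' := by simp [ax', BEX.lb]
        simp only [cp_other hxx h1 h2 hi1 hi2]

/-- weights on all labels -/
noncomputable def Red_w (α : ι → ℂ) : Option (Option ι) → ℂ
  | some (some i) => α i
  | _ => 0

theorem Red_chain (l l2 : List ι) (hn : l2.Nodup) (v : ℂ) (U α : ι → ℂ) (S : Finset (Option (Option ι)))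
    (hax : (ax : Option (Option ι)) ∉ S) (hS : ∀ i, BEX.lb i ∈ S → i ∉ l2)
    (hU : S ∪ (l2.map BEX.lb).toFinset = (l.map BEX.lb).toFinset) (hl : l.Nodup)
    (M : St (Option (Option ι))) :
    l2.foldr (fun i G => Rt ax (BEX.lb i) (v - U i) G) (capF (Ome l α)) M =
      WS S (Red_w α) M * NL l2 (fun i => v - U i) α
        (fun f => if f ax' = some ax' then J0 (fun j => j ∉ l) f else K1 (fun j => j ∉ l) f) (red S M) := by
  induction l2 generalizing S M with
  | nil =>
    have hS' : S = (l.map BEX.lb).toFinset := by simpa using hU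
    rw [List.foldr_nil, NL_nil, capF_Ome l hl α M, hS']
    congr 1
    unfold WS
    rw [List.prod_toFinset _ (hl.map fun i j h => Red_lb_inj h), List.map_map]
    rfl
  | cons i l2 ih =>
    have hi : BEX.lb i ∉ S := fun h => hS i h (List.mem_cons_self)
    have hai : (ax : Option (Option ι)) ≠ BEX.lb i := by simp [ax, BEX.lb]
    rw [List.foldr_cons, NL_cons]
    have hn' := List.nodup_cons.1 hn
    have hfun : (l2.foldr (fun i G => Rt ax (BEX.lb i) (v - U i) G) (capF (Ome l α))) =
        fun M => WS (insert (BEX.lb i) S) (Red_w α) M * NL l2 (fun i => v - U i) α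
          (fun f => if f ax' = some ax' then J0 (fun j => j ∉ l) f else K1 (fun j => j ∉ l) f)
          (red (insert (BEX.lb i) S) M) := by
      funext M'
      refine ih hn'.2 (insert (BEX.lb i) S) ?_ ?_ ?_ M'
      · rw [Finset.mem_insert]
        rintro (h | h)
        · exact hai h
        · exact hax h
      · intro j hj
        rw [Finset.mem_insert] at hj
        rcases hj with h | h
        · rw [Red_lb_inj h]; exact hn'.1
        · exact fun h' => hS j h (List.mem_cons_of_mem _ h')
      · rw [← hU, List.map_cons, List.toFinset_cons, Finset.insert_union, Finset.union_insert]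
    rw [hfun, Rt_red hai hax hi]
    rfl

/-- `Tt Om` in terms of reduced states -/
theorem Tt_Ome (l : List ι) (hn : l.Nodup) (v : ℂ) (U α : ι → ℂ) (m : St ι) :
    Tt l v U (Ome l α) m =
      NL l (fun i => v - U i) α (J0 (fun j => j ∉ l)) (emb (ext0 m)) +
        NL l (fun i => v - U i) α (K1 (fun j => j ∉ l)) (emb (ext1 m)) := by
  have key : ∀ M : St (Option (Option ι)),
      l.foldr (fun i G => Rt ax (BEX.lb i) (v - U i) G) (capF (Ome l α)) M =
        if M ax' = ax' then NL l (fun i => v - U i) α (J0 (fun j => j ∉ l)) (emb M)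
        else NL l (fun i => v - U i) α (K1 (fun j => j ∉ l)) (emb M) := by
    intro M
    rw [Red_chain l l hn v U α ∅ (by simp) (by simp) (by simp) hn M, red_empty, NL_ite]
    have h1 : WS ∅ (Red_w α) M = 1 := by simp [WS]
    have h2 : (emb M ax' = some ax') ↔ M ax' = ax' := by
      rw [emb_apply]
      exact ⟨fun h => Option.some.inj h, fun h => by rw [h]⟩
    rw [h1, one_mul]
    simp only [h2]
  unfold Tt cupF
  rw [key, key]
  have h0 : (ext0 m) ax' = (ax' : Option (Option ι)) := rfl
  have hx0 : (ext0 m) ax = (ax : Option (Option ι)) := rfl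
  have hxx : (ax : Option (Option ι)) ≠ ax' := by simp [ax, ax']
  have h1 : (ext1 m) ax' ≠ (ax' : Option (Option ι)) := by
    unfold ext1
    exact jn_right hxx hx0 h0
  rw [if_pos h0, if_neg h1]

end Pool.Agent.CYL
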