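import Pool.Agent.CYL.A.Alg
import Pool.Agent.CYL.A.Trig

/-!
# CYL, part A: the right part (lemma A4 of note 3178)

For a state `f` with `a` empty, the difference `(N' H) f - (b / sin λ) (N' H) (ctl a f)` is mapped
to the same difference of `H` at `kil i f` (`tr1 .. tr5`; `kil_ctl`, `cap_ctl`).
-/

namespace Pool.Agent.CYL

open Pool.Agent.BEX Complex RS

theorem right_step {Y : Type*} [DecidableEq Y] {a i : Y} (hai : a ≠ i) (r : ℂ) (H : RS Y → ℂ) (f : RS Y)
    (hf : f a = some a) :
    Nr a i (r + lam) (sin (lam - r)) H f - bb / sin lam * Nr a i (r + lam) (sin (lam - r)) H (f.ctl a) =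
      sin r * sin (lam + r) * (if f i = some i then sin (r - 3 * lam) else bb) *
        (H (f.kil i) - bb / sin lam * H ((f.kil i).ctl a)) := by
  have hs := sin_lam_ne
  have hb : bb ^ 2 = sin (2 * lam) * sin lam := bb_sq
  have hia : i ≠ a := Ne.symm hai
  have hca : (f.ctl a) a ≠ some a := by rw [ctl_self]; simp
  have hci : (f.ctl a) i = some i ↔ f i = some i := ctl_emp hia f
  by_cases hi : f i = some i
  · rw [Nr, if_pos hf, if_pos hi, Nr, if_neg hca, if_pos (hci.2 hi), kil_ctl hf, if_pos hi, kil_of_emp hi]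
    have e1 := tr1 r
    have e2 := tr2 r
    generalize sin (r - 3 * lam) = g at e1 e2 ⊢
    field_simp
    linear_combination (sin lam * H f) * e1 + (bb * H (f.ctl a)) * e2 - (H f * w2 (r + lam)) * hb
  · have hni : (f.ctl a) a ≠ some i := by rw [ctl_self]; simp
    rw [Nr, if_pos hf, if_neg hi, Nr, if_neg hca, if_neg (fun h => hi (hci.1 h)), if_neg hni,
      kil_ctl hf, cap_ctl hai hf, if_neg hi]
    have e1 := tr4 r
    have e2 := tr3 r
    have e3 := tr5 r
    field_simp
    linear_combination (sin lam * H (f.swp a i)) * e1 + (bb * H (f.kil i)) * e2 -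
      (bb ^ 2 * H ((f.kil i).ctl a)) * e3 - (H (f.swp a i) * w8 (r + lam)) * hb

variable {ι : Type*} [DecidableEq ι]

private theorem Right_wt (l : List ι) (i : ι) (hi : i ∉ l) (α : ι → ℂ) (f : RS (Option (Option ι))) :
    wt l α (f.kil (BEX.lb i)) = wt l α f := by
  unfold wt
  congr 1
  refine List.map_congr_left fun j hj => ?_
  have hji : j ≠ i := fun h => hi (h ▸ hj)
  have h1 : (BEX.lb j : Option (Option ι)) ≠ BEX.lb i := fun h =>
    hji (Option.some.inj (Option.some.inj h))
  simp only [kil_emp h1]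

private theorem Right_chT (P : ι → Prop) (l : List ι) (i : ι) (hi : ¬ P i) (f : RS (Option (Option ι))) :
    chT P (ax' :: l.map BEX.lb) (f.kil (BEX.lb i)) = chT P (ax' :: (i :: l).map BEX.lb) f := by
  unfold chT
  have h : (∀ j, P j → (f.kil (BEX.lb i)) (BEX.lb j) = none ∨
        ∃ y ∈ ax' :: l.map BEX.lb, (f.kil (BEX.lb i)) (BEX.lb j) = some y) ↔
      ∀ j, P j → f (BEX.lb j) = none ∨ ∃ y ∈ ax' :: (i :: l).map BEX.lb, f (BEX.lb j) = some y := by
    refine forall_congr' fun j => forall_congr' fun hj => ?_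
    have hji : (BEX.lb j : Option (Option ι)) ≠ BEX.lb i := fun h =>
      hi ((Option.some.inj (Option.some.inj h)) ▸ hj)
    rw [kil_apply, if_neg hji]
    by_cases h1 : f (BEX.lb j) = some (BEX.lb i)
    · rw [if_pos h1, h1]
      simp
    · rw [if_neg h1]
      constructor
      · rintro (h2 | ⟨y, hy, h2⟩)
        · exact Or.inl h2
        · refine Or.inr ⟨y, ?_, h2⟩
          rcases List.mem_cons.1 hy with rfl | hy
          · exact List.mem_cons_self
          · exact List.mem_cons_of_mem _ (List.mem_cons_of_mem _ hy)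
      · rintro (h2 | ⟨y, hy, h2⟩)
        · exact Or.inl h2
        · refine Or.inr ⟨y, ?_, h2⟩
          rcases List.mem_cons.1 hy with rfl | hy
          · exact List.mem_cons_self
          · rcases List.mem_cons.1 hy with rfl | hy
            · exact absurd h2 h1
            · exact List.mem_cons_of_mem _ hy
  by_cases h0 : (∀ j, P j → f (BEX.lb j) = none ∨ ∃ y ∈ ax' :: (i :: l).map BEX.lb, f (BEX.lb j) = some y)
  · rw [if_pos h0, if_pos (h.2 h0)]
  · rw [if_neg h0, if_neg (fun h5 => h0 (h.1 h5))]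

private theorem Right_base (P : ι → Prop) (f : RS (Option (Option ι))) (hf : f ax = some ax) :
    J0 P f - bb / sin lam * J0 P (f.ctl ax) = chT P [ax'] f := by
  have h1 : (f.ctl ax) ax ≠ some ax := by rw [ctl_self]; simp
  rw [J0, if_pos hf, J0, if_neg h1, mul_zero, sub_zero]
  unfold ch chT
  have h : (∀ j, P j → (f.kil ax') (BEX.lb j) = none) ↔
      ∀ j, P j → f (BEX.lb j) = none ∨ ∃ y ∈ [ax'], f (BEX.lb j) = some y := by
    refine forall_congr' fun j => forall_congr' fun _ => ?_
    have h2 : (BEX.lb j : Option (Option ι)) ≠ ax' := by simp [BEX.lb, ax']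
    rw [kil_apply, if_neg h2]
    by_cases h1 : f (BEX.lb j) = some ax'
    · rw [if_pos h1]
      simp [h1]
    · rw [if_neg h1]
      simp [h1]
  by_cases h0 : (∀ j, P j → f (BEX.lb j) = none ∨ ∃ y ∈ [ax'], f (BEX.lb j) = some y)
  · rw [if_pos h0, if_pos (h.2 h0)]
  · rw [if_neg h0, if_neg (fun h5 => h0 (h.1 h5))]

/-- the row: `a = ax` is empty -/
theorem right_row (P : ι → Prop) (l : List ι) (hl : ∀ j ∈ l, ¬ P j) (hn : l.Nodup) (r : ι → ℂ)
    (f : RS (Option (Option ι))) (hf : f ax = some ax) :
    NL l (fun i => r i + lam) (fun i => sin (lam - r i)) (J0 P) f -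
        bb / sin lam * NL l (fun i => r i + lam) (fun i => sin (lam - r i)) (J0 P) (f.ctl ax) =
      (l.map (fun i => sin (r i) * sin (lam + r i))).prod *
        (chT P (ax' :: l.map BEX.lb) f * wt l (fun i => sin (r i - 3 * lam)) f) := by
  induction l generalizing f with
  | nil =>
    rw [NL_nil, Right_base P f hf]
    simp [wt]
  | cons i l ih =>
    obtain ⟨hi, hn'⟩ := List.nodup_cons.1 hn
    have hai : (ax : Option (Option ι)) ≠ BEX.lb i := by simp [ax, BEX.lb]
    have hf' : (f.kil (BEX.lb i)) ax = some ax := (kil_emp hai f).2 hf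
    rw [NL_cons, right_step hai (r i) _ f hf,
      ih (fun j hj => hl j (List.mem_cons_of_mem _ hj)) hn' _ hf', Right_wt l i hi,
      Right_chT P l i (hl i List.mem_cons_self)]
    have h1 : wt (i :: l) (fun i => sin (r i - 3 * lam)) f =
        (if f (BEX.lb i) = some (BEX.lb i) then sin (r i - 3 * lam) else bb) * wt l (fun i => sin (r i - 3 * lam)) f := by
      rw [wt, wt, List.map_cons, List.prod_cons]
    have h2 : ((i :: l).map (fun i => sin (r i) * sin (lam + r i))).prod =
        (sin (r i) * sin (lam + r i)) * (l.map (fun i => sin (r i) * sin (lam + r i))).prod := by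
      rw [List.map_cons, List.prod_cons]
    rw [h1, h2]
    ring

end Pool.Agent.CYL
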