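import Mathlib

/-!
# CYL, part A, T-Q: the division lemma

`GG κ y n = ∏ (X² - κ^(2n) y k)`.  If `c G_j(X) P(κ X) = G_0(X) P(X)` and `G_i`, `G_0` are coprime for `1 ≤ i ≤ j` then `G_1 ⋯ G_j` divides `P`.
-/

namespace Pool.Agent.CYL.Tq

open Polynomial

variable {L : ℕ}

/-- `∏ (X² - κ^(2n) y k)` -/
noncomputable def GG (κ : ℂ) (y : Fin L → ℂ) (n : ℕ) : ℂ[X] := ∏ k, (X ^ 2 - C (κ ^ (2 * n) * y k))

theorem GG_monic (κ : ℂ) (y : Fin L → ℂ) (n : ℕ) : (GG κ y n).Monic := by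
  unfold GG
  exact monic_prod_of_monic _ _ fun k _ => monic_X_pow_sub_C _ two_ne_zero

theorem GG_deg (κ : ℂ) (y : Fin L → ℂ) (n : ℕ) : (GG κ y n).natDegree = 2 * L := by
  unfold GG
  rw [natDegree_prod_of_monic _ _ fun k _ => monic_X_pow_sub_C _ two_ne_zero]
  simp only [natDegree_X_pow_sub_C]
  simp [mul_comm]

theorem GG_comp (κ : ℂ) (y : Fin L → ℂ) (n : ℕ) :
    (GG κ y (n + 1)).comp (C κ * X) = C (κ ^ (2 * L)) * GG κ y n := by
  unfold GG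
  rw [prod_comp]
  have h : ∀ k, (X ^ 2 - C (κ ^ (2 * (n + 1)) * y k)).comp (C κ * X) =
      C (κ ^ 2) * (X ^ 2 - C (κ ^ (2 * n) * y k)) := by
    intro k
    rw [sub_comp, pow_comp, X_comp, C_comp, mul_pow, mul_sub, ← C_mul, C_pow]
    congr 2
    ring
  simp only [h]
  rw [Finset.prod_mul_distrib, Finset.prod_const, Finset.card_univ, Fintype.card_fin, ← C_pow, ← pow_mul]

theorem GG_coprime {κ : ℂ} {y : Fin L → ℂ} {n : ℕ} (h : ∀ k j, κ ^ (2 * n) * y k ≠ y j) :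
    IsCoprime (GG κ y n) (GG κ y 0) := by
  unfold GG
  refine IsCoprime.prod_left fun k _ => IsCoprime.prod_right fun j _ => ?_
  have h1 : κ ^ (2 * 0) * y j - κ ^ (2 * n) * y k ≠ 0 := by
    rw [mul_zero, pow_zero, one_mul]
    exact sub_ne_zero.2 (h k j).symm
  refine ⟨C (κ ^ (2 * 0) * y j - κ ^ (2 * n) * y k)⁻¹, -C (κ ^ (2 * 0) * y j - κ ^ (2 * n) * y k)⁻¹, ?_⟩
  have h2 : C (κ ^ (2 * 0) * y j - κ ^ (2 * n) * y k)⁻¹ * (X ^ 2 - C (κ ^ (2 * n) * y k)) +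
      -C (κ ^ (2 * 0) * y j - κ ^ (2 * n) * y k)⁻¹ * (X ^ 2 - C (κ ^ (2 * 0) * y j)) =
      C (κ ^ (2 * 0) * y j - κ ^ (2 * n) * y k)⁻¹ * C (κ ^ (2 * 0) * y j - κ ^ (2 * n) * y k) := by
    rw [C_sub]
    ring
  rw [h2, ← C_mul, inv_mul_cancel₀ h1, C_1]

theorem GG_dvd {κ : ℂ} (hκ : κ ≠ 0) (y : Fin L → ℂ) : ∀ (j : ℕ) (c : ℂ) (P : ℂ[X]), c ≠ 0 →
    (∀ i ∈ Finset.range j, IsCoprime (GG κ y (i + 1)) (GG κ y 0)) →
    C c * GG κ y j * P.comp (C κ * X) = GG κ y 0 * P → (∏ i ∈ Finset.range j, GG κ y (i + 1)) ∣ P := by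
  intro j
  induction j with
  | zero => intro c P _ _ _; simp
  | succ j ih =>
    intro c P hc hco h
    have h1 : GG κ y (j + 1) ∣ P := by
      refine (hco j (Finset.self_mem_range_succ j)).dvd_of_dvd_mul_left ?_
      rw [← h]
      exact ⟨C c * P.comp (C κ * X), by ring⟩
    obtain ⟨P', rfl⟩ := h1
    rw [Finset.prod_range_succ, mul_comm]
    refine mul_dvd_mul_left _ (ih (c * κ ^ (2 * L)) P' (mul_ne_zero hc (pow_ne_zero _ hκ))
      (fun i hi => hco i (Finset.mem_range.2 ((Finset.mem_range.1 hi).trans (Nat.lt_succ_self j)))) ?_)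
    rw [mul_comp, GG_comp] at h
    refine mul_left_cancel₀ (GG_monic κ y (j + 1)).ne_zero ?_
    rw [C_mul]
    linear_combination h

/-- **the division lemma** -/
theorem eq_zero_of_eq {κ : ℂ} (hκ : κ ≠ 0) (y : Fin L → ℂ) {c : ℂ} (hc : c ≠ 0) {P : ℂ[X]}
    (hco : ∀ n ∈ Finset.Icc 1 4, ∀ k j, κ ^ (2 * n) * y k ≠ y j) (hd : P.natDegree < 8 * L)
    (h : C c * GG κ y 4 * P.comp (C κ * X) = GG κ y 0 * P) : P = 0 := by
  have h1 := GG_dvd hκ y 4 c P hc (fun i hi => GG_coprime (hco (i + 1) (by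
    rw [Finset.mem_range] at hi
    rw [Finset.mem_Icc]
    omega))) h
  refine Polynomial.eq_zero_of_dvd_of_natDegree_lt h1 ?_
  rw [natDegree_prod_of_monic _ _ fun i _ => GG_monic κ y (i + 1)]
  simp only [GG_deg]
  rw [Finset.sum_const, Finset.card_range, smul_eq_mul]
  omega

end Pool.Agent.CYL.Tq
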