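import Pool.Agent.CYL.A.RS

/-!
# CYL, part A: equalities of reduced states, linearity, pull-back

All equalities of states are proved label by label (`RS.ext'`, the `_apply` lemmas, `split_ifs`,
and `RS.symm`).
-/

namespace Pool.Agent.CYL

open Pool.Agent.BEX Complex

namespace RS

variable {Y : Type*} [DecidableEq Y]

private theorem Alg_sy (f : RS Y) (x y : Y) : f x = some y ↔ f y = some x := ⟨f.symm, f.symm⟩

private theorem Alg_swp (a i : Y) (f : RS Y) (x : Y) : f.swp a i x =
    if f (if x = a then i else if x = i then a else x) = some a then some i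
    else if f (if x = a then i else if x = i then a else x) = some i then some a
    else f (if x = a then i else if x = i then a else x) := by
  rw [swp_apply, Equiv.swap_apply_def]
  generalize f (if x = a then i else if x = i then a else x) = o
  cases o with
  | none => simp
  | some y =>
    rw [Option.map_some, Equiv.swap_apply_def]
    grind

theorem kil_self (a : Y) (f : RS Y) : f.kil a a = some a := by
  grind [kil_apply]

theorem ctl_self (a : Y) (f : RS Y) : f.ctl a a = none := by
  grind [ctl_apply]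

theorem cap_left (a i : Y) (f : RS Y) : f.cap a i a = some a := by
  grind [cap_apply]

theorem cap_right (a i : Y) (f : RS Y) : f.cap a i i = some i := by
  grind [cap_apply]

/-- occupancy of the other labels -/
theorem kil_emp {a x : Y} (h : x ≠ a) (f : RS Y) : f.kil a x = some x ↔ f x = some x := by
  grind [kil_apply]

theorem ctl_emp {a x : Y} (h : x ≠ a) (f : RS Y) : f.ctl a x = some x ↔ f x = some x := by
  grind [ctl_apply]

theorem swp_emp {a i x : Y} (h : x ≠ a) (h' : x ≠ i) (f : RS Y) :
    f.swp a i x = some x ↔ f x = some x := by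
  grind [Alg_swp]

theorem swp_emp_left (a i : Y) (f : RS Y) : f.swp a i a = some a ↔ f i = some i := by
  grind [Alg_swp]

theorem swp_emp_right (a i : Y) (f : RS Y) : f.swp a i i = some i ↔ f a = some a := by
  grind [Alg_swp]

theorem cap_emp {a i x : Y} (hai : a ≠ i) (h : x ≠ a) (h' : x ≠ i) (f : RS Y) :
    f.cap a i x = some x ↔ f x = some x := by
  grind [cap_apply, leg, Alg_sy]

theorem kil_of_emp {a : Y} {f : RS Y} (h : f a = some a) : f.kil a = f := by
  ext1 x
  grind [kil_apply, Alg_sy]

theorem kil_ctl {a : Y} {f : RS Y} (h : f a = some a) : (f.ctl a).kil a = f := by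
  ext1 x
  grind [kil_apply, ctl_apply, Alg_sy]

theorem kil_ctl' (a : Y) (f : RS Y) : (f.ctl a).kil a = f.kil a := by
  ext1 x
  grind [kil_apply, ctl_apply, Alg_sy]

theorem ctl_kil' (a : Y) (f : RS Y) : (f.kil a).ctl a = f.ctl a := by
  ext1 x
  grind [kil_apply, ctl_apply, Alg_sy]

theorem kil_kil (a : Y) (f : RS Y) : (f.kil a).kil a = f.kil a := by
  ext1 x
  grind [kil_apply, Alg_sy]

theorem kil_comm (a i : Y) (f : RS Y) : (f.kil a).kil i = (f.kil i).kil a := by
  ext1 x
  grind [kil_apply, Alg_sy]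

theorem kil_ctl_comm {a i : Y} (h : a ≠ i) (f : RS Y) : (f.ctl a).kil i = (f.kil i).ctl a := by
  ext1 x
  grind [kil_apply, ctl_apply, Alg_sy]

theorem ctl_comm (a i : Y) (f : RS Y) : (f.ctl a).ctl i = (f.ctl i).ctl a := by
  ext1 x
  grind [kil_apply, ctl_apply, Alg_sy]

theorem cap_comm (a i : Y) (f : RS Y) : f.cap a i = f.cap i a := by
  ext1 x
  grind [cap_apply, leg, Alg_sy]

theorem cap_ctl {a i : Y} (hai : a ≠ i) {f : RS Y} (h : f a = some a) : (f.ctl a).cap a i = f.kil i := by
  ext1 x
  grind [cap_apply, leg, ctl_apply, kil_apply, Alg_sy]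

/-- closing the auxiliary line when its left end has been cut -/
theorem cap_ctl_right {a i : Y} (hai : a ≠ i) (f : RS Y) : (f.ctl i).cap a i = (f.kil i).kil a := by
  ext1 x
  grind [cap_apply, leg, ctl_apply, kil_apply, Alg_sy]

theorem kil_swp {a i : Y} {f : RS Y} (h : f a = some a) : (f.swp a i).kil a = f.kil i := by
  ext1 x
  grind [Alg_swp, kil_apply, Alg_sy]

theorem swp_kil_right (a i : Y) (f : RS Y) : (f.swp a i).kil i = (f.kil a).swp a i := by
  ext1 x
  grind [Alg_swp, kil_apply, Alg_sy]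

theorem kil_swp_kil (a i : Y) (f : RS Y) : ((f.kil a).swp a i).kil a = (f.kil a).kil i := by
  ext1 x
  grind [Alg_swp, kil_apply, Alg_sy]

theorem swp_of_emp {a i : Y} {f : RS Y} (h : f a = some a) (h' : f i = some i) : f.swp a i = f := by
  ext1 x
  grind [Alg_swp, Alg_sy]

/-! the other labels: `c` is different from `a` and `i` -/

theorem swp_kil {a i c : Y} (h : c ≠ a) (h' : c ≠ i) (f : RS Y) :
    (f.swp a i).kil c = (f.kil c).swp a i := by
  ext1 x
  grind [swp_apply, kil_apply, Alg_sy]

theorem swp_ctl {a i c : Y} (h : c ≠ a) (h' : c ≠ i) (f : RS Y) :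
    (f.swp a i).ctl c = (f.ctl c).swp a i := by
  ext1 x
  grind [swp_apply, ctl_apply, Alg_sy]

theorem cap_kil {a i c : Y} (hai : a ≠ i) (h : c ≠ a) (h' : c ≠ i) (f : RS Y) :
    (f.cap a i).kil c = (f.kil c).cap a i := by
  ext1 x
  grind [cap_apply, leg, kil_apply, Alg_sy]

theorem cap_ctl_comm {a i c : Y} (hai : a ≠ i) (h : c ≠ a) (h' : c ≠ i) (f : RS Y) :
    (f.cap a i).ctl c = (f.ctl c).cap a i := by
  ext1 x
  grind [cap_apply, leg, ctl_apply, Alg_sy]

end RS

open RS

section ops

variable {Y : Type*} [DecidableEq Y]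

theorem Nr_smul (a i : Y) (X α c : ℂ) (H : RS Y → ℂ) (f : RS Y) :
    Nr a i X α (fun g => c * H g) f = c * Nr a i X α H f := by
  unfold Nr
  split_ifs <;> ring

theorem Nr_add (a i : Y) (X α : ℂ) (H G : RS Y → ℂ) (f : RS Y) :
    Nr a i X α (fun g => H g + G g) f = Nr a i X α H f + Nr a i X α G f := by
  unfold Nr
  split_ifs <;> ring

theorem Dd_smul (a : Y) (c : ℂ) (H : RS Y → ℂ) (f : RS Y) :
    DdA a (fun g => c * H g) f = c * DdA a H f := by
  unfold DdA
  split_ifs <;> ring

/-- pull-back by `kil c` -/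
theorem Nr_kil {a i c : Y} (hai : a ≠ i) (h : c ≠ a) (h' : c ≠ i) (X α : ℂ) (H : RS Y → ℂ) (f : RS Y) :
    Nr a i X α (fun g => H (g.kil c)) f = Nr a i X α H (f.kil c) := by
  have h1 : f.kil c a = some a ↔ f a = some a := kil_emp h.symm f
  have h2 : f.kil c i = some i ↔ f i = some i := kil_emp h'.symm f
  have h3 : f.kil c a = some i ↔ f a = some i := by grind [kil_apply, RS.symm]
  unfold Nr
  simp only [h1, h2, h3, kil_ctl_comm h.symm, kil_comm _ c, swp_kil h h', cap_kil hai h h']

/-- pull-back by `ctl c` -/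
theorem Nr_ctl {a i c : Y} (hai : a ≠ i) (h : c ≠ a) (h' : c ≠ i) (X α : ℂ) (H : RS Y → ℂ) (f : RS Y) :
    Nr a i X α (fun g => H (g.ctl c)) f = Nr a i X α H (f.ctl c) := by
  have h1 : f.ctl c a = some a ↔ f a = some a := ctl_emp h.symm f
  have h2 : f.ctl c i = some i ↔ f i = some i := ctl_emp h'.symm f
  have h3 : f.ctl c a = some i ↔ f a = some i := by grind [ctl_apply, RS.symm]
  unfold Nr
  simp only [h1, h2, h3, kil_ctl_comm h, kil_ctl_comm h', ctl_comm _ c, swp_ctl h h', cap_ctl_comm hai h h']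

/-- the occupancy of `c` never changes -/
theorem Nr_ite {a i c : Y} (hai : a ≠ i) (h : c ≠ a) (h' : c ≠ i) (X α : ℂ) (H G : RS Y → ℂ) (f : RS Y) :
    Nr a i X α (fun g => if g c = some c then H g else G g) f =
      if f c = some c then Nr a i X α H f else Nr a i X α G f := by
  unfold Nr
  simp only [kil_emp h, kil_emp h', ctl_emp h, swp_emp h h', cap_emp hai h h']
  split_ifs <;> rfl

end ops

section lists

variable {ι : Type*} [DecidableEq ι]

omit [DecidableEq ι] in
private theorem Alg_ax_lb (i : ι) : (ax : Option (Option ι)) ≠ BEX.lb i := by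
  simp [ax, BEX.lb]

omit [DecidableEq ι] in
private theorem Alg_ax'_ax : (ax' : Option (Option ι)) ≠ ax := by
  simp [ax, ax']

omit [DecidableEq ι] in
private theorem Alg_ax'_lb (i : ι) : (ax' : Option (Option ι)) ≠ BEX.lb i := by
  simp [ax', BEX.lb]

theorem NL_smul (l : List ι) (X α : ι → ℂ) (c : ℂ) (H : RS (Option (Option ι)) → ℂ) (f : RS (Option (Option ι))) :
    NL l X α (fun g => c * H g) f = c * NL l X α H f := by
  induction l generalizing f with
  | nil => rfl
  | cons i l ih =>
    rw [NL_cons, NL_cons, funext ih]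
    exact Nr_smul _ _ _ _ _ _ _

theorem NL_add (l : List ι) (X α : ι → ℂ) (H G : RS (Option (Option ι)) → ℂ) (f : RS (Option (Option ι))) :
    NL l X α (fun g => H g + G g) f = NL l X α H f + NL l X α G f := by
  induction l generalizing f with
  | nil => rfl
  | cons i l ih =>
    rw [NL_cons, NL_cons, NL_cons, funext ih]
    exact Nr_add _ _ _ _ _ _ _

theorem NL_kil (l : List ι) (X α : ι → ℂ) (H : RS (Option (Option ι)) → ℂ) (f : RS (Option (Option ι))) :
    NL l X α (fun g => H (g.kil ax')) f = NL l X α H (f.kil ax') := by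
  induction l generalizing f with
  | nil => rfl
  | cons i l ih =>
    rw [NL_cons, NL_cons, funext ih]
    exact Nr_kil (Alg_ax_lb i) Alg_ax'_ax (Alg_ax'_lb i) _ _ _ _

theorem NL_ctl (l : List ι) (X α : ι → ℂ) (H : RS (Option (Option ι)) → ℂ) (f : RS (Option (Option ι))) :
    NL l X α (fun g => H (g.ctl ax')) f = NL l X α H (f.ctl ax') := by
  induction l generalizing f with
  | nil => rfl
  | cons i l ih =>
    rw [NL_cons, NL_cons, funext ih]
    exact Nr_ctl (Alg_ax_lb i) Alg_ax'_ax (Alg_ax'_lb i) _ _ _ _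

theorem NL_ite (l : List ι) (X α : ι → ℂ) (H G : RS (Option (Option ι)) → ℂ) (f : RS (Option (Option ι))) :
    NL l X α (fun g => if g ax' = some ax' then H g else G g) f =
      if f ax' = some ax' then NL l X α H f else NL l X α G f := by
  induction l generalizing f with
  | nil => rfl
  | cons i l ih =>
    rw [NL_cons, NL_cons, NL_cons, funext ih]
    exact Nr_ite (Alg_ax_lb i) Alg_ax'_ax (Alg_ax'_lb i) _ _ _ _ _

/-- `D κ₁ = κ₁ + γ b J₀` -/
theorem Dd_K1 (P : ι → Prop) (f : RS (Option (Option ι))) :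
    DdA ax (K1 P) f = K1 P f + bb / sin lam * J0 P f := by
  unfold DdA
  by_cases h : f ax = some ax
  · have h1 : K1 P f = 0 := if_pos h
    have h2 : K1 P (f.ctl ax) = ch P (f.kil ax') := by
      unfold K1
      rw [ctl_self, if_neg (by simp), if_neg (by simp), cap_ctl Alg_ax'_ax.symm h]
    have h3 : J0 P f = ch P (f.kil ax') := if_pos h
    rw [if_pos h, h1, h2, h3, mul_zero]
  · have h1 : K1 P (f.kil ax) = 0 := if_pos (kil_self _ _)
    have h2 : J0 P f = 0 := if_neg h
    rw [if_neg h, h1, h2]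

theorem K1_ctl (P : ι → Prop) (f : RS (Option (Option ι))) :
    K1 P (f.ctl ax') = if f ax = some ax then 0 else ch P ((f.kil ax').kil ax) := by
  have h1 : f.ctl ax' ax = some ax ↔ f ax = some ax := ctl_emp Alg_ax'_ax.symm f
  have h2 : ¬ f.ctl ax' ax = some ax' := by
    intro h3
    have h4 := (f.ctl ax').symm h3
    rw [ctl_self] at h4
    exact absurd h4 (by simp)
  unfold K1
  simp only [h1, if_neg h2, cap_ctl_right Alg_ax'_ax.symm]

/-- the functional of the left part -/
theorem E0_eq (P : ι → Prop) (f : RS (Option (Option ι))) :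
    E0 P f = J0 P f + (- (bb / sin lam)) * K1 P (f.ctl ax') := by
  rw [K1_ctl]
  unfold E0 J0
  by_cases h : f ax = some ax
  · rw [if_pos h, if_pos h, if_pos h, kil_of_emp ((kil_emp Alg_ax'_ax.symm f).2 h), mul_zero,
      add_zero, one_mul]
  · rw [if_neg h, if_neg h, if_neg h, zero_add]

theorem J0_kil (P : ι → Prop) (f : RS (Option (Option ι))) : J0 P (f.kil ax') = J0 P f := by
  unfold J0
  simp only [kil_emp Alg_ax'_ax.symm, kil_kil]

end lists

end Pool.Agent.CYL
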