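import Pool.Agent.CYL.A.ComDef

/-!
# CYL, part A, commutation: the cap commutes with operators on other lines

PROOFS.  Case analysis as in `capF_Rt` (`Pool/Agent/BEX/ACapRt.lean`), with the lemmas of `ACapRt`/`AFar` on `sw`, `jn`, `cp` of disjoint pairs (`St.sw_cp`, `St.jn_cp`, `St.cp_cp`, `St.cp_join_iff`, ..).
* `capK_Rt`: the same statement as `capF_Rt` for `capK`.
* `capK_comm`: both sides are `0` unless each of the pairs `p, q` and `p', q'` is both empty or both occupied.  If `m p = q` or `m p' = q'` both sides are `0`.  If `p, q` are joined to `p', q'` (`m p = p'`, `m q = q'` or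
  `m p = q'`, `m q = p'`): `m.cp p q` joins `p'` and `q'`, both sides are `0` (a loop).  Otherwise `(m.cp p q).cp p' q' = (m.cp p' q').cp p q` (`St.cp_cp`), and the conditions (which lines are empty, `St.cp_fix`; `p'` joined to `q'` in
  `m.cp p q` iff `p` joined to `q` in `m.cp p' q'`, `St.cp_join_iff`) agree.  If `p, q` are empty: `capK p q` does nothing on both sides.
* `cupK_capK`: `m` with `p', q'` empty.  `(m.jn p' q') p = m p` etc.; `(m.jn p' q').cp p q = (m.cp p q).jn p' q'` (`St.jn_cp`).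
-/

namespace Pool.Agent.CYL.Com

open Complex Pool.Agent.BEX

variable {κ : Type*} [DecidableEq κ]

private lemma K0 (G : St κ → ℂ) {M : St κ} {p q : κ} (h : M p = p) (h' : M q = q) : capK p q G M = G M := by
  unfold capK
  rw [if_pos h, if_pos h']

private lemma Kz (G : St κ → ℂ) {M : St κ} {p q : κ} (h : M p = p ∨ M q = q) (h' : ¬ (M p = p ∧ M q = q)) :
    capK p q G M = 0 := by
  unfold capK
  split_ifs with h1 h2 h3 h4
  · exact absurd ⟨h1, h2⟩ h'
  · rfl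
  · rfl
  · rfl
  · exact absurd h (by push Not; exact ⟨h1, h3⟩)

private lemma Ka (G : St κ → ℂ) {M : St κ} {p q : κ} (hpq : p ≠ q) (h : M p = q) : capK p q G M = 0 := by
  have h1 : M q = p := by rw [← h]; simp
  unfold capK
  rw [if_neg (by rw [h]; exact hpq.symm), if_neg (by rw [h1]; exact hpq), if_pos h]

private lemma Kc (G : St κ → ℂ) {M : St κ} {p q : κ} (h : M p ≠ p) (h' : M q ≠ q) (h'' : M p ≠ q) :
    capK p q G M = G (M.cp p q) := by
  unfold capK
  rw [if_neg h, if_neg h', if_neg h'']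

theorem capK_Rt {p q r s : κ} (hpq : p ≠ q) (hpr : p ≠ r) (hps : p ≠ s) (hqr : q ≠ r) (hqs : q ≠ s) (hrs : r ≠ s)
    (x : ℂ) (G : St κ → ℂ) : capK p q (Rt r s x G) = Rt r s x (capK p q G) := by
  funext M
  have sp : ∀ M : St κ, M.sw r s p = p ↔ M p = p := fun M => M.sw_fix hpr.symm hps.symm hpr.symm hps.symm
  have sq : ∀ M : St κ, M.sw r s q = q ↔ M q = q := fun M => M.sw_fix hqr.symm hqs.symm hqr.symm hqs.symm
  have spq : ∀ M : St κ, M.sw r s p = q ↔ M p = q := fun M => M.sw_fix hpr.symm hps.symm hqr.symm hqs.symm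
  have jp : ∀ M : St κ, M.jn r s p = M p := fun M => M.jn_fix hpr.symm hps.symm
  have jq : ∀ M : St κ, M.jn r s q = M q := fun M => M.jn_fix hqr.symm hqs.symm
  have cp' : ∀ M : St κ, M.cp r s p = p ↔ M p = p := fun M => M.cp_fix hrs hpr.symm hps.symm
  have cq' : ∀ M : St κ, M.cp r s q = q ↔ M q = q := fun M => M.cp_fix hrs hqr.symm hqs.symm
  by_cases hA : M p = p ∧ M q = q
  · rw [K0 _ hA.1 hA.2]
    have key : ∀ N : St κ, (N p = p ↔ M p = p) → (N q = q ↔ M q = q) → capK p q G N = G N := fun N h1 h2 =>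
      K0 G (h1.2 hA.1) (h2.2 hA.2)
    have k0 := key M Iff.rfl Iff.rfl
    have k1 := key (M.sw r s) (sp M) (sq M)
    have k2 := key (M.jn r s) (by rw [jp]) (by rw [jq])
    have k3 := key (M.cp r s) (cp' M) (cq' M)
    have k4 := key ((M.cp r s).jn r s) (by rw [jp]; exact cp' M) (by rw [jq]; exact cq' M)
    unfold Rt
    rw [k0, k1, k2, k3, k4]
  by_cases hB : M p = p ∨ M q = q
  · rw [Kz _ hB hA]
    have key : ∀ N : St κ, (N p = p ↔ M p = p) → (N q = q ↔ M q = q) → capK p q G N = 0 := fun N h1 h2 =>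
      Kz G (by rw [h1, h2]; exact hB) (by rw [h1, h2]; exact hA)
    have k0 := key M Iff.rfl Iff.rfl
    have k1 := key (M.sw r s) (sp M) (sq M)
    have k2 := key (M.jn r s) (by rw [jp]) (by rw [jq])
    have k3 := key (M.cp r s) (cp' M) (cq' M)
    have k4 := key ((M.cp r s).jn r s) (by rw [jp]; exact cp' M) (by rw [jq]; exact cq' M)
    unfold Rt
    rw [k0, k1, k2, k3, k4]
    split_ifs <;> ring
  by_cases hC : M p = q
  · rw [Ka _ hpq hC]
    have a3 : M.cp r s p = q := M.cp_arc hpr.symm hps.symm hqr.symm hqs.symm hC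
    have k0 := Ka G hpq hC
    have k1 := Ka G hpq ((spq M).2 hC)
    have k2 : capK p q G (M.jn r s) = 0 := Ka G hpq (by rw [jp]; exact hC)
    have k3 := Ka G hpq a3
    have k4 : capK p q G ((M.cp r s).jn r s) = 0 := Ka G hpq (by rw [jp]; exact a3)
    unfold Rt
    rw [k0, k1, k2, k3, k4]
    split_ifs <;> ring
  push Not at hB
  obtain ⟨hB1, hB2⟩ := hB
  rw [Kc _ hB1 hB2 hC]
  have key : ∀ N : St κ, (N p = p ↔ M p = p) → (N q = q ↔ M q = q) → N p ≠ q → capK p q G N = G (N.cp p q) :=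
    fun N h1 h2 h3 => Kc G (by rw [Ne, h1]; exact hB1) (by rw [Ne, h2]; exact hB2) h3
  have e_r : M r = r ↔ (M.cp p q) r = r := (M.cp_fix hpq hpr hqr).symm
  have e_s : M s = s ↔ (M.cp p q) s = s := (M.cp_fix hpq hps hqs).symm
  have k0 : capK p q G M = G (M.cp p q) := key M Iff.rfl Iff.rfl hC
  have k1 : capK p q G (M.sw r s) = G ((M.cp p q).sw r s) := by
    rw [key _ (sp M) (sq M) (by rw [Ne, spq]; exact hC), St.sw_cp _ hpr.symm hqr.symm hps.symm hqs.symm]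
  have k2 : capK p q G (M.jn r s) = G ((M.cp p q).jn r s) := by
    rw [key _ (by rw [jp]) (by rw [jq]) (by rw [jp]; exact hC),
      St.jn_cp _ hpr.symm hqr.symm hps.symm hqs.symm hpq]
  unfold Rt
  by_cases hr : (M.cp p q) r = r
  · by_cases hs : (M.cp p q) s = s
    · rw [if_pos hr, if_pos hs, if_pos (e_r.2 hr), if_pos (e_s.2 hs), k0, k2]
    · rw [if_pos hr, if_neg hs, if_pos (e_r.2 hr), if_neg (e_s.not.2 hs), k0, k1]
  by_cases hs : (M.cp p q) s = s
  · rw [if_neg hr, if_pos hs, if_neg (e_r.not.2 hr), if_pos (e_s.2 hs), k0, k1]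
  have hr' := e_r.not.2 hr
  have hs' := e_s.not.2 hs
  rw [if_neg hr, if_neg hs, if_neg hr', if_neg hs']
  by_cases hJ : M r = s
  · have hJ' : (M.cp p q) r = s := M.cp_arc hpr hqr hps hqs hJ
    rw [if_pos hJ, if_pos hJ', k0]
  have hiff : (M.cp p q) r = s ↔ (M.cp r s) p = q :=
    M.cp_join_iff hpq hpr hps hqr hqs hrs hB1 hB2 hr' hs' hC hJ
  rw [if_neg hJ, k1]
  by_cases hJ' : (M.cp p q) r = s
  · have a3 := hiff.1 hJ'
    have k3 := Ka G hpq a3
    have k4 : capK p q G ((M.cp r s).jn r s) = 0 := Ka G hpq (by rw [jp]; exact a3)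
    have k5 : (M.cp p q).sw r s = M.cp p q := by
      generalize M.cp p q = m at hJ'
      have hj2 : m s = r := by rw [← hJ']; simp
      ext y
      rw [St.sw_apply]
      by_cases h1 : y = r
      · subst h1; simp [hJ', hj2]
      by_cases h2 : y = s
      · subst h2; simp [hJ', hj2]
      rw [Equiv.swap_apply_of_ne_of_ne h1 h2, Equiv.swap_apply_of_ne_of_ne]
      · exact fun h => h2 (m.inj (h.trans hj2.symm))
      · exact fun h => h1 (m.inj (h.trans hJ'.symm))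
    rw [if_pos hJ', k3, k4, k5]
    ring
  · have k3 : capK p q G (M.cp r s) = G ((M.cp p q).cp r s) := by
      rw [key _ (cp' M) (cq' M) (hiff.not.1 hJ'), St.cp_cp _ hpq hpr hps hqr hqs hrs]
    have k4 : capK p q G ((M.cp r s).jn r s) = G (((M.cp p q).cp r s).jn r s) := by
      rw [key _ (by rw [jp]; exact cp' M) (by rw [jq]; exact cq' M) (by rw [jp]; exact hiff.not.1 hJ'),
        St.jn_cp _ hpr.symm hqr.symm hps.symm hqs.symm hpq, St.cp_cp _ hpq hpr hps hqr hqs hrs]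
    rw [if_neg hJ', k3, k4]

theorem capK_comm {p q r s : κ} (hpq : p ≠ q) (hpr : p ≠ r) (hps : p ≠ s) (hqr : q ≠ r) (hqs : q ≠ s) (hrs : r ≠ s)
    (G : St κ → ℂ) : capK p q (capK r s G) = capK r s (capK p q G) := by
  funext M
  have cp1 : M.cp r s p = p ↔ M p = p := M.cp_fix hrs hpr.symm hps.symm
  have cq1 : M.cp r s q = q ↔ M q = q := M.cp_fix hrs hqr.symm hqs.symm
  have cr1 : M.cp p q r = r ↔ M r = r := M.cp_fix hpq hpr hqr
  have cs1 : M.cp p q s = s ↔ M s = s := M.cp_fix hpq hps hqs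
  by_cases hA : M p = p ∧ M q = q
  · rw [K0 _ hA.1 hA.2]
    by_cases hA' : M r = r ∧ M s = s
    · rw [K0 _ hA'.1 hA'.2, K0 _ hA'.1 hA'.2, K0 _ hA.1 hA.2]
    by_cases hB' : M r = r ∨ M s = s
    · rw [Kz _ hB' hA', Kz _ hB' hA']
    by_cases hC' : M r = s
    · rw [Ka _ hrs hC', Ka _ hrs hC']
    push Not at hB'
    rw [Kc _ hB'.1 hB'.2 hC', Kc _ hB'.1 hB'.2 hC', K0 _ (cp1.2 hA.1) (cq1.2 hA.2)]
  by_cases hB : M p = p ∨ M q = q
  · rw [Kz _ hB hA]
    by_cases hA' : M r = r ∧ M s = s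
    · rw [K0 _ hA'.1 hA'.2, Kz _ hB hA]
    by_cases hB' : M r = r ∨ M s = s
    · rw [Kz _ hB' hA']
    by_cases hC' : M r = s
    · rw [Ka _ hrs hC']
    push Not at hB'
    rw [Kc _ hB'.1 hB'.2 hC', Kz _ (by rw [cp1, cq1]; exact hB) (by rw [cp1, cq1]; exact hA)]
  by_cases hC : M p = q
  · rw [Ka _ hpq hC]
    by_cases hA' : M r = r ∧ M s = s
    · rw [K0 _ hA'.1 hA'.2, Ka _ hpq hC]
    by_cases hB' : M r = r ∨ M s = s
    · rw [Kz _ hB' hA']
    by_cases hC' : M r = s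
    · rw [Ka _ hrs hC']
    push Not at hB'
    rw [Kc _ hB'.1 hB'.2 hC', Ka _ hpq (M.cp_arc hpr.symm hps.symm hqr.symm hqs.symm hC)]
  push Not at hB
  rw [Kc _ hB.1 hB.2 hC]
  by_cases hA' : M r = r ∧ M s = s
  · rw [K0 _ hA'.1 hA'.2, K0 _ (cr1.2 hA'.1) (cs1.2 hA'.2), Kc _ hB.1 hB.2 hC]
  by_cases hB' : M r = r ∨ M s = s
  · rw [Kz _ hB' hA', Kz _ (by rw [cr1, cs1]; exact hB') (by rw [cr1, cs1]; exact hA')]
  by_cases hC' : M r = s
  · rw [Ka _ hrs hC', Ka _ hrs (M.cp_arc hpr hqr hps hqs hC')]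
  push Not at hB'
  rw [Kc _ hB'.1 hB'.2 hC']
  have hiff : (M.cp p q) r = s ↔ (M.cp r s) p = q :=
    M.cp_join_iff hpq hpr hps hqr hqs hrs hB.1 hB.2 hB'.1 hB'.2 hC hC'
  by_cases hJ : (M.cp p q) r = s
  · rw [Ka _ hrs hJ, Ka _ hpq (hiff.1 hJ)]
  · rw [Kc _ (cr1.not.2 hB'.1) (cs1.not.2 hB'.2) hJ,
      Kc _ (cp1.not.2 hB.1) (cq1.not.2 hB.2) (hiff.not.1 hJ), St.cp_cp _ hpq hpr hps hqr hqs hrs]

theorem cupK_capK {p q r s : κ} (hpq : p ≠ q) (hpr : p ≠ r) (hps : p ≠ s) (hqr : q ≠ r) (hqs : q ≠ s) (hrs : r ≠ s)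
    (G : St κ → ℂ) {m : St κ} (hm : Em r s m) : cupK r s (capK p q G) m = capK p q (cupK r s G) m := by
  have jp : m.jn r s p = m p := m.jn_fix hpr.symm hps.symm
  have jq : m.jn r s q = m q := m.jn_fix hqr.symm hqs.symm
  show capK p q G m + capK p q G (m.jn r s) = capK p q (cupK r s G) m
  by_cases hA : m p = p ∧ m q = q
  · rw [K0 _ hA.1 hA.2, K0 _ hA.1 hA.2, K0 _ (by rw [jp]; exact hA.1) (by rw [jq]; exact hA.2)]
    rfl
  by_cases hB : m p = p ∨ m q = q
  · rw [Kz _ hB hA, Kz _ hB hA, Kz _ (by rw [jp, jq]; exact hB) (by rw [jp, jq]; exact hA), add_zero]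
  by_cases hC : m p = q
  · rw [Ka _ hpq hC, Ka _ hpq hC, Ka _ hpq (by rw [jp]; exact hC), add_zero]
  push Not at hB
  rw [Kc _ hB.1 hB.2 hC, Kc _ hB.1 hB.2 hC,
    Kc _ (by rw [jp]; exact hB.1) (by rw [jq]; exact hB.2) (by rw [jp]; exact hC),
    St.jn_cp _ hpr.symm hqr.symm hps.symm hqs.symm hpq]
  rfl

end Pool.Agent.CYL.Com
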