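import Pool.Agent.BEX.ARtt
import Pool.Agent.BEX.ACup

/-!
# CYL, part A, commutation of the transfer matrices: the operators on one label type

`capK p q`: closing the lines `p`, `q` (the state stays a state on `κ`).  `cupK p q`: opening.  `FoK s p l v U`: the line `p` crosses the lines `s i`, `i ∈ l`.
`TK`: the transfer matrix with the auxiliary line `p` and its other end `q`.
-/

namespace Pool.Agent.CYL.Com

open Complex Pool.Agent.BEX

variable {κ : Type*} [DecidableEq κ]

/-- closing the lines `p`, `q` -/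
noncomputable def capK (p q : κ) (G : St κ → ℂ) (m : St κ) : ℂ :=
  if m p = p then (if m q = q then G m else 0)
  else if m q = q then 0
  else if m p = q then 0
  else G (m.cp p q)

/-- opening the lines `p`, `q` -/
noncomputable def cupK (p q : κ) (G : St κ → ℂ) (m : St κ) : ℂ := G m + G (m.jn p q)

/-- the line `p` crosses the lines `s i` -/
noncomputable def FoK {ι : Type*} (s : ι → κ) (p : κ) (l : List ι) (v : ℂ) (U : ι → ℂ) (G : St κ → ℂ) : St κ → ℂ :=
  l.foldr (fun i G => Rt p (s i) (v - U i) G) G

/-- the transfer matrix with the auxiliary line `p - q` -/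
noncomputable def TK {ι : Type*} (s : ι → κ) (p q : κ) (l : List ι) (v : ℂ) (U : ι → ℂ) (G : St κ → ℂ) : St κ → ℂ :=
  cupK p q (FoK s p l v U (capK p q G))

/-- `p` and `q` are empty -/
def Em (p q : κ) (m : St κ) : Prop := m p = p ∧ m q = q

theorem FoK_nil {ι : Type*} (s : ι → κ) (p : κ) (v : ℂ) (U : ι → ℂ) (G : St κ → ℂ) : FoK s p [] v U G = G := rfl

theorem FoK_cons {ι : Type*} (s : ι → κ) (p : κ) (i : ι) (l : List ι) (v : ℂ) (U : ι → ℂ) (G : St κ → ℂ) :
    FoK s p (i :: l) v U G = Rt p (s i) (v - U i) (FoK s p l v U G) := rfl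

end Pool.Agent.CYL.Com
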