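import Mathlib
import Pool.Agent.CYL.Def
import Pool.Agent.CYL.A.ComYbe
import Pool.Agent.CYL.A.ComEmb

/-!
# CYL, part A: the transfer matrices commute
-/

namespace Pool.Agent.CYL.Com

open Complex Pool.Agent.BEX Filter Topology

variable {ι : Type*} [DecidableEq ι] [Fintype ι]

theorem aux_e4 : Aux (κ := ι ⊕ Fin 4) (Sum.inl : ι → ι ⊕ Fin 4) (Sum.inr 0) (Sum.inr 1) (Sum.inr 2) (Sum.inr 3) where
  inj := Sum.inl_injective
  pq := by simp
  pr := by simp
  pt := by simp
  qr := by simp
  qt := by simp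
  rt := by simp
  p' := by simp
  q' := by simp
  r' := by simp
  t' := by simp

theorem Tt_comm_mul (l : List ι) (hl : l.Nodup) (v v' : ℂ) (U : ι → ℂ) (F : St ι → ℂ) (m : St ι) :
    kk (v - v') * kk (v' - v) * Tt l v U (Tt l v' U F) m = kk (v - v') * kk (v' - v) * Tt l v' U (Tt l v U F) m := by
  have : Nonempty (St ι) := ⟨St.emp⟩
  set G : St (ι ⊕ Fin 4) → ℂ := fun n => F (Function.invFun e4 n) with hG
  have hF : F = fun n => G (e4 n) := by
    funext n
    rw [hG]
    simp only
    rw [Function.leftInverse_invFun e4_inj]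
  have t1 : ∀ (v : ℂ) (K : St (ι ⊕ Fin 4) → ℂ) (m : St ι),
      Tt l v U (fun n => K (e4 n)) m = TK Sum.inl (Sum.inr 0) (Sum.inr 1) l v U K (e4 m) := fun v K m =>
    (TK_e4 em1_inj Phi_em1 rfl l v U K m).symm
  have t2 : ∀ (v : ℂ) (K : St (ι ⊕ Fin 4) → ℂ) (m : St ι),
      Tt l v U (fun n => K (e4 n)) m = TK Sum.inl (Sum.inr 2) (Sum.inr 3) l v U K (e4 m) := fun v K m =>
    (TK_e4 em2_inj Phi_em2 rfl l v U K m).symm
  have h1 : Tt l v' U F = fun n => TK Sum.inl (Sum.inr 2) (Sum.inr 3) l v' U G (e4 n) := by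
    funext n
    rw [hF]
    exact t2 v' G n
  have h2 : Tt l v U F = fun n => TK Sum.inl (Sum.inr 0) (Sum.inr 1) l v U G (e4 n) := by
    funext n
    rw [hF]
    exact t1 v G n
  rw [h1, h2, t1, t2]
  exact TK_comm aux_e4 l hl v v' U G ⟨e4_inr m 0, e4_inr m 1⟩ ⟨e4_inr m 2, e4_inr m 3⟩

omit [Fintype ι] in
theorem cont_Fo {X : Type*} [TopologicalSpace X] (l : List ι) (U : ι → ℂ) (v : X → ℂ) (hv : Continuous v)
    (G : X → St (Option (Option ι)) → ℂ) (hG : ∀ m, Continuous fun x => G x m) (m : St (Option (Option ι))) :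
    Continuous fun x => Fo l (v x) U (G x) m := by
  induction l generalizing m with
  | nil => exact hG m
  | cons i l ih =>
    simp only [Fo_cons]
    exact continuous_Rt _ _ (fun x => v x - U i) (hv.sub continuous_const) _ (fun m => ih m) m

theorem cont_Tt {X : Type*} [TopologicalSpace X] (l : List ι) (U : ι → ℂ) (v : X → ℂ) (hv : Continuous v)
    (F : X → St ι → ℂ) (hF : ∀ m, Continuous fun x => F x m) (m : St ι) :
    Continuous fun x => Tt l (v x) U (F x) m := by
  have hc : ∀ n, Continuous fun x => capF (F x) n := by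
    intro n
    simp only [capF]
    split_ifs
    · exact hF _
    · exact continuous_const
    · exact continuous_const
    · exact continuous_const
    · exact hF _
  simp only [Tt_eq, cupF]
  exact (cont_Fo l U v hv _ hc _).add (cont_Fo l U v hv _ hc _)

theorem kk_ne_ev (v v' : ℂ) : ∀ᶠ z in 𝓝[≠] v, kk (z - v') * kk (v' - z) ≠ 0 := by
  have han : AnalyticOnNhd ℂ (fun z => kk (z - v') * kk (v' - z)) Set.univ := by
    have hd : Differentiable ℂ (fun z => kk (z - v') * kk (v' - z)) := by
      unfold kk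
      fun_prop
    exact fun z _ => hd.analyticAt z
  rcases (han v (Set.mem_univ v)).eventually_eq_zero_or_eventually_ne_zero with h | h
  · exfalso
    have h1 := han.eqOn_zero_of_preconnected_of_eventuallyEq_zero isPreconnected_univ (Set.mem_univ v) h
    have h2 := h1 (Set.mem_univ v')
    simp only [sub_self, Pi.zero_apply, mul_eq_zero, or_self] at h2
    have hs : ∀ k : ℝ, 0 < k → k < 8 → sin ((k : ℂ) * lam) ≠ 0 := by
      intro k hk hk8
      have e : (k : ℂ) * lam = ((k * (Real.pi / 8) : ℝ) : ℂ) := by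
        unfold lam
        push_cast
        ring
      rw [e, ← Complex.ofReal_sin, Complex.ofReal_ne_zero]
      refine (Real.sin_pos_of_pos_of_lt_pi (by positivity) ?_).ne'
      have := Real.pi_pos
      nlinarith
    have h3 : kk 0 ≠ 0 := by
      unfold kk
      rw [add_zero, add_zero]
      refine mul_ne_zero ?_ ?_
      · have := hs 2 (by norm_num) (by norm_num)
        push_cast at this
        exact this
      · have := hs 3 (by norm_num) (by norm_num)
        push_cast at this
        exact this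
    exact h3 h2
  · exact h

/-- **The transfer matrices commute.** -/
theorem Tt_comm (l : List ι) (hl : l.Nodup) (v v' : ℂ) (U : ι → ℂ) (F : St ι → ℂ) :
    Tt l v U (Tt l v' U F) = Tt l v' U (Tt l v U F) := by
  funext m
  have hc1 : Continuous fun z => Tt l z U (Tt l v' U F) m :=
    cont_Tt l U (fun z => z) continuous_id (fun _ => Tt l v' U F) (fun _ => continuous_const) m
  have hc2 : Continuous fun z => Tt l v' U (Tt l z U F) m :=
    cont_Tt l U (fun _ => v') continuous_const (fun z => Tt l z U F)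
      (fun n => cont_Tt l U (fun z => z) continuous_id (fun _ => F) (fun _ => continuous_const) n) m
  have h1 : Tendsto (fun z => Tt l z U (Tt l v' U F) m) (𝓝[≠] v) (𝓝 (Tt l v U (Tt l v' U F) m)) :=
    (hc1.tendsto v).mono_left nhdsWithin_le_nhds
  have h2 : Tendsto (fun z => Tt l v' U (Tt l z U F) m) (𝓝[≠] v) (𝓝 (Tt l v' U (Tt l v U F) m)) :=
    (hc2.tendsto v).mono_left nhdsWithin_le_nhds
  refine tendsto_nhds_unique h1 (h2.congr' ?_)
  filter_upwards [kk_ne_ev v v'] with z hz
  exact (mul_left_cancel₀ hz (Tt_comm_mul l hl z v' U F m)).symm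

end Pool.Agent.CYL.Com

namespace Pool.Agent.CYL

open Pool.Agent.BEX

theorem lns_nodup' (L l : ℕ) : (lns L l).Nodup := by
  unfold lns
  exact (List.nodup_finRange L).map Sum.inl_injective

/-- the transfer matrices commute, for all functions -/
theorem Tf_comm {L l : ℕ} (U : Fin L → ℂ) (v v' : ℂ) (F : Sts L l → ℂ) :
    Tf v U (Tf v' U F) = Tf v' U (Tf v U F) :=
  Com.Tt_comm (lns L l) (lns_nodup' L l) v v' (rap U) F

theorem comm (L l : ℕ) : Comm L l := fun U v v' F _ => Tf_comm U v v' F

end Pool.Agent.CYL
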