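import Pool.Agent.BEX.AProp

/-!
# CYL, part A: the scalar identities of the intertwining lemma (note 3178 of MP_8c6f77_pr, A2, A3, A4)

`r` is the difference `u - U i`. The weights at `r + 2 * lam` and `r + lam` are written with `s = sin lam`, `S = sin r`,
`C = cos r` (`cos lam = 3 s - 4 s ^ 3`, `8 s ^ 4 - 8 s ^ 2 + 1 = 0`); the coefficients are generated by a program. The
factor `1 / sin lam` of the defect is multiplied away.
-/

set_option linter.unusedSimpArgs false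

namespace Pool.Agent.CYL

open Complex
open Pool.Agent.BEX

theorem Ids_sn : sin lam ≠ 0 := by
  intro h
  have h1 : sin (2 * lam) = 0 := by rw [sin_two_mul, h]; ring
  rw [sin_2lam] at h1
  have h2 : (Real.sqrt 2 / 2 : ℝ) = 0 := by exact_mod_cast h1
  have h3 : (0 : ℝ) < Real.sqrt 2 / 2 := by positivity
  exact h3.ne' h2

theorem Ids_s4 : 8 * sin lam ^ 4 - 8 * sin lam ^ 2 + 1 = 0 := by
  have h1 : cos (2 * lam) ^ 2 = 1 / 2 := by
    rw [cos_2lam, ← ofReal_pow, div_pow, Real.sq_sqrt (by norm_num)]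
    push_cast
    norm_num
  have h2 : cos (2 * lam) = 1 - 2 * sin lam ^ 2 := by
    rw [cos_two_mul]
    linear_combination (2 : ℂ) * sin_sq_add_cos_sq lam
  rw [h2] at h1
  linear_combination (2 : ℂ) * h1

theorem Ids_cos : cos lam = 3 * sin lam - 4 * sin lam ^ 3 := by
  rw [← sin_3lam, Complex.sin_three_mul]

theorem Ids_s2 : sin (2 * lam) = 1 - 2 * sin lam ^ 2 := by
  rw [sin_2lam, ← cos_2lam, cos_two_mul]
  linear_combination (2 : ℂ) * sin_sq_add_cos_sq lam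

theorem Ids_cos2 : cos (2 * lam) = 1 - 2 * sin lam ^ 2 := by
  rw [cos_2lam, ← sin_2lam, Ids_s2]

theorem Ids_s3 : sin (3 * lam) = 3 * sin lam - 4 * sin lam ^ 3 := by
  rw [sin_3lam, Ids_cos]

theorem Ids_bb : bb ^ 2 = (1 - 2 * sin lam ^ 2) * sin lam := by
  rw [bb_sq, Ids_s2]

section

variable (r : ℂ)

theorem Ids_1p : sin (lam + r) = sin lam * cos r + (3 * sin lam - 4 * sin lam ^ 3) * sin r := by
  rw [sin_add, Ids_cos]

theorem Ids_1m : sin (lam - r) = sin lam * cos r - (3 * sin lam - 4 * sin lam ^ 3) * sin r := by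
  rw [sin_sub, Ids_cos]

theorem Ids_2p : sin (2 * lam + r) = (1 - 2 * sin lam ^ 2) * cos r + (1 - 2 * sin lam ^ 2) * sin r := by
  rw [sin_add, Ids_s2, Ids_cos2]

theorem Ids_2m : sin (2 * lam - r) = (1 - 2 * sin lam ^ 2) * cos r - (1 - 2 * sin lam ^ 2) * sin r := by
  rw [sin_sub, Ids_s2, Ids_cos2]

theorem Ids_3p : sin (3 * lam + r) = (3 * sin lam - 4 * sin lam ^ 3) * cos r + sin lam * sin r := by
  rw [sin_add, Ids_s3, cos_3lam]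

theorem Ids_3m : sin (3 * lam - r) = (3 * sin lam - 4 * sin lam ^ 3) * cos r - sin lam * sin r := by
  rw [sin_sub, Ids_s3, cos_3lam]

theorem Ids_4p : sin (4 * lam + r) = cos r := by
  rw [← Complex.sin_add_pi_div_two]
  congr 1
  unfold lam
  ring

theorem Ids_5p : sin (5 * lam + r) = sin (3 * lam - r) := by
  rw [← Complex.sin_pi_sub]
  congr 1
  unfold lam
  ring

/-! ### the weights at `r + 2 * lam` -/

theorem Ids_kk : kk (r + 2 * lam) = cos r * sin (3 * lam - r) := by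
  unfold kk
  rw [show 2 * lam + (r + 2 * lam) = 4 * lam + r by ring, show 3 * lam + (r + 2 * lam) = 5 * lam + r by ring,
    Ids_4p, Ids_5p]

theorem Ids_w2 : w2 (r + 2 * lam) = sin (2 * lam) * sin (lam - r) := by
  unfold w2
  rw [show 3 * lam - (r + 2 * lam) = lam - r by ring]

theorem Ids_w4 : w4 (r + 2 * lam) = sin (2 * lam) * sin (2 * lam + r) := by
  unfold w4
  rw [show r + 2 * lam = 2 * lam + r by ring]

theorem Ids_w6 : w6 (r + 2 * lam) = sin (2 * lam + r) * sin (lam - r) := by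
  unfold w6
  rw [show 3 * lam - (r + 2 * lam) = lam - r by ring, show r + 2 * lam = 2 * lam + r by ring]

theorem Ids_w8 : w8 (r + 2 * lam) = -(sin r * sin (lam - r)) := by
  unfold w8
  rw [show 3 * lam - (r + 2 * lam) = lam - r by ring, show 2 * lam - (r + 2 * lam) = -r by ring, sin_neg]
  ring

theorem Ids_w9 : w9 (r + 2 * lam) = sin (2 * lam + r) * sin (lam + r) := by
  unfold w9
  rw [show lam - (r + 2 * lam) = -(lam + r) by ring, show r + 2 * lam = 2 * lam + r by ring, sin_neg]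
  ring

/-! ### the weights at `r + lam` -/

theorem Ids_kk' : kk (r + lam) = sin (3 * lam + r) * cos r := by
  unfold kk
  rw [show 2 * lam + (r + lam) = 3 * lam + r by ring, show 3 * lam + (r + lam) = 4 * lam + r by ring, Ids_4p]

theorem Ids_w2' : w2 (r + lam) = sin (2 * lam) * sin (2 * lam - r) := by
  unfold w2
  rw [show 3 * lam - (r + lam) = 2 * lam - r by ring]

theorem Ids_w4' : w4 (r + lam) = sin (2 * lam) * sin (lam + r) := by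
  unfold w4
  rw [show r + lam = lam + r by ring]

theorem Ids_w6' : w6 (r + lam) = sin (lam + r) * sin (2 * lam - r) := by
  unfold w6
  rw [show 3 * lam - (r + lam) = 2 * lam - r by ring, show r + lam = lam + r by ring]

theorem Ids_w8' : w8 (r + lam) = sin (lam - r) * sin (2 * lam - r) := by
  unfold w8
  rw [show 3 * lam - (r + lam) = 2 * lam - r by ring, show 2 * lam - (r + lam) = lam - r by ring]

theorem Ids_w9' : w9 (r + lam) = sin r * sin (lam + r) := by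
  unfold w9
  rw [show lam - (r + lam) = -r by ring, show r + lam = lam + r by ring, sin_neg]
  ring


/-! ### the identities -/

theorem Ids_a00_0 : sin (2 * lam - r) * (2 * cos lam * kk (r + 2 * lam) * sin (lam + r) + sin (2 * lam) * w2 (r + 2 * lam)) =
    sin (2 * lam + r) * (2 * cos lam * kk (r + lam) * sin (lam - r) + sin (2 * lam) * w4 (r + lam)) := by
  simp only [Ids_bb, Ids_kk, Ids_w2, Ids_w4, Ids_w6, Ids_w8, Ids_w9, Ids_kk', Ids_w2', Ids_w4', Ids_w6', Ids_w8', Ids_w9',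
    Ids_1p, Ids_1m, Ids_2p, Ids_2m, Ids_3p, Ids_3m, Ids_s2, Ids_cos]
  linear_combination ((-8) * sin lam * sin r * cos r + 28 * sin lam ^ 3 * sin r * cos r + 24 * sin lam ^ 3 * sin r * cos r ^ 3 + (-24) * sin lam ^ 5 * sin r * cos r + (-80) * sin lam ^ 5 * sin r * cos r ^ 3 + 64 * sin lam ^ 7 * sin r * cos r ^ 3) * Ids_s4 + (36 * sin lam ^ 3 * sin r * cos r + (-168) * sin lam ^ 5 * sin r * cos r + 256 * sin lam ^ 7 * sin r * cos r + (-128) * sin lam ^ 9 * sin r * cos r) * sin_sq_add_cos_sq r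

theorem Ids_a00_c : sin (2 * lam - r) * (2 * cos lam * w4 (r + 2 * lam) * sin lam + w6 (r + 2 * lam) * sin (lam + r)) =
    sin (2 * lam + r) * (kk (r + lam) * sin (lam - r) + w4 (r + lam) * sin lam) := by
  simp only [Ids_bb, Ids_kk, Ids_w2, Ids_w4, Ids_w6, Ids_w8, Ids_w9, Ids_kk', Ids_w2', Ids_w4', Ids_w6', Ids_w8', Ids_w9',
    Ids_1p, Ids_1m, Ids_2p, Ids_2m, Ids_3p, Ids_3m, Ids_s2, Ids_cos]
  linear_combination ((-3) * sin lam ^ 2 * cos r ^ 2 + 6 * sin lam ^ 2 * cos r ^ 4 + (-1) * sin lam ^ 2 * sin r * cos r + 2 * sin lam ^ 2 * sin r * cos r ^ 3 + 10 * sin lam ^ 4 * cos r ^ 2 + (-20) * sin lam ^ 4 * cos r ^ 4 + 2 * sin lam ^ 4 * sin r * cos r + (-4) * sin lam ^ 4 * sin r * cos r ^ 3 + (-8) * sin lam ^ 6 * cos r ^ 2 + 16 * sin lam ^ 6 * cos r ^ 4) * Ids_s4 + ((-8) * sin lam ^ 2 * cos r ^ 2 + 3 * sin lam ^ 2 * sin r * cos r + 9 * sin lam ^ 2 * sin r ^ 2 + 74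 * sin lam ^ 4 * cos r ^ 2 + (-10) * sin lam ^ 4 * sin r * cos r + (-60) * sin lam ^ 4 * sin r ^ 2 + (-228) * sin lam ^ 6 * cos r ^ 2 + 8 * sin lam ^ 6 * sin r * cos r + 148 * sin lam ^ 6 * sin r ^ 2 + 288 * sin lam ^ 8 * cos r ^ 2 + (-160) * sin lam ^ 8 * sin r ^ 2 + (-128) * sin lam ^ 10 * cos r ^ 2 + 64 * sin lam ^ 10 * sin r ^ 2) * sin_sq_add_cos_sq r

theorem Ids_a0i_0 : sin (2 * lam - r) * (2 * cos lam * w6 (r + 2 * lam) * sin lam + w4 (r + 2 * lam) * sin (lam + r)) =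
    sin (2 * lam + r) * (w2 (r + lam) * sin (lam - r) + 2 * cos lam * w6 (r + lam) * sin lam) := by
  simp only [Ids_bb, Ids_kk, Ids_w2, Ids_w4, Ids_w6, Ids_w8, Ids_w9, Ids_kk', Ids_w2', Ids_w4', Ids_w6', Ids_w8', Ids_w9',
    Ids_1p, Ids_1m, Ids_2p, Ids_2m, Ids_3p, Ids_3m, Ids_s2, Ids_cos]
  linear_combination ((-6) * sin lam * sin r + 12 * sin lam * sin r * cos r ^ 2 + 32 * sin lam ^ 3 * sin r + (-64) * sin lam ^ 3 * sin r * cos r ^ 2 + (-56) * sin lam ^ 5 * sin r + 112 * sin lam ^ 5 * sin r * cos r ^ 2 + 32 * sin lam ^ 7 * sin r + (-64) * sin lam ^ 7 * sin r * cos r ^ 2) * Ids_s4 + ((-6) * sin lam * sin r + 80 * sin lam ^ 3 * sin r + (-360) * sin lam ^ 5 * sin r + 736 * sin lam ^ 7 * sin r + (-704) * sin lam ^ 9 * sin r + 256 * sin lam ^ 11 * sin r) * sin_sq_add_cos_sq r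

theorem Ids_a0i_g : sin (2 * lam - r) * (2 * cos lam * w2 (r + 2 * lam) * sin (lam + r) + sin (2 * lam) * w8 (r + 2 * lam)) =
    sin (2 * lam + r) * (w2 (r + lam) * sin (lam - r)) := by
  simp only [Ids_bb, Ids_kk, Ids_w2, Ids_w4, Ids_w6, Ids_w8, Ids_w9, Ids_kk', Ids_w2', Ids_w4', Ids_w6', Ids_w8', Ids_w9',
    Ids_1p, Ids_1m, Ids_2p, Ids_2m, Ids_3p, Ids_3m, Ids_s2, Ids_cos]
  linear_combination (5 * sin lam * cos r + (-6) * sin lam * cos r ^ 3 + (-6) * sin lam * sin r + 8 * sin lam * sin r * cos r ^ 2 + (-40) * sin lam ^ 3 * cos r + 44 * sin lam ^ 3 * cos r ^ 3 + 44 * sin lam ^ 3 * sin r + (-52) * sin lam ^ 3 * sin r * cos r ^ 2 + 116 * sin lam ^ 5 * cos r + (-120) * sin lam ^ 5 * cos r ^ 3 + (-120) * sin lam ^ 5 * sin r + 128 * sin lam ^ 5 * sin r * cos r ^ 2 + (-144) * sin lam ^ 7 * cos r + 144 * sin lam ^ 7 * cos r ^ 3 + 144 * sin lam ^ 7 * sin r + (-144)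 * sin lam ^ 7 * sin r * cos r ^ 2 + 64 * sin lam ^ 9 * cos r + (-64) * sin lam ^ 9 * cos r ^ 3 + (-64) * sin lam ^ 9 * sin r + 64 * sin lam ^ 9 * sin r * cos r ^ 2) * Ids_s4 + (5 * sin lam * cos r + (-6) * sin lam * sin r + (-80) * sin lam ^ 3 * cos r + 92 * sin lam ^ 3 * sin r + 476 * sin lam ^ 5 * cos r + (-520) * sin lam ^ 5 * sin r + (-1392) * sin lam ^ 7 * cos r + 1456 * sin lam ^ 7 * sin r + 2144 * sin lam ^ 9 * cos r + (-2176) * sin lam ^ 9 * sin r + (-1664) * sin lam ^ 11 * cos r + 1664 * sin lam ^ 11 * sin r + 512 * sin lam ^ 13 * cos r + (-512) * sin lam ^ 13 * sin r) * sin_sq_add_cos_sq r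

theorem Ids_a0i_c : sin (2 * lam - r) * w9 (r + 2 * lam) =
    sin (2 * lam + r) * w6 (r + lam) := by
  simp only [Ids_bb, Ids_kk, Ids_w2, Ids_w4, Ids_w6, Ids_w8, Ids_w9, Ids_kk', Ids_w2', Ids_w4', Ids_w6', Ids_w8', Ids_w9',
    Ids_1p, Ids_1m, Ids_2p, Ids_2m, Ids_3p, Ids_3m, Ids_s2, Ids_cos]
  ring

theorem Ids_aa0_0 : sin (2 * lam - r) * (w2 (r + 2 * lam) * sin lam + kk (r + 2 * lam) * sin (lam + r)) =
    sin (2 * lam + r) * (2 * cos lam * w2 (r + lam) * sin lam + w6 (r + lam) * sin (lam - r)) := by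
  simp only [Ids_bb, Ids_kk, Ids_w2, Ids_w4, Ids_w6, Ids_w8, Ids_w9, Ids_kk', Ids_w2', Ids_w4', Ids_w6', Ids_w8', Ids_w9',
    Ids_1p, Ids_1m, Ids_2p, Ids_2m, Ids_3p, Ids_3m, Ids_s2, Ids_cos]
  linear_combination (3 * sin lam ^ 2 * cos r ^ 2 + (-6) * sin lam ^ 2 * cos r ^ 4 + (-1) * sin lam ^ 2 * sin r * cos r + 2 * sin lam ^ 2 * sin r * cos r ^ 3 + (-10) * sin lam ^ 4 * cos r ^ 2 + 20 * sin lam ^ 4 * cos r ^ 4 + 2 * sin lam ^ 4 * sin r * cos r + (-4) * sin lam ^ 4 * sin r * cos r ^ 3 + 8 * sin lam ^ 6 * cos r ^ 2 + (-16) * sin lam ^ 6 * cos r ^ 4) * Ids_s4 + (8 * sin lam ^ 2 * cos r ^ 2 + 3 * sin lam ^ 2 * sin r * cos r + (-9) * sin lam ^ 2 * sin r ^ 2 + (-74) * sin lam ^ 4 * cos r ^ 2 + (-10) * sin lam ^ 4 * sin r * cos r + 60 * sin lam ^ 4 * sin r ^ 2 + 228 * sin lam ^ 6 * cos r ^ 2 + 8 * sin lam ^ 6 * sin r * cos r + (-148) * sin lam ^ 6 * sin r ^ 2 + (-288)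 * sin lam ^ 8 * cos r ^ 2 + 160 * sin lam ^ 8 * sin r ^ 2 + 128 * sin lam ^ 10 * cos r ^ 2 + (-64) * sin lam ^ 10 * sin r ^ 2) * sin_sq_add_cos_sq r

theorem Ids_aa0_a : sin (2 * lam - r) * (w6 (r + 2 * lam) * sin (lam + r)) =
    sin (2 * lam + r) * (w6 (r + lam) * sin (lam - r)) := by
  simp only [Ids_bb, Ids_kk, Ids_w2, Ids_w4, Ids_w6, Ids_w8, Ids_w9, Ids_kk', Ids_w2', Ids_w4', Ids_w6', Ids_w8', Ids_w9',
    Ids_1p, Ids_1m, Ids_2p, Ids_2m, Ids_3p, Ids_3m, Ids_s2, Ids_cos]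
  ring

theorem Ids_aa0_c : sin (2 * lam - r) * w4 (r + 2 * lam) =
    sin (2 * lam + r) * w2 (r + lam) := by
  simp only [Ids_bb, Ids_kk, Ids_w2, Ids_w4, Ids_w6, Ids_w8, Ids_w9, Ids_kk', Ids_w2', Ids_w4', Ids_w6', Ids_w8', Ids_w9',
    Ids_1p, Ids_1m, Ids_2p, Ids_2m, Ids_3p, Ids_3m, Ids_s2, Ids_cos]
  ring

theorem Ids_aai_0 : sin (2 * lam - r) * (w4 (r + 2 * lam) * sin (lam + r)) =
    sin (2 * lam + r) * (2 * cos lam * w4 (r + lam) * sin (lam - r) + sin (2 * lam) * w9 (r + lam)) := by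
  simp only [Ids_bb, Ids_kk, Ids_w2, Ids_w4, Ids_w6, Ids_w8, Ids_w9, Ids_kk', Ids_w2', Ids_w4', Ids_w6', Ids_w8', Ids_w9',
    Ids_1p, Ids_1m, Ids_2p, Ids_2m, Ids_3p, Ids_3m, Ids_s2, Ids_cos]
  linear_combination ((-5) * sin lam * cos r + 6 * sin lam * cos r ^ 3 + (-6) * sin lam * sin r + 8 * sin lam * sin r * cos r ^ 2 + 40 * sin lam ^ 3 * cos r + (-44) * sin lam ^ 3 * cos r ^ 3 + 44 * sin lam ^ 3 * sin r + (-52) * sin lam ^ 3 * sin r * cos r ^ 2 + (-116) * sin lam ^ 5 * cos r + 120 * sin lam ^ 5 * cos r ^ 3 + (-120) * sin lam ^ 5 * sin r + 128 * sin lam ^ 5 * sin r * cos r ^ 2 + 144 * sin lam ^ 7 * cos r + (-144) * sin lam ^ 7 * cos r ^ 3 + 144 * sin lam ^ 7 * sin r + (-144) * sin lam ^ 7 * sin r * cos r ^ 2 + (-64) * sin lam ^ 9 * cos r + 64 * sin lam ^ 9 * cos r ^ 3 + (-64) * sin lam ^ 9 * sin r + 64 * sin lam ^ 9 * sin r * cos r ^ 2) * Ids_s4 + ((-5) * sin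 lam * cos r + (-6) * sin lam * sin r + 80 * sin lam ^ 3 * cos r + 92 * sin lam ^ 3 * sin r + (-476) * sin lam ^ 5 * cos r + (-520) * sin lam ^ 5 * sin r + 1392 * sin lam ^ 7 * cos r + 1456 * sin lam ^ 7 * sin r + (-2144) * sin lam ^ 9 * cos r + (-2176) * sin lam ^ 9 * sin r + 1664 * sin lam ^ 11 * cos r + 1664 * sin lam ^ 11 * sin r + (-512) * sin lam ^ 13 * cos r + (-512) * sin lam ^ 13 * sin r) * sin_sq_add_cos_sq r

theorem Ids_aai_c : sin (2 * lam - r) * w6 (r + 2 * lam) =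
    sin (2 * lam + r) * w8 (r + lam) := by
  simp only [Ids_bb, Ids_kk, Ids_w2, Ids_w4, Ids_w6, Ids_w8, Ids_w9, Ids_kk', Ids_w2', Ids_w4', Ids_w6', Ids_w8', Ids_w9',
    Ids_1p, Ids_1m, Ids_2p, Ids_2m, Ids_3p, Ids_3m, Ids_s2, Ids_cos]
  ring

theorem Ids_aai_g : sin (2 * lam - r) * (w8 (r + 2 * lam) * sin lam + w2 (r + 2 * lam) * sin (lam + r)) =
    sin (2 * lam + r) * w8 (r + lam) * sin lam := by
  simp only [Ids_bb, Ids_kk, Ids_w2, Ids_w4, Ids_w6, Ids_w8, Ids_w9, Ids_kk', Ids_w2', Ids_w4', Ids_w6', Ids_w8', Ids_w9',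
    Ids_1p, Ids_1m, Ids_2p, Ids_2m, Ids_3p, Ids_3m, Ids_s2, Ids_cos]
  linear_combination ((-4) * sin lam ^ 2 * cos r + 4 * sin lam ^ 2 * cos r ^ 3 + 3 * sin lam ^ 2 * sin r + (-2) * sin lam ^ 2 * sin r * cos r ^ 2 + 12 * sin lam ^ 4 * cos r + (-12) * sin lam ^ 4 * cos r ^ 3 + (-10) * sin lam ^ 4 * sin r + 8 * sin lam ^ 4 * sin r * cos r ^ 2 + (-8) * sin lam ^ 6 * cos r + 8 * sin lam ^ 6 * cos r ^ 3 + 8 * sin lam ^ 6 * sin r + (-8) * sin lam ^ 6 * sin r * cos r ^ 2) * Ids_s4 + ((-4) * sin lam ^ 2 * cos r + 3 * sin lam ^ 2 * sin r + 44 * sin lam ^ 4 * cos r + (-34) * sin lam ^ 4 * sin r + (-136) * sin lam ^ 6 * cos r + 112 * sin lam ^ 6 * sin r + 160 * sin lam ^ 8 * cos r + (-144) * sin lam ^ 8 * sin r + (-64) * sin lam ^ 10 * cos r + 64 * sin lam ^ 10 * sin r) * sin_sq_add_cos_sq r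

theorem Ids_aai_j : sin (2 * lam - r) * w9 (r + 2 * lam) * sin lam =
    sin (2 * lam + r) * (w9 (r + lam) * sin lam + w4 (r + lam) * sin (lam - r)) := by
  simp only [Ids_bb, Ids_kk, Ids_w2, Ids_w4, Ids_w6, Ids_w8, Ids_w9, Ids_kk', Ids_w2', Ids_w4', Ids_w6', Ids_w8', Ids_w9',
    Ids_1p, Ids_1m, Ids_2p, Ids_2m, Ids_3p, Ids_3m, Ids_s2, Ids_cos]
  linear_combination (4 * sin lam ^ 2 * cos r + (-4) * sin lam ^ 2 * cos r ^ 3 + 3 * sin lam ^ 2 * sin r + (-2) * sin lam ^ 2 * sin r * cos r ^ 2 + (-12) * sin lam ^ 4 * cos r + 12 * sin lam ^ 4 * cos r ^ 3 + (-10) * sin lam ^ 4 * sin r + 8 * sin lam ^ 4 * sin r * cos r ^ 2 + 8 * sin lam ^ 6 * cos r + (-8) * sin lam ^ 6 * cos r ^ 3 + 8 * sin lam ^ 6 * sin r + (-8) * sin lam ^ 6 * sin r * cos r ^ 2) * Ids_s4 + (4 * sin lam ^ 2 * cos r + 3 * sin lam ^ 2 * sin r + (-44) * sin lam ^ 4 * cos r + (-34) * sin lam ^ 4 * sin r +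 136 * sin lam ^ 6 * cos r + 112 * sin lam ^ 6 * sin r + (-160) * sin lam ^ 8 * cos r + (-144) * sin lam ^ 8 * sin r + 64 * sin lam ^ 10 * cos r + 64 * sin lam ^ 10 * sin r) * sin_sq_add_cos_sq r

theorem Ids_b1 : -(kk (r + 2 * lam) * sin lam * sin (lam + r)) + w4 (r + 2 * lam) * bb ^ 2 =
    -(sin r * sin (lam - r)) * (sin lam * sin (3 * lam + r)) := by
  simp only [Ids_bb, Ids_kk, Ids_w2, Ids_w4, Ids_w6, Ids_w8, Ids_w9, Ids_kk', Ids_w2', Ids_w4', Ids_w6', Ids_w8', Ids_w9',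
    Ids_1p, Ids_1m, Ids_2p, Ids_2m, Ids_3p, Ids_3m, Ids_s2, Ids_cos]
  linear_combination (1 * sin lam * cos r + 1 * sin lam * sin r + (-3) * sin lam ^ 3 * cos r + 2 * sin lam ^ 3 * cos r ^ 3 + (-1) * sin lam ^ 3 * sin r + (-2) * sin lam ^ 3 * sin r * cos r ^ 2) * Ids_s4 + ((-5) * sin lam ^ 3 * cos r + (-3) * sin lam ^ 3 * sin r + 20 * sin lam ^ 5 * cos r + 4 * sin lam ^ 5 * sin r + (-16) * sin lam ^ 7 * cos r) * sin_sq_add_cos_sq r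

theorem Ids_b2 : -(w2 (r + 2 * lam) * sin lam) + w6 (r + 2 * lam) * sin (lam + r) =
    sin r * sin (lam - r) * sin (3 * lam + r) := by
  simp only [Ids_bb, Ids_kk, Ids_w2, Ids_w4, Ids_w6, Ids_w8, Ids_w9, Ids_kk', Ids_w2', Ids_w4', Ids_w6', Ids_w8', Ids_w9',
    Ids_1p, Ids_1m, Ids_2p, Ids_2m, Ids_3p, Ids_3m, Ids_s2, Ids_cos]
  linear_combination ((-2) * sin lam ^ 2 * cos r + 2 * sin lam ^ 2 * cos r ^ 3 + (-3) * sin lam ^ 2 * sin r + 4 * sin lam ^ 2 * sin r * cos r ^ 2 + 4 * sin lam ^ 4 * cos r + (-4) * sin lam ^ 4 * cos r ^ 3 + 4 * sin lam ^ 4 * sin r + (-4) * sin lam ^ 4 * sin r * cos r ^ 2) * Ids_s4 + ((-1) * sin lam ^ 2 * cos r + (-6) * sin lam ^ 2 * sin r + 18 * sin lam ^ 4 * cos r + 38 * sin lam ^ 4 * sin r + (-48) * sin lam ^ 6 * cos r + (-64) * sin lam ^ 6 * sin r + 32 * sin lam ^ 8 * cos r + 32 * sin lam ^ 8 * sin r) * sin_sq_add_cos_sq r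

theorem Ids_b3 : w2 (r + 2 * lam) * sin (lam + r) - w6 (r + 2 * lam) * sin lam =
    sin r * sin (lam - r) * sin lam := by
  simp only [Ids_bb, Ids_kk, Ids_w2, Ids_w4, Ids_w6, Ids_w8, Ids_w9, Ids_kk', Ids_w2', Ids_w4', Ids_w6', Ids_w8', Ids_w9',
    Ids_1p, Ids_1m, Ids_2p, Ids_2m, Ids_3p, Ids_3m, Ids_s2, Ids_cos]
  linear_combination ((-3) * sin lam ^ 2 + 3 * sin lam ^ 2 * cos r ^ 2 + 1 * sin lam ^ 2 * sin r * cos r + 4 * sin lam ^ 4 + (-4) * sin lam ^ 4 * cos r ^ 2) * Ids_s4 + ((-3) * sin lam ^ 2 + 28 * sin lam ^ 4 + (-56) * sin lam ^ 6 + 32 * sin lam ^ 8) * sin_sq_add_cos_sq r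

theorem Ids_b4 : w8 (r + 2 * lam) =
    -(sin r * sin (lam - r)) := by
  simp only [Ids_bb, Ids_kk, Ids_w2, Ids_w4, Ids_w6, Ids_w8, Ids_w9, Ids_kk', Ids_w2', Ids_w4', Ids_w6', Ids_w8', Ids_w9',
    Ids_1p, Ids_1m, Ids_2p, Ids_2m, Ids_3p, Ids_3m, Ids_s2, Ids_cos]
  

theorem Ids_b5 : w9 (r + 2 * lam) * bb ^ 2 - w4 (r + 2 * lam) * sin lam * sin (lam + r) =
    0 := by
  simp only [Ids_bb, Ids_kk, Ids_w2, Ids_w4, Ids_w6, Ids_w8, Ids_w9, Ids_kk', Ids_w2', Ids_w4', Ids_w6', Ids_w8', Ids_w9',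
    Ids_1p, Ids_1m, Ids_2p, Ids_2m, Ids_3p, Ids_3m, Ids_s2, Ids_cos]
  ring

theorem Ids_c1 : kk (r + lam) * sin (lam - r) - sin (2 * lam) * w2 (r + lam) =
    -(sin r * sin (lam + r) * sin (3 * lam - r)) := by
  simp only [Ids_bb, Ids_kk, Ids_w2, Ids_w4, Ids_w6, Ids_w8, Ids_w9, Ids_kk', Ids_w2', Ids_w4', Ids_w6', Ids_w8', Ids_w9',
    Ids_1p, Ids_1m, Ids_2p, Ids_2m, Ids_3p, Ids_3m, Ids_s2, Ids_cos]
  linear_combination ((-1) * cos r + 1 * sin r + 3 * sin lam ^ 2 * cos r + (-2) * sin lam ^ 2 * cos r ^ 3 + (-1) * sin lam ^ 2 * sin r + (-2) * sin lam ^ 2 * sin r * cos r ^ 2) * Ids_s4 + (5 * sin lam ^ 2 * cos r + (-3) * sin lam ^ 2 * sin r + (-20) * sin lam ^ 4 * cos r + 4 * sin lam ^ 4 * sin r + 16 * sin lam ^ 6 * cos r) * sin_sq_add_cos_sq r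

theorem Ids_c2 : w4 (r + lam) * sin lam - w6 (r + lam) * sin (lam - r) =
    sin r * sin (lam + r) * sin (3 * lam - r) := by
  simp only [Ids_bb, Ids_kk, Ids_w2, Ids_w4, Ids_w6, Ids_w8, Ids_w9, Ids_kk', Ids_w2', Ids_w4', Ids_w6', Ids_w8', Ids_w9',
    Ids_1p, Ids_1m, Ids_2p, Ids_2m, Ids_3p, Ids_3m, Ids_s2, Ids_cos]
  linear_combination (2 * sin lam ^ 2 * cos r + (-2) * sin lam ^ 2 * cos r ^ 3 + (-3) * sin lam ^ 2 * sin r + 4 * sin lam ^ 2 * sin r * cos r ^ 2 + (-4) * sin lam ^ 4 * cos r + 4 * sin lam ^ 4 * cos r ^ 3 + 4 * sin lam ^ 4 * sin r + (-4) * sin lam ^ 4 * sin r * cos r ^ 2) * Ids_s4 + (1 * sin lam ^ 2 * cos r + (-6) * sin lam ^ 2 * sin r + (-18) * sin lam ^ 4 * cos r + 38 * sin lam ^ 4 * sin r + 48 * sin lam ^ 6 * cos r + (-64) * sin lam ^ 6 * sin r + (-32) * sin lam ^ 8 * cos r + 32 * sin lam ^ 8 * sin r) * sin_sq_add_cos_sq r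

theorem Ids_c3 : w6 (r + lam) * sin lam - w4 (r + lam) * sin (lam - r) =
    sin r * sin (lam + r) * sin lam := by
  simp only [Ids_bb, Ids_kk, Ids_w2, Ids_w4, Ids_w6, Ids_w8, Ids_w9, Ids_kk', Ids_w2', Ids_w4', Ids_w6', Ids_w8', Ids_w9',
    Ids_1p, Ids_1m, Ids_2p, Ids_2m, Ids_3p, Ids_3m, Ids_s2, Ids_cos]
  linear_combination (3 * sin lam ^ 2 + (-3) * sin lam ^ 2 * cos r ^ 2 + 1 * sin lam ^ 2 * sin r * cos r + (-4) * sin lam ^ 4 + 4 * sin lam ^ 4 * cos r ^ 2) * Ids_s4 + (3 * sin lam ^ 2 + (-28) * sin lam ^ 4 + 56 * sin lam ^ 6 + (-32) * sin lam ^ 8) * sin_sq_add_cos_sq r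

theorem Ids_c4 : w2 (r + lam) * sin (lam - r) - sin (2 * lam) * w8 (r + lam) =
    0 := by
  simp only [Ids_bb, Ids_kk, Ids_w2, Ids_w4, Ids_w6, Ids_w8, Ids_w9, Ids_kk', Ids_w2', Ids_w4', Ids_w6', Ids_w8', Ids_w9',
    Ids_1p, Ids_1m, Ids_2p, Ids_2m, Ids_3p, Ids_3m, Ids_s2, Ids_cos]
  ring

theorem Ids_c5 : w9 (r + lam) =
    sin r * sin (lam + r) := by
  simp only [Ids_bb, Ids_kk, Ids_w2, Ids_w4, Ids_w6, Ids_w8, Ids_w9, Ids_kk', Ids_w2', Ids_w4', Ids_w6', Ids_w8', Ids_w9',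
    Ids_1p, Ids_1m, Ids_2p, Ids_2m, Ids_3p, Ids_3m, Ids_s2, Ids_cos]
  

end

end Pool.Agent.CYL
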