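import Pool.Agent.CYL.A.Alg
import Pool.Agent.CYL.A.Trig

/-!
# CYL, part A: the defect on the auxiliary line intertwines (lemma A2 of note 3178)

Proof of `Dd_Nr`: cases `f a` empty / leg, `f i` empty / leg, `f a = some i`; unfold `Nr`, `DdA`;
the occupancies of the new states by the lemmas of Alg, the equalities `kil_ctl`, `cap_ctl`,
`kil_swp`, `kil_kil`; then `linear_combination` with the identities `ti1 .. ti12` (and `bb_ga`).
-/

namespace Pool.Agent.CYL

open Pool.Agent.BEX Complex RS

theorem Dd_Nr {Y : Type*} [DecidableEq Y] {a i : Y} (hai : a ≠ i) (r : ℂ) (H : RS Y → ℂ) (f : RS Y) :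
    sin (2 * lam - r) * DdA a (Nr a i (r + 2 * lam) (sin (lam + r)) H) f =
      sin (2 * lam + r) * Nr a i (r + lam) (sin (lam - r)) (DdA a H) f := by
  have hs := sin_lam_ne
  have hb : bb ^ 2 = sin (2 * lam) * sin lam := bb_sq
  have hp : 2 * cos lam * sin lam = sin (2 * lam) := by rw [sin_two_mul]; ring
  have hia : i ≠ a := Ne.symm hai
  by_cases ha : f a = some a
  · have hca : (f.ctl a) a ≠ some a := by rw [ctl_self]; simp
    have hci : (f.ctl a) i = some i ↔ f i = some i := ctl_emp hia f
    by_cases hi : f i = some i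
    · -- `a` and `i` empty
      have h1 : DdA a (Nr a i (r + 2 * lam) (sin (lam + r)) H) f =
          2 * cos lam * (kk (r + 2 * lam) * sin (lam + r) * H f + w4 (r + 2 * lam) * bb * H (f.ctl a)) +
          bb / sin lam * (w6 (r + 2 * lam) * sin (lam + r) * H (f.ctl a) + w2 (r + 2 * lam) * bb * H f) := by
        rw [DdA, if_pos ha, Nr, if_pos ha, if_pos hi, Nr, if_neg hca, if_pos (hci.2 hi), kil_ctl ha]
      have h2 : Nr a i (r + lam) (sin (lam - r)) (DdA a H) f =
          kk (r + lam) * sin (lam - r) * (2 * cos lam * H f + bb / sin lam * H (f.ctl a)) +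
          w4 (r + lam) * bb * (H (f.ctl a) + bb / sin lam * H f) := by
        rw [Nr, if_pos ha, if_pos hi, DdA, if_pos ha, DdA, if_neg hca, kil_ctl ha]
      rw [h1, h2]
      have e1 := ti1 r
      have e2 := ti2 r
      field_simp
      linear_combination (sin lam * H f) * e1 + (bb * H (f.ctl a)) * e2 +
        (H f * (sin (2 * lam - r) * w2 (r + 2 * lam) - sin (2 * lam + r) * w4 (r + lam))) * hb +
        (sin (2 * lam - r) * w4 (r + 2 * lam) * bb * H (f.ctl a)) * hp
    · -- `a` empty, `i` a leg
      have hsa : (f.swp a i) a ≠ some a := fun h => hi ((swp_emp_left a i f).1 h)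
      have hka : (f.kil i) a = some a := by
        rw [kil_apply, if_neg hai, ha, if_neg (fun h => hai (Option.some.inj h))]
      have hni : (f.ctl a) a ≠ some i := by rw [ctl_self]; simp
      have h1 : DdA a (Nr a i (r + 2 * lam) (sin (lam + r)) H) f =
          2 * cos lam * (w2 (r + 2 * lam) * sin (lam + r) * H (f.swp a i) + w6 (r + 2 * lam) * bb * H (f.kil i)) +
          bb / sin lam * (w8 (r + 2 * lam) * bb * H (f.swp a i) + w4 (r + 2 * lam) * sin (lam + r) * H (f.kil i) +
            w9 (r + 2 * lam) * bb * H ((f.kil i).ctl a)) := by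
        rw [DdA, if_pos ha, Nr, if_pos ha, if_neg hi, Nr, if_neg hca, if_neg (fun h => hi (hci.1 h)), if_neg hni,
          kil_ctl ha, cap_ctl hai ha]
      have h2 : Nr a i (r + lam) (sin (lam - r)) (DdA a H) f =
          w2 (r + lam) * sin (lam - r) * (H (f.swp a i) + bb / sin lam * H (f.kil i)) +
          w6 (r + lam) * bb * (2 * cos lam * H (f.kil i) + bb / sin lam * H ((f.kil i).ctl a)) := by
        rw [Nr, if_pos ha, if_neg hi, DdA, if_neg hsa, DdA, if_pos hka, kil_swp ha]
      rw [h1, h2]
      have e1 := ti4 r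
      have e2 := ti3 r
      have e3 := ti5 r
      field_simp
      linear_combination (sin lam * H (f.swp a i)) * e1 + (bb * H (f.kil i)) * e2 +
        (bb ^ 2 * H ((f.kil i).ctl a)) * e3 +
        (H (f.swp a i) * (sin (2 * lam - r) * w8 (r + 2 * lam))) * hb +
        (bb * H (f.kil i) * (sin (2 * lam - r) * w6 (r + 2 * lam) - sin (2 * lam + r) * w6 (r + lam))) * hp
  · have hka : (f.kil a) a = some a := kil_self a f
    by_cases hi : f i = some i
    · -- `a` a leg, `i` empty
      have hki : (f.kil a) i = some i := by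
        rw [kil_apply, if_neg hia, hi, if_neg (fun h => hia (Option.some.inj h))]
      have h1 : DdA a (Nr a i (r + 2 * lam) (sin (lam + r)) H) f =
          (w6 (r + 2 * lam) * sin (lam + r) * H f + w2 (r + 2 * lam) * bb * H (f.kil a)) +
          bb / sin lam * (kk (r + 2 * lam) * sin (lam + r) * H (f.kil a) +
            w4 (r + 2 * lam) * bb * H ((f.kil a).ctl a)) := by
        rw [DdA, if_neg ha, Nr, if_neg ha, if_pos hi, Nr, if_pos hka, if_pos hki]
      have h2 : Nr a i (r + lam) (sin (lam - r)) (DdA a H) f =
          w6 (r + lam) * sin (lam - r) * (H f + bb / sin lam * H (f.kil a)) +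
          w2 (r + lam) * bb * (2 * cos lam * H (f.kil a) + bb / sin lam * H ((f.kil a).ctl a)) := by
        rw [Nr, if_neg ha, if_pos hi, DdA, if_neg ha, DdA, if_pos hka]
      rw [h1, h2]
      have e1 := ti7 r
      have e2 := ti6 r
      have e3 := ti8 r
      field_simp
      linear_combination (sin lam * H f) * e1 + (bb * H (f.kil a)) * e2 +
        (bb ^ 2 * H ((f.kil a).ctl a)) * e3 - (sin (2 * lam + r) * w2 (r + lam) * bb * H (f.kil a)) * hp
    · have hki : (f.kil a) i ≠ some i := by
        rw [kil_apply, if_neg hia]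
        by_cases h : f i = some a
        · rw [if_pos h]; simp
        · rw [if_neg h]; exact hi
      have hsa : ((f.kil a).swp a i) a ≠ some a := fun h => hki ((swp_emp_left a i _).1 h)
      have hks : ((f.kil a).swp a i).kil a = (f.kil a).kil i := kil_swp hka
      by_cases hj : f a = some i
      · -- joined
        have h1 : DdA a (Nr a i (r + 2 * lam) (sin (lam + r)) H) f =
            w8 (r + 2 * lam) * bb * H ((f.kil a).swp a i) +
            bb / sin lam * (w2 (r + 2 * lam) * sin (lam + r) * H ((f.kil a).swp a i) +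
              w6 (r + 2 * lam) * bb * H ((f.kil a).kil i)) := by
          rw [DdA, if_neg ha, Nr, if_neg ha, if_neg hi, if_pos hj, Nr, if_pos hka, if_neg hki]
        have h2 : Nr a i (r + lam) (sin (lam - r)) (DdA a H) f =
            w8 (r + lam) * bb * (H ((f.kil a).swp a i) + bb / sin lam * H ((f.kil a).kil i)) := by
          rw [Nr, if_neg ha, if_neg hi, if_pos hj, DdA, if_neg hsa, hks]
        rw [h1, h2]
        have e1 := ti11 r
        have e2 := ti10 r
        field_simp
        linear_combination (bb * H ((f.kil a).swp a i)) * e1 + (bb ^ 2 * H ((f.kil a).kil i)) * e2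
      · have hcc : ((f.cap a i).ctl a) a ≠ some a := by rw [ctl_self]; simp
        have h1 : DdA a (Nr a i (r + 2 * lam) (sin (lam + r)) H) f =
            (w8 (r + 2 * lam) * bb * H ((f.kil a).swp a i) + w4 (r + 2 * lam) * sin (lam + r) * H (f.cap a i) +
              w9 (r + 2 * lam) * bb * H ((f.cap a i).ctl a)) +
            bb / sin lam * (w2 (r + 2 * lam) * sin (lam + r) * H ((f.kil a).swp a i) +
              w6 (r + 2 * lam) * bb * H ((f.kil a).kil i)) := by
          rw [DdA, if_neg ha, Nr, if_neg ha, if_neg hi, if_neg hj, Nr, if_pos hka, if_neg hki]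
        have h2 : Nr a i (r + lam) (sin (lam - r)) (DdA a H) f =
            w8 (r + lam) * bb * (H ((f.kil a).swp a i) + bb / sin lam * H ((f.kil a).kil i)) +
            w4 (r + lam) * sin (lam - r) * (2 * cos lam * H (f.cap a i) + bb / sin lam * H ((f.cap a i).ctl a)) +
            w9 (r + lam) * bb * (H ((f.cap a i).ctl a) + bb / sin lam * H (f.cap a i)) := by
          rw [Nr, if_neg ha, if_neg hi, if_neg hj, DdA, if_neg hsa, hks, DdA, if_pos (cap_left a i f), DdA,
            if_neg hcc, kil_ctl (cap_left a i f)]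
        rw [h1, h2]
        have e1 := ti11 r
        have e2 := ti10 r
        have e3 := ti9 r
        have e4 := ti12 r
        field_simp
        linear_combination (bb * H ((f.kil a).swp a i)) * e1 + (bb ^ 2 * H ((f.kil a).kil i)) * e2 +
          (sin lam * H (f.cap a i)) * e3 + (bb * H ((f.cap a i).ctl a)) * e4 -
          (H (f.cap a i) * (sin (2 * lam + r) * w9 (r + lam))) * hb

/-- the same for the row -/
theorem Dd_NL {ι : Type*} [DecidableEq ι] (l : List ι) (r : ι → ℂ) (H : RS (Option (Option ι)) → ℂ)
    (f : RS (Option (Option ι))) :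
    (l.map (fun i => sin (2 * lam - r i))).prod *
        DdA ax (NL l (fun i => r i + 2 * lam) (fun i => sin (lam + r i)) H) f =
      (l.map (fun i => sin (2 * lam + r i))).prod *
        NL l (fun i => r i + lam) (fun i => sin (lam - r i)) (DdA ax H) f := by
  induction l generalizing f with
  | nil => simp [NL_nil]
  | cons i l ih =>
    rw [List.map_cons, List.map_cons, List.prod_cons, List.prod_cons, NL_cons, NL_cons,
      mul_comm (sin (2 * lam - r i)), mul_assoc, Dd_Nr (by simp [ax, BEX.lb]), mul_left_comm, ← Nr_smul]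
    rw [funext ih, Nr_smul, mul_assoc]

end Pool.Agent.CYL
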