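import Mathlib
import Pool.Agent.BEX.AProp

/-!
# CYL, part A: reduced states and the operators on them (note 3178 of MP_8c6f77_pr)

A reduced state of the labels `Y` is a matching some of whose legs have been cut: `f x = some x`
if `x` is empty, `f x = some y` with `y ≠ x` if `x` and `y` are joined, `f x = none` if `x` is
an occupied line whose other end has been cut.  As in BEX, operators act on FUNCTIONS of the
state.

* `Nr a i X α` : the auxiliary line `a` crosses the site `i` (R-matrix of BEX), then the site is
  evaluated (weight `α` if it is empty, `b` if it is occupied; its partner is cut) and emptied;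
* `DdA a` : the constant defect on the auxiliary line.
-/

namespace Pool.Agent.CYL

open Pool.Agent.BEX Complex

/-- Reduced states. -/
def RS (Y : Type*) := {f : Y → Option Y // ∀ x y, f x = some y → f y = some x}

namespace RS

variable {Y : Type*}

instance : CoeFun (RS Y) (fun _ => Y → Option Y) := ⟨fun f => f.1⟩

theorem symm (f : RS Y) {x y : Y} (h : f x = some y) : f y = some x := f.2 x y h

@[ext] theorem ext' {f g : RS Y} (h : ∀ x, f x = g x) : f = g := Subtype.ext (funext h)

/-- a state of BEX, as a reduced state without cut legs -/
def emb (M : St Y) : RS Y := ⟨fun x => some (M x), fun x y h => by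
  have : M x = y := Option.some.inj h
  subst this; simp⟩

@[simp] theorem emb_apply (M : St Y) (x : Y) : emb M x = some (M x) := rfl

variable [DecidableEq Y]

/-- underlying function of `kil` -/
def kilf (a : Y) (f : RS Y) (x : Y) : Option Y :=
  if x = a then some a else if f x = some a then none else f x

theorem kilf_symm (a : Y) (f : RS Y) (x y : Y) (h : kilf a f x = some y) :
    kilf a f y = some x := by
  unfold kilf at h ⊢
  by_cases h1 : x = a
  · rw [if_pos h1] at h
    have h2 : a = y := Option.some.inj h
    subst h2; simp [h1]
  · rw [if_neg h1] at h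
    by_cases h2 : f x = some a
    · rw [if_pos h2] at h; simp at h
    · rw [if_neg h2] at h
      have h3 := f.symm h
      have h4 : y ≠ a := fun h5 => h2 (by rw [h, h5])
      rw [if_neg h4, h3, if_neg (fun h5 => h1 (Option.some.inj h5))]

/-- `a` becomes empty, its partner is cut -/
def kil (a : Y) (f : RS Y) : RS Y := ⟨kilf a f, kilf_symm a f⟩

theorem kil_apply (a : Y) (f : RS Y) (x : Y) :
    f.kil a x = if x = a then some a else if f x = some a then none else f x := rfl

/-- underlying function of `ctl` -/
def ctlf (a : Y) (f : RS Y) (x : Y) : Option Y :=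
  if x = a then none else if f x = some a then none else f x

theorem ctlf_symm (a : Y) (f : RS Y) (x y : Y) (h : ctlf a f x = some y) :
    ctlf a f y = some x := by
  unfold ctlf at h ⊢
  by_cases h1 : x = a
  · rw [if_pos h1] at h; simp at h
  · rw [if_neg h1] at h
    by_cases h2 : f x = some a
    · rw [if_pos h2] at h; simp at h
    · rw [if_neg h2] at h
      have h3 := f.symm h
      have h4 : y ≠ a := fun h5 => h2 (by rw [h, h5])
      rw [if_neg h4, h3, if_neg (fun h5 => h1 (Option.some.inj h5))]

/-- `a` becomes a cut leg, its old partner is cut -/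
def ctl (a : Y) (f : RS Y) : RS Y := ⟨ctlf a f, ctlf_symm a f⟩

theorem ctl_apply (a : Y) (f : RS Y) (x : Y) :
    f.ctl a x = if x = a then none else if f x = some a then none else f x := rfl

/-- underlying function of `swp` -/
def swpf (a i : Y) (f : RS Y) (x : Y) : Option Y :=
  Option.map (Equiv.swap a i) (f (Equiv.swap a i x))

theorem swpf_symm (a i : Y) (f : RS Y) (x y : Y) (h : swpf a i f x = some y) :
    swpf a i f y = some x := by
  unfold swpf at h ⊢
  obtain ⟨z, h1, h2⟩ := Option.map_eq_some_iff.1 h
  have h3 := f.symm h1
  rw [← h2, Equiv.swap_apply_self, h3]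
  simp

/-- exchange the labels `a`, `i` -/
def swp (a i : Y) (f : RS Y) : RS Y := ⟨swpf a i f, swpf_symm a i f⟩

theorem swp_apply (a i : Y) (f : RS Y) (x : Y) :
    f.swp a i x = Option.map (Equiv.swap a i) (f (Equiv.swap a i x)) := rfl

/-- the other end of `y`, read as a leg (an empty `y` is read as a cut leg) -/
def leg (f : RS Y) (y : Y) : Option Y := if f y = some y then none else f y

/-- underlying function of `cap` -/
def capf (a i : Y) (f : RS Y) (x : Y) : Option Y :=
  if x = a then some a else if x = i then some i else
    if f x = some a then f.leg i else if f x = some i then f.leg a else f x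

theorem capf_symm (a i : Y) (f : RS Y) (x y : Y) (h : capf a i f x = some y) :
    capf a i f y = some x := by
  unfold capf at h ⊢
  by_cases h1 : x = a
  · rw [if_pos h1] at h
    have h2 : a = y := Option.some.inj h
    subst h2; simp [h1]
  rw [if_neg h1] at h
  by_cases h2 : x = i
  · rw [if_pos h2] at h
    have h3 : i = y := Option.some.inj h
    subst h3; simp only [h2, if_true, ite_eq_right_iff]; exact fun h => by rw [h]
  rw [if_neg h2] at h
  by_cases h3 : f x = some a
  · rw [if_pos h3] at h
    have h4 := f.symm h3
    unfold leg at h
    by_cases h5 : f i = some i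
    · rw [if_pos h5] at h; simp at h
    rw [if_neg h5] at h
    have h6 := f.symm h
    have h7 : y ≠ i := fun h8 => h5 (by rw [h, h8])
    by_cases h10 : i = a
    · subst h10
      rw [h4] at h
      have h11 : x = y := Option.some.inj h
      subst h11
      rw [if_neg h1, if_neg h2, if_pos h3, leg, if_neg h5, h4]
    have h8 : y ≠ a := fun h9 => by
      rw [h9, h4] at h6
      exact h2 (Option.some.inj h6)
    have h9 : f a ≠ some a := by
      rw [h4]; intro h10; exact h1 (Option.some.inj h10)
    rw [if_neg h8, if_neg h7, h6, if_neg (fun h11 => h10 (Option.some.inj h11)), if_pos rfl, leg,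
      if_neg h9, h4]
  rw [if_neg h3] at h
  by_cases h4 : f x = some i
  · rw [if_pos h4] at h
    have h5 := f.symm h4
    unfold leg at h
    by_cases h6 : f a = some a
    · rw [if_pos h6] at h; simp at h
    rw [if_neg h6] at h
    have h7 := f.symm h
    have h8 : y ≠ a := fun h9 => h6 (by rw [h, h9])
    have h9 : y ≠ i := fun h10 => by
      rw [h10, h5] at h7
      exact h1 (Option.some.inj h7)
    have h10 : f i ≠ some i := by
      rw [h5]; intro h11; exact h2 (Option.some.inj h11)
    rw [if_neg h8, if_neg h9, if_pos h7, leg, if_neg h10, h5]
  rw [if_neg h4] at h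
  have h5 := f.symm h
  have h6 : y ≠ a := fun h7 => h3 (by rw [h, h7])
  have h7 : y ≠ i := fun h8 => h4 (by rw [h, h8])
  rw [if_neg h6, if_neg h7, h5, if_neg (fun h8 => h1 (Option.some.inj h8)),
    if_neg (fun h8 => h2 (Option.some.inj h8))]

/-- `a` and `i` become empty, their partners are joined (if one of them is cut, the other
becomes cut) -/
def cap (a i : Y) (f : RS Y) : RS Y := ⟨capf a i f, capf_symm a i f⟩

theorem cap_apply (a i : Y) (f : RS Y) (x : Y) :
    f.cap a i x = if x = a then some a else if x = i then some i else
      if f x = some a then f.leg i else if f x = some i then f.leg a else f x := rfl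

/-- underlying function of `red` -/
def redf (S : Finset Y) (M : St Y) (x : Y) : Option Y :=
  if x ∈ S then some x else if M x ∈ S then none else some (M x)

theorem redf_symm (S : Finset Y) (M : St Y) (x y : Y) (h : redf S M x = some y) :
    redf S M y = some x := by
  unfold redf at h ⊢
  by_cases h1 : x ∈ S
  · rw [if_pos h1] at h
    have h2 : x = y := Option.some.inj h
    subst h2; simp [h1]
  rw [if_neg h1] at h
  by_cases h2 : M x ∈ S
  · rw [if_pos h2] at h; simp at h
  rw [if_neg h2] at h
  have h3 : M x = y := Option.some.inj h
  subst h3
  rw [if_neg h2, St.inv, if_neg h1]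

/-- the reduced state of a state of BEX when the sites in `S` have been crossed, evaluated and
cut -/
def red (S : Finset Y) (M : St Y) : RS Y := ⟨redf S M, redf_symm S M⟩

theorem red_apply (S : Finset Y) (M : St Y) (x : Y) :
    red S M x = if x ∈ S then some x else if M x ∈ S then none else some (M x) := rfl

end RS

open RS

variable {Y : Type*} [DecidableEq Y]

/-- The auxiliary line `a` crosses the site `i` with spectral parameter `X`; then the site is
evaluated, with weight `α` if it is empty and `b` if it is occupied. -/
noncomputable def Nr (a i : Y) (X α : ℂ) (H : RS Y → ℂ) (f : RS Y) : ℂ :=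
  if f a = some a then
    if f i = some i then kk X * α * H f + w4 X * bb * H (f.ctl a)
    else w2 X * α * H (f.swp a i) + w6 X * bb * H (f.kil i)
  else if f i = some i then w6 X * α * H f + w2 X * bb * H (f.kil a)
  else if f a = some i then w8 X * bb * H ((f.kil a).swp a i)
  else w8 X * bb * H ((f.kil a).swp a i) + w4 X * α * H (f.cap a i) +
    w9 X * bb * H ((f.cap a i).ctl a)

/-- The defect on the auxiliary line. -/
noncomputable def DdA (a : Y) (H : RS Y → ℂ) (f : RS Y) : ℂ :=
  if f a = some a then 2 * cos lam * H f + bb / sin lam * H (f.ctl a)
  else H f + bb / sin lam * H (f.kil a)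

/-! ### the labels of BEX: `ax`, `ax'`, `lb i`

`P : ι → Prop` is the set of the points at infinity. -/

variable {ι : Type*} [DecidableEq ι]

/-- The auxiliary line `ax` crosses the sites of the list `l` (head first) with parameters `X i`,
weights `α i`. -/
noncomputable def NL (l : List ι) (X α : ι → ℂ) (H : RS (Option (Option ι)) → ℂ) :
    RS (Option (Option ι)) → ℂ :=
  l.foldr (fun i G => Nr ax (BEX.lb i) (X i) (α i) G) H

theorem NL_cons (i : ι) (l : List ι) (X α : ι → ℂ) (H : RS (Option (Option ι)) → ℂ) :
    NL (i :: l) X α H = Nr ax (BEX.lb i) (X i) (α i) (NL l X α H) := rfl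

theorem NL_nil (X α : ι → ℂ) (H : RS (Option (Option ι)) → ℂ) : NL [] X α H = H := rfl

open Classical in
/-- all points at infinity are cut -/
noncomputable def ch (P : ι → Prop) (f : RS (Option (Option ι))) : ℂ :=
  if ∀ j, P j → f (BEX.lb j) = none then 1 else 0

/-- closing the auxiliary line: both ends are legs, not joined to each other -/
noncomputable def K1 (P : ι → Prop) (f : RS (Option (Option ι))) : ℂ :=
  if f ax = some ax then 0 else if f ax = some ax' then 0 else ch P (f.cap ax ax')

/-- closing the auxiliary line: both ends are empty -/
noncomputable def J0 (P : ι → Prop) (f : RS (Option (Option ι))) : ℂ :=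
  if f ax = some ax then ch P (f.kil ax') else 0

/-- the functional of the left part -/
noncomputable def E0 (P : ι → Prop) (f : RS (Option (Option ι))) : ℂ :=
  (if f ax = some ax then 1 else - (bb / sin lam)) * ch P ((f.kil ax').kil ax)

/-- product of the weights of the sites of `l` -/
noncomputable def wt (l : List ι) (α : ι → ℂ) (f : RS (Option (Option ι))) : ℂ :=
  (l.map (fun i => if f (BEX.lb i) = some (BEX.lb i) then α i else bb)).prod

open Classical in
/-- every point at infinity is cut, or joined to a label in `T` -/
noncomputable def chT (P : ι → Prop) (T : List (Option (Option ι))) (f : RS (Option (Option ι))) : ℂ :=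
  if ∀ j, P j → f (BEX.lb j) = none ∨ ∃ y ∈ T, f (BEX.lb j) = some y then 1 else 0

open Classical in
/-- The product functional in the leg sector: `l` is the list of the sites, all other labels
are points at infinity, which have to be joined to sites. -/
noncomputable def Ome (l : List ι) (α : ι → ℂ) (m : St ι) : ℂ :=
  if ∀ j, j ∉ l → m j ∈ l then (l.map (fun i => if m i = i then α i else bb)).prod else 0

end Pool.Agent.CYL
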