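import Mathlib
import Pool.Agent.CYL.A.TqLP

/-!
# CYL, part A, T-Q: the eigenvalue and `q` are Laurent polynomials
-/

namespace Pool.Agent.CYL.Tq

open Complex Pool.Agent.BEX

theorem LP_kk : LP 2 kk := (LP_sin_add (2 * lam)).mul (LP_sin_add (3 * lam))

theorem LP_w2 : LP 2 w2 := ((LP_sin_sub (3 * lam)).const_mul (sin (2 * lam))).mono (by norm_num)

theorem LP_w4 : LP 2 w4 := by
  have h := ((LP_sin_add 0).const_mul (sin (2 * lam))).mono (by norm_num : 1 ≤ 2)
  simp only [zero_add] at h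
  exact h

theorem LP_sin : LP 1 sin := by
  have h := LP_sin_add 0
  simp only [zero_add] at h
  exact h

theorem LP_w6 : LP 2 w6 := LP_sin.mul (LP_sin_sub (3 * lam))

theorem LP_w8 : LP 2 w8 := (LP_sin_sub (2 * lam)).mul (LP_sin_sub (3 * lam))

theorem LP_w9 : LP 2 w9 := (LP_sin.mul (LP_sin_sub lam)).neg

theorem LP_Rt {κ : Type*} [DecidableEq κ] (p q : κ) (a : ℂ) {D : ℕ} {G : ℂ → St κ → ℂ}
    (hG : ∀ m, LP D (fun u => G u m)) (m : St κ) : LP (2 + D) (fun u => Rt p q (u - a) (G u) m) := by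
  have k1 := LP_kk.shift (-a)
  have k2 := LP_w2.shift (-a)
  have k4 := LP_w4.shift (-a)
  have k6 := LP_w6.shift (-a)
  have k8 := LP_w8.shift (-a)
  have k9 := LP_w9.shift (-a)
  simp only [← sub_eq_add_neg] at k1 k2 k4 k6 k8 k9
  simp only [Rt]
  split_ifs
  · exact (k1.mul (hG _)).add (k4.mul (hG _))
  · exact (k6.mul (hG _)).add (k2.mul (hG _))
  · exact (k6.mul (hG _)).add (k2.mul (hG _))
  · exact k8.mul (hG _)
  · exact ((k8.mul (hG _)).add (k9.mul (hG _))).add (k4.mul (hG _))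

theorem LP_Fo {ι : Type*} [DecidableEq ι] (l : List ι) (U : ι → ℂ) {G : St (Option (Option ι)) → ℂ}
    (m : St (Option (Option ι))) : LP (2 * l.length) (fun u => Fo l u U G m) := by
  induction l generalizing m with
  | nil => exact LP_const (G m)
  | cons i l ih =>
    simp only [Fo_cons, List.length_cons]
    have h := LP_Rt ax (lb i) (U i) (fun m => ih m) m
    have e : 2 + 2 * l.length = 2 * (l.length + 1) := by ring
    rwa [e] at h

theorem LP_Tt {ι : Type*} [DecidableEq ι] [Fintype ι] (l : List ι) (U : ι → ℂ) (F : St ι → ℂ) (m : St ι) :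
    LP (2 * l.length) (fun u => Tt l u U F m) := by
  simp only [Tt_eq, cupF]
  exact (LP_Fo l U _).add (LP_Fo l U _)

theorem LP_Tf {L l : ℕ} (U : Fin L → ℂ) (F : Sts L l → ℂ) (m : Sts L l) : LP (2 * L) (fun u => Tf u U F m) := by
  have h := LP_Tt (lns L l) (rap U) F m
  have e : (lns L l).length = L := by simp [lns]
  rwa [e] at h

variable {L l : ℕ} {U : Fin L → ℂ} {psi : Sts L l → ℝ} {t : ℂ → ℂ}

theorem supp_chi (h : IsPsi U psi t) {m : Sts L l} (hm : ¬ Chi m) : psi m = 0 := h.supp m fun h1 => hm h1.1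

/-- the eigenvalue as a matrix element -/
theorem t_eq (h : IsPsi U psi t) (v : ℂ) :
    t v = ∑ m, (psi m : ℂ) * Tf v U (fun n : Sts L l => if Chi n then 1 else 0) m := by
  rw [h.eig v _ fun m hm => if_neg hm]
  have h1 : ∑ m, (psi m : ℂ) * (if Chi m then (1 : ℂ) else 0) = 1 := by
    have h2 : ∀ m : Sts L l, (psi m : ℂ) * (if Chi m then (1 : ℂ) else 0) = ((psi m : ℝ) : ℂ) := by
      intro m
      by_cases hm : Chi m
      · rw [if_pos hm, mul_one]
      · rw [if_neg hm, mul_zero, supp_chi h hm, ofReal_zero]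
    rw [Finset.sum_congr rfl fun m _ => h2 m, ← ofReal_sum, h.sum, ofReal_one]
  rw [h1, mul_one]

theorem LP_t (h : IsPsi U psi t) : LP (2 * L) t := by
  have e : t = fun v => ∑ m, (psi m : ℂ) * Tf v U (fun n : Sts L l => if Chi n then 1 else 0) m :=
    funext (t_eq h)
  rw [e]
  exact LP.sum _ fun m _ => (LP_Tf U _ m).const_mul _

theorem LP_Os (hl : 1 ≤ l) (U : Fin L → ℂ) (m : Sts L l) : LP (L - 1) (fun u => Os U u m) := by
  by_cases hm : Chi m
  · obtain ⟨i₀, hi₀⟩ := hm ⟨0, hl⟩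
    have hocc : m (Sum.inl i₀) ≠ Sum.inl i₀ := by
      intro h
      rw [← hi₀, m.inv, hi₀] at h
      exact absurd h (by simp)
    have h1 : LP (∑ i : Fin L, if m (Sum.inl i) = Sum.inl i then 1 else 0) (fun u => Os U u m) := by
      simp only [Os, Oa, if_pos hm]
      refine LP.prod _ fun i _ => ?_
      by_cases hi : m (Sum.inl i) = Sum.inl i
      · simp only [if_pos hi]
        have h := LP_sin.shift (-U i)
        simpa [sub_eq_add_neg] using h
      · simp only [if_neg hi]
        exact LP_const _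
    refine h1.mono ?_
    rw [← Finset.sum_filter, Finset.sum_const, smul_eq_mul, mul_one]
    have h2 : (Finset.univ.filter fun i : Fin L => m (Sum.inl i) = Sum.inl i) ⊆ Finset.univ.erase i₀ := by
      intro i hi
      rw [Finset.mem_filter] at hi
      rw [Finset.mem_erase]
      refine ⟨fun h => hocc (h ▸ hi.2), Finset.mem_univ _⟩
    refine (Finset.card_le_card h2).trans ?_
    rw [Finset.card_erase_of_mem (Finset.mem_univ _), Finset.card_univ, Fintype.card_fin]
  · simp only [Os, Oa, if_neg hm]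
    exact (LP_const 0).mono (Nat.zero_le _)

theorem LP_q (hl : 1 ≤ l) (U : Fin L → ℂ) (psi : Sts L l → ℝ) : LP (L - 1) (qf U psi) := by
  have e : qf U psi = fun u => ∑ m, (psi m : ℂ) * Os U u m := rfl
  rw [e]
  exact LP.sum _ fun m _ => (LP_Os hl U m).const_mul _

theorem L_pos (hl : 1 ≤ l) (h : IsPsi U psi t) : 1 ≤ L := by
  by_contra hcon
  have hL : L = 0 := by omega
  have h1 : ∀ m, psi m = 0 := by
    intro m
    refine supp_chi h fun hm => ?_
    obtain ⟨i, -⟩ := hm ⟨0, hl⟩
    have := i.2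
    omega
  have h2 := h.sum
  simp only [h1, Finset.sum_const_zero] at h2
  exact absurd h2 (by norm_num)

end Pool.Agent.CYL.Tq
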