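import Mathlib
import Pool.Agent.CYL.A.TqT
import Pool.Agent.CYL.A.TqDiv

/-!
# CYL, part A: the T-Q relation from `(**)`
-/

namespace Pool.Agent.CYL.Tq

open Complex Pool.Agent.BEX Polynomial

variable {L l : ℕ} {U : Fin L → ℂ} {psi : Sts L l → ℝ} {t : ℂ → ℂ}

theorem Sup_Os (U : Fin L → ℂ) (u : ℂ) : Sup (Os (l := l) U u) := fun _ hm => if_neg hm

/-- `(**)` for numbers -/
theorem ss_num (hS : StarStar L l) (h : IsPsi U psi t) (u : ℂ) :
    (∏ i, sin (2 * lam - (u - U i))) * (t (u + 2 * lam) * qf U psi (u + lam)) -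
      (-1) ^ (L + l) * (∏ i, sin (2 * lam + (u - U i))) * (t (u + lam) * qf U psi (u - lam)) =
    (-1) ^ l * (∏ i, sin (u - U i)) *
      ((∏ i, (sin (2 * lam - (u - U i)) * sin (lam - (u - U i)))) * qf U psi (u + 3 * lam) -
        (-1) ^ l * (∏ i, (sin (2 * lam + (u - U i)) * sin (lam + (u - U i)))) * qf U psi (u - 3 * lam)) := by
  have e1 := h.eig (u + 2 * lam) (Os U (u + lam)) (Sup_Os U _)
  have e2 := h.eig (u + lam) (Os U (u - lam)) (Sup_Os U _)
  have q1 : ∀ v, qf U psi v = ∑ m, (psi m : ℂ) * Os U v m := fun v => rfl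
  rw [q1, q1, q1, q1, ← e1, ← e2]
  simp only [Finset.mul_sum]
  rw [← Finset.sum_sub_distrib, ← Finset.sum_sub_distrib, Finset.mul_sum]
  refine Finset.sum_congr rfl fun m _ => ?_
  by_cases hm : Chi m
  · have h1 := hS U u m hm
    linear_combination (psi m : ℂ) * h1
  · rw [supp_chi h hm]
    simp

/-- the defect of the T-Q relation -/
noncomputable def Df (L l : ℕ) (U : Fin L → ℂ) (t q : ℂ → ℂ) (u : ℂ) : ℂ :=
  t u * q (u - lam) * q (u - 2 * lam) -
    ((-1) ^ (L + l) * (∏ i, (sin (2 * lam - (u - U i)) * sin (3 * lam - (u - U i)))) * q (u + lam) * q (u - 2 * lam) +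
    (∏ i, (sin (u - U i) * sin (3 * lam - (u - U i)))) * q u * q (u - 3 * lam) +
    (-1) ^ l * (∏ i, (sin (u - U i) * sin (lam - (u - U i)))) * q (u - 4 * lam) * q (u - lam))

theorem prod_neg_sin (f : Fin L → ℂ) : ∏ i, sin (-f i) = (-1) ^ L * ∏ i, sin (f i) := by
  simp only [sin_neg]
  rw [Finset.prod_neg, Finset.card_univ, Fintype.card_fin]

/-- the functional equation of the defect -/
theorem df_eq (hS : StarStar L l) (h : IsPsi U psi t) (u : ℂ) :
    (∏ i, sin (3 * lam - (u - U i))) * Df L l U t (qf U psi) (u + lam) =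
      (-1) ^ (L + l) * (∏ i, sin (lam + (u - U i))) * Df L l U t (qf U psi) u := by
  have h1 := ss_num hS h (u - lam)
  set q := qf U psi with hq
  have a1 : ∀ i, 2 * lam - (u - lam - U i) = 3 * lam - (u - U i) := fun i => by ring
  have a2 : ∀ i, 2 * lam + (u - lam - U i) = lam + (u - U i) := fun i => by ring
  have a3 : ∀ i, u - lam - U i = -(lam - (u - U i)) := fun i => by ring
  have a4 : ∀ i, lam - (u - lam - U i) = 2 * lam - (u - U i) := fun i => by ring
  have a5 : ∀ i, lam + (u - lam - U i) = u - U i := fun i => by ring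
  have b1 : u - lam + 2 * lam = u + lam := by ring
  have b2 : u - lam + lam = u := by ring
  have b3 : u - lam - lam = u - 2 * lam := by ring
  have b4 : u - lam + 3 * lam = u + 2 * lam := by ring
  have b5 : u - lam - 3 * lam = u - 4 * lam := by ring
  simp only [a1, a2, a4, a5] at h1
  rw [b1, b2, b3, b4, b5, show (∏ i, sin (u - lam - U i)) = (-1) ^ L * ∏ i, sin (lam - (u - U i)) by
    rw [← prod_neg_sin]; exact Finset.prod_congr rfl fun i _ => by rw [a3 i]] at h1
  unfold Df
  have c1 : ∀ i, 2 * lam - (u + lam - U i) = lam - (u - U i) := fun i => by ring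
  have c2 : ∀ i, 3 * lam - (u + lam - U i) = 2 * lam - (u - U i) := fun i => by ring
  have c3 : ∀ i, u + lam - U i = lam + (u - U i) := fun i => by ring
  have c4 : ∀ i, lam - (u + lam - U i) = -(u - U i) := fun i => by ring
  have d1 : u + lam - lam = u := by ring
  have d2 : u + lam - 2 * lam = u - lam := by ring
  have d3 : u + lam + lam = u + 2 * lam := by ring
  have d4 : u + lam - 3 * lam = u - 2 * lam := by ring
  have d5 : u + lam - 4 * lam = u - 3 * lam := by ring
  simp only [c1, c2, c4]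
  simp only [c3]
  rw [d1, d2, d3, d4, d5]
  simp only [Finset.prod_mul_distrib] at h1 ⊢
  rw [prod_neg_sin (fun i => u - U i)]
  generalize (∏ i, sin (3 * lam - (u - U i))) = S3 at *
  generalize (∏ i, sin (2 * lam - (u - U i))) = S2 at *
  generalize (∏ i, sin (lam - (u - U i))) = S1 at *
  generalize (∏ i, sin (u - U i)) = S0 at *
  generalize (∏ i, sin (lam + (u - U i))) = R1 at *
  have p1 : ((-1 : ℂ) ^ L) * (-1) ^ L = 1 := by rw [← mul_pow]; norm_num
  have p2 : ((-1 : ℂ) ^ l) * (-1) ^ l = 1 := by rw [← mul_pow]; norm_num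
  rw [pow_add] at h1 ⊢
  generalize ((-1 : ℂ) ^ L) = eL at *
  generalize ((-1 : ℂ) ^ l) = el at *
  generalize q (u + 2 * lam) = q2 at *
  generalize q (u + lam) = q1 at *
  generalize q u = q0 at *
  generalize q (u - lam) = qm1 at *
  generalize q (u - 2 * lam) = qm2 at *
  generalize q (u - 3 * lam) = qm3 at *
  generalize q (u - 4 * lam) = qm4 at *
  generalize t (u + lam) = t1 at *
  generalize t u = t0 at *
  linear_combination qm1 * h1 + (S3 * S2 * R1 * q1 * qm2 * el ^ 2) * p1 + (S3 * S2 * R1 * q1 * qm2) * p2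

theorem LP_prod_sin_sub (a : ℂ) (U : Fin L → ℂ) : LP L (fun u => ∏ i, sin (a - (u - U i))) := by
  have h := LP.prod Finset.univ (d := fun _ : Fin L => 1) (f := fun i u => sin (a - (u - U i))) fun i _ => by
    have h1 := LP_sin_sub (a + U i)
    have e : (fun u => sin (a + U i - u)) = fun u => sin (a - (u - U i)) := by
      funext u
      congr 1
      ring
    rwa [e] at h1
  simpa using h

theorem LP_prod_sin (U : Fin L → ℂ) : LP L (fun u => ∏ i, sin (u - U i)) := by
  have h := LP.prod Finset.univ (d := fun _ : Fin L => 1) (f := fun i u => sin (u - U i)) fun i _ => by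
    have h1 := LP_sin.shift (-U i)
    simpa [sub_eq_add_neg] using h1
  simpa using h

theorem LP_Df {D : ℕ} {q : ℂ → ℂ} (ht : LP (2 * L) t) (hq : LP D q) : LP (2 * L + 2 * D) (Df L l U t q) := by
  have s : ∀ a, LP D (fun u => q (u - a)) := fun a => by
    have h := hq.shift (-a)
    simpa [sub_eq_add_neg] using h
  have e : 2 * L + D + D = 2 * L + 2 * D := by ring
  have e2 : L + L = 2 * L := by ring
  have h1 := (ht.mul (s lam)).mul (s (2 * lam))
  have h2 := ((((LP_prod_sin_sub (2 * lam) U).mul (LP_prod_sin_sub (3 * lam) U)).const_mul ((-1) ^ (L + l))).mul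
    (hq.shift lam)).mul (s (2 * lam))
  have h3 := (((LP_prod_sin U).mul (LP_prod_sin_sub (3 * lam) U)).mul hq).mul (s (3 * lam))
  have h4 := ((((LP_prod_sin U).mul (LP_prod_sin_sub lam U)).const_mul ((-1) ^ l)).mul (s (4 * lam))).mul (s lam)
  rw [e] at h1
  rw [e2, e] at h2 h3 h4
  have h5 := h1.sub ((h2.add h3).add h4)
  unfold Df
  simp only [Finset.prod_mul_distrib]
  exact h5

theorem sin_left (a u : ℂ) : sin (a - u) = -(exp (-(I * a)) / (2 * I)) * (exp (I * u))⁻¹ *
    (exp (I * u) ^ 2 - exp (2 * (I * a))) := by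
  rw [show sin (a - u) = (exp (-(a - u) * I) - exp ((a - u) * I)) * I / 2 from rfl]
  have e1 : exp (-(a - u) * I) = exp (-(I * a)) * exp (I * u) := by
    rw [← exp_add]; congr 1; ring
  have e2 : exp ((a - u) * I) = exp (I * a) * (exp (I * u))⁻¹ := by
    rw [← exp_neg, ← exp_add]; congr 1; ring
  have e3 : exp (2 * (I * a)) = exp (I * a) * exp (I * a) := by
    rw [← exp_add]; congr 1; ring
  have e4 : exp (-(I * a)) * exp (I * a) = 1 := by
    rw [← exp_add, neg_add_cancel, exp_zero]
  have e5 : I * I = -1 := I_mul_I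
  have e6 : exp (I * u) ≠ 0 := exp_ne_zero _
  have e7 : (I : ℂ) ≠ 0 := I_ne_zero
  rw [e1, e2, e3]
  field_simp
  generalize exp (-(I * a)) = A at *
  generalize exp (I * a) = B at *
  generalize exp (I * u) = z at *
  have e8 : I ^ 2 = -1 := by rw [sq]; exact e5
  linear_combination (A * z ^ 2 - B) * e8 - B * e4

theorem sin_right (a u : ℂ) : sin (a + u) = exp (I * a) / (2 * I) * (exp (I * u))⁻¹ *
    (exp (I * u) ^ 2 - exp (-(2 * (I * a)))) := by
  have h := sin_left (-a) u
  have e : sin (a + u) = -sin (-a - u) := by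
    rw [← sin_neg]
    congr 1
    ring
  rw [e, h]
  have e1 : -(I * -a) = I * a := by ring
  have e2 : 2 * (I * -a) = -(2 * (I * a)) := by ring
  rw [e1, e2]
  ring

/-- **the T-Q relation** -/
theorem tq_of (hS : StarStar L l) (hl : 1 ≤ l) (hU : ∀ n ∈ Finset.Icc (1 : ℕ) 4, ∀ k j, sin (U k - U j + (n : ℂ) * lam) ≠ 0)
    (h : IsPsi U psi t) : TQ L l U t (qf U psi) := by
  have hL := L_pos hl h
  obtain ⟨P, hP, hPe⟩ := LP_Df (l := l) (U := U) (LP_t h) (LP_q hl U psi)
  have key : P = 0 := by
    set κ : ℂ := exp (I * lam) with hκd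
    have hκ : κ ≠ 0 := exp_ne_zero _
    set D := 2 * L + 2 * (L - 1) with hD
    set y : Fin L → ℂ := fun k => exp (-(2 * (I * (lam - U k)))) with hy
    have hmain : ∀ z : ℂ, z ≠ 0 → ((-1) ^ (L + l) * κ ^ D * ∏ k, (exp (I * (lam - U k)) / (2 * I))) *
        (GG κ y 0 * P).eval z = (∏ k, -(exp (-(I * (3 * lam + U k))) / (2 * I))) *
          (GG κ y 4 * P.comp (C κ * X)).eval z := by
      intro z hz
      obtain ⟨u, rfl⟩ : ∃ u, z = exp (I * u) := by
        refine ⟨-I * log z, ?_⟩
        rw [← mul_assoc, mul_neg, I_mul_I, neg_neg, one_mul, exp_log hz]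
      have h1 := df_eq hS h u
      have h2 := hPe u
      have h3 := hPe (u + lam)
      have e1 : exp (I * (u + lam)) = κ * exp (I * u) := by
        rw [mul_add, exp_add, mul_comm]
      rw [e1] at h3
      have g4 : ∏ i, sin (3 * lam - (u - U i)) = (∏ k, -(exp (-(I * (3 * lam + U k))) / (2 * I))) *
          (exp (I * u))⁻¹ ^ L * (GG κ y 4).eval (exp (I * u)) := by
        have e : ∀ i, sin (3 * lam - (u - U i)) = -(exp (-(I * (3 * lam + U i))) / (2 * I)) * (exp (I * u))⁻¹ *
            (exp (I * u) ^ 2 - κ ^ (2 * 4) * y i) := by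
          intro i
          have e2 : 3 * lam - (u - U i) = (3 * lam + U i) - u := by ring
          rw [e2, sin_left]
          congr 2
          rw [hκd, hy, ← exp_nat_mul, ← exp_add]
          congr 1
          push_cast
          ring
        rw [Finset.prod_congr rfl fun i _ => e i, Finset.prod_mul_distrib, Finset.prod_mul_distrib, Finset.prod_const,
          Finset.card_univ, Fintype.card_fin]
        unfold GG
        rw [eval_prod]
        simp only [eval_sub, eval_pow, eval_X, eval_C]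
      have g0 : ∏ i, sin (lam + (u - U i)) = (∏ k, (exp (I * (lam - U k)) / (2 * I))) *
          (exp (I * u))⁻¹ ^ L * (GG κ y 0).eval (exp (I * u)) := by
        have e : ∀ i, sin (lam + (u - U i)) = exp (I * (lam - U i)) / (2 * I) * (exp (I * u))⁻¹ *
            (exp (I * u) ^ 2 - κ ^ (2 * 0) * y i) := by
          intro i
          have e2 : lam + (u - U i) = (lam - U i) + u := by ring
          rw [e2, sin_right, mul_zero, pow_zero, one_mul]
        rw [Finset.prod_congr rfl fun i _ => e i, Finset.prod_mul_distrib, Finset.prod_mul_distrib, Finset.prod_const,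
          Finset.card_univ, Fintype.card_fin]
        unfold GG
        rw [eval_prod]
        simp only [eval_sub, eval_pow, eval_X, eval_C]
      rw [g4, g0] at h1
      rw [eval_mul, eval_mul, eval_comp, eval_mul, eval_C, eval_X, ← h2, ← h3]
      have hz' : exp (I * u) ≠ 0 := exp_ne_zero _
      have hzL : exp (I * u) ^ L * (exp (I * u))⁻¹ ^ L = 1 := by
        rw [← mul_pow, mul_inv_cancel₀ hz', one_pow]
      rw [mul_pow]
      generalize (∏ k, -(exp (-(I * (3 * lam + U k))) / (2 * I))) = A4 at *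
      generalize (∏ k, (exp (I * (lam - U k)) / (2 * I))) = A0 at *
      generalize (GG κ y 4).eval (exp (I * u)) = E4 at *
      generalize (GG κ y 0).eval (exp (I * u)) = E0 at *
      generalize Df L l U t (qf U psi) (u + lam) = X1 at *
      generalize Df L l U t (qf U psi) u = X0 at *
      generalize exp (I * u) = z at *
      generalize (z⁻¹) ^ L = zi at *
      linear_combination (-κ ^ D * z ^ D * z ^ L) * h1 + (κ ^ D * z ^ D * (A4 * E4 * X1 -
        (-1) ^ (L + l) * A0 * E0 * X0)) * hzL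
    set c1 : ℂ := (-1) ^ (L + l) * κ ^ D * ∏ k, (exp (I * (lam - U k)) / (2 * I)) with hc1
    set c2 : ℂ := ∏ k, -(exp (-(I * (3 * lam + U k))) / (2 * I)) with hc2
    have hc10 : c1 ≠ 0 := by
      refine mul_ne_zero (mul_ne_zero (pow_ne_zero _ (by norm_num)) (pow_ne_zero _ hκ)) ?_
      exact Finset.prod_ne_zero_iff.2 fun k _ => div_ne_zero (exp_ne_zero _) (mul_ne_zero two_ne_zero I_ne_zero)
    have hc20 : c2 ≠ 0 :=
      Finset.prod_ne_zero_iff.2 fun k _ => neg_ne_zero.2 (div_ne_zero (exp_ne_zero _)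
        (mul_ne_zero two_ne_zero I_ne_zero))
    have hpoly : C c1 * (GG κ y 0 * P) = C c2 * (GG κ y 4 * P.comp (C κ * X)) := by
      refine Polynomial.eq_of_infinite_eval_eq _ _ ?_
      refine (Set.finite_singleton (0 : ℂ)).infinite_compl.mono fun z hz => ?_
      show (C c1 * (GG κ y 0 * P)).eval z = (C c2 * (GG κ y 4 * P.comp (C κ * X))).eval z
      rw [eval_mul (p := C c1), eval_C, eval_mul (p := C c2), eval_C]
      exact hmain z hz
    refine eq_zero_of_eq hκ y (c := c2 / c1) (div_ne_zero hc20 hc10) ?_ ?_ ?_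
    · intro n hn k j hkj
      have h1 := hU n hn k j
      apply h1
      rw [hκd, hy, ← exp_nat_mul, ← exp_add, exp_eq_exp_iff_exists_int] at hkj
      obtain ⟨w, hw⟩ := hkj
      rw [Complex.sin_eq_zero_iff]
      refine ⟨w, ?_⟩
      have e5 : (2 : ℂ) * I ≠ 0 := mul_ne_zero two_ne_zero I_ne_zero
      refine mul_left_cancel₀ e5 ?_
      push_cast at hw
      linear_combination hw
    · rw [hD] at hP
      omega
    · have hC1 : (C c1 : ℂ[X]) ≠ 0 := C_ne_zero.2 hc10
      refine mul_left_cancel₀ hC1 ?_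
      rw [hpoly, ← mul_assoc, ← mul_assoc, ← C_mul, mul_div_cancel₀ _ hc10, mul_assoc]
  intro u
  have h1 := hPe u
  rw [key, eval_zero, mul_eq_zero] at h1
  have h2 := h1.resolve_left (pow_ne_zero _ (exp_ne_zero _))
  unfold Df at h2
  exact sub_eq_zero.1 h2

end Pool.Agent.CYL.Tq
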