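import Mathlib
import Pool.Agent.CYL.A.Tq

/-!
# CYL, part A: the T-Q relation for the rapidities `w, -w, ..` and for the homogeneous system
-/

namespace Pool.Agent.CYL.Tq

open Complex Pool.Agent.BEX

theorem sin_ne {x : ℝ} (h0 : 0 < x) (h1 : x < Real.pi) : sin (x : ℂ) ≠ 0 := by
  rw [← ofReal_sin, ofReal_ne_zero]
  exact (Real.sin_pos_of_pos_of_lt_pi h0 h1).ne'

theorem sin_nlam {n : ℕ} (hn : n ∈ Finset.Icc (1 : ℕ) 4) {d : ℂ} (x : ℝ) (hd : d = (x : ℂ))
    (h0 : 0 < x + n * (Real.pi / 8) ∨ x + n * (Real.pi / 8) < 0) (h1 : |x| < Real.pi / 4) :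
    sin (d + (n : ℂ) * lam) ≠ 0 := by
  rw [Finset.mem_Icc] at hn
  have hn1 : (n : ℝ) ≤ 4 := by exact_mod_cast hn.2
  have hn0 : (0 : ℝ) ≤ n := Nat.cast_nonneg n
  have hpi := Real.pi_pos
  rw [abs_lt] at h1
  have e : d + (n : ℂ) * lam = ((x + n * (Real.pi / 8) : ℝ) : ℂ) := by
    rw [hd]
    unfold lam
    push_cast
    ring
  rw [e]
  rcases h0 with h | h
  · exact sin_ne h (by nlinarith)
  · have h2 := sin_ne (x := -(x + n * (Real.pi / 8))) (by linarith) (by nlinarith)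
    rw [ofReal_neg, sin_neg, neg_ne_zero] at h2
    exact h2

/-- the T-Q relation for the homogeneous system -/
theorem tq_zero {L l : ℕ} (hS : StarStar L l) (hl : 1 ≤ l) {psi : Sts L l → ℝ} {t : ℂ → ℂ}
    (h : IsPsi (fun _ : Fin L => 0) psi t) : TQ L l (fun _ => 0) t (qf (fun _ => 0) psi) := by
  refine tq_of hS hl (fun n hn k j => ?_) h
  refine sin_nlam hn 0 (by simp) (Or.inl ?_) (by rw [abs_zero]; positivity)
  have hn1 : (1 : ℝ) ≤ n := by exact_mod_cast (Finset.mem_Icc.1 hn).1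
  have hpi := Real.pi_pos
  nlinarith

/-- the T-Q relation for `U = (w, -w, ..)` -/
theorem tq_w {p l : ℕ} (hS : StarStar (2 * p) l) (hl : 1 ≤ l) {w : ℝ} (h0 : 0 ≤ w) (h1 : w < Real.pi / 8)
    (h2 : w ≠ Real.pi / 16) {psi : Sts (2 * p) l → ℝ} {t : ℂ → ℂ} (h : IsPsi (Uw (2 * p) w) psi t) :
    TQ (2 * p) l (Uw (2 * p) w) t (qf (Uw (2 * p) w) psi) := by
  have hpi := Real.pi_pos
  refine tq_of hS hl (fun n hn k j => ?_) h
  have hn1 : (1 : ℝ) ≤ n := by exact_mod_cast (Finset.mem_Icc.1 hn).1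
  have habs : |2 * w| < Real.pi / 4 := by rw [abs_of_nonneg (by linarith)]; linarith
  have habs' : |-(2 * w)| < Real.pi / 4 := by rw [abs_neg]; exact habs
  have pos0 : 0 < (0 : ℝ) + n * (Real.pi / 8) := by nlinarith
  have pos1 : 0 < 2 * w + n * (Real.pi / 8) := by nlinarith
  have pos2 : 0 < -(2 * w) + n * (Real.pi / 8) ∨ -(2 * w) + n * (Real.pi / 8) < 0 := by
    rcases lt_trichotomy (2 * w) (n * (Real.pi / 8)) with h3 | h3 | h3
    · exact Or.inl (by linarith)
    · exfalso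
      rcases Nat.lt_or_ge n 2 with h4 | h4
      · have h5 : n = 1 := by
          have := (Finset.mem_Icc.1 hn).1
          omega
        rw [h5] at h3
        apply h2
        push_cast at h3
        linarith
      · have h5 : (2 : ℝ) ≤ n := by exact_mod_cast h4
        nlinarith
    · exact Or.inr (by linarith)
  have hU : ∀ i : Fin (2 * p), Uw (2 * p) w i = (w : ℂ) ∨ Uw (2 * p) w i = -(w : ℂ) := by
    intro i
    unfold Uw
    split_ifs
    · exact Or.inl rfl
    · exact Or.inr rfl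
  rcases hU k with hk | hk <;> rcases hU j with hj | hj
  · exact sin_nlam hn 0 (by rw [hk, hj]; simp) (Or.inl pos0) (by rw [abs_zero]; positivity)
  · exact sin_nlam hn (2 * w) (by rw [hk, hj]; push_cast; ring) (Or.inl pos1) habs
  · exact sin_nlam hn (-(2 * w)) (by rw [hk, hj]; push_cast; ring) pos2 habs'
  · exact sin_nlam hn 0 (by rw [hk, hj]; simp) (Or.inl pos0) (by rw [abs_zero]; positivity)

end Pool.Agent.CYL.Tq
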