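import Mathlib
import Pool.Agent.CYL.A.TqFin
import Pool.Agent.CYL.A.Star

/-!
# CYL, part A: the exports on the T-Q relation
-/

namespace Pool.Agent.CYL

/-- the T-Q relation for `U = (w, -w, ..)` -/
theorem tq {p l : ℕ} (hl : 1 ≤ l) {w : ℝ} (h0 : 0 ≤ w) (h1 : w < Real.pi / 8) (h2 : w ≠ Real.pi / 16)
    {psi : Sts (2 * p) l → ℝ} {t : ℂ → ℂ} (h : IsPsi (Uw (2 * p) w) psi t) :
    TQ (2 * p) l (Uw (2 * p) w) t (qf (Uw (2 * p) w) psi) := Tq.tq_w (star_star _ _) hl h0 h1 h2 h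

/-- the T-Q relation for the homogeneous system -/
theorem tq0 {L l : ℕ} (hl : 1 ≤ l) {psi : Sts L l → ℝ} {t : ℂ → ℂ} (h : IsPsi (fun _ : Fin L => 0) psi t) :
    TQ L l (fun _ => 0) t (qf (fun _ => 0) psi) := Tq.tq_zero (star_star _ _) hl h

end Pool.Agent.CYL
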